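import Pool.Agent.TH426.Kt.Trans

set_option autoImplicit false

/-!
From the window bounds back to the maximal function.
-/

open MeasureTheory Set ENNReal Metric Filter

namespace Pool.Agent.TH426.Kt

open Pool.Agent.H803R2.Kak Pool.Agent.H803R2.KakFTO

variable {d : ℕ}

/-- The windows of heights. -/
def win (T : Set ℝ) (k : ℤ) : Set ℝ := Ico ((k : ℝ) / 4) (((k : ℝ) + 1) / 4) ∩ T

theorem measurableSet_win {T : Set ℝ} (hT : MeasurableSet T) (k : ℤ) : MeasurableSet (win T k) :=
  measurableSet_Ico.inter hT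

theorem win_subset (T : Set ℝ) (k : ℤ) :
    win T k ⊆ Icc (((2 * (k : ℝ) + 1) / 8) - 1/8) (((2 * (k : ℝ) + 1) / 8) + 1/8) := by
  rintro t ⟨⟨h1, h2⟩, _⟩
  constructor <;> linarith

theorem tsum_win {T : Set ℝ} (hT : MeasurableSet T) (F : ℝ → ℝ≥0∞) :
    ∑' k : ℤ, ∫⁻ t in win T k, F t = ∫⁻ t in T, F t := by
  rw [← lintegral_iUnion (fun k => measurableSet_win hT k)]
  · congr 2
    ext t
    simp only [win, mem_iUnion, mem_inter_iff, mem_Ico]
    constructor
    · rintro ⟨k, _, ht⟩; exact ht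
    · intro ht
      refine ⟨⌊4 * t⌋, ⟨?_, ?_⟩, ht⟩
      · have := Int.floor_le (4 * t); linarith
      · have := Int.lt_floor_add_one (4 * t); linarith
  · intro j k hjk
    rw [Function.onFun, Set.disjoint_left]
    rintro t ⟨⟨h1, h2⟩, _⟩ ⟨⟨h3, h4⟩, _⟩
    apply hjk
    have h5 : (j : ℝ) < k + 1 := by linarith
    have h6 : (k : ℝ) < j + 1 := by linarith
    have h7 : j < k + 1 := by exact_mod_cast h5
    have h8 : k < j + 1 := by exact_mod_cast h6
    omega

/-- An interval of length three is covered by thirteen windows. -/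
theorem long_le {T : Set ℝ} (hT : MeasurableSet T) (F : ℝ → ℝ≥0∞) (hF : ∀ t, t ∉ T → F t = 0) (h : ℝ) :
    ∫⁻ t in Icc h (h + 3), F t ≤ 13 * ⨆ k : ℤ, ∫⁻ t in win T k, F t := by
  set k0 : ℤ := ⌊4 * h⌋ with hk0
  have hk1 := Int.floor_le (4 * h)
  have hk2 := Int.lt_floor_add_one (4 * h)
  rw [← hk0] at hk1 hk2
  have hcov : Icc h (h + 3) ⊆ (⋃ j : Fin 13, win T (k0 + (j : ℕ))) ∪ Tᶜ := by
    rintro t ⟨h1, h2⟩
    by_cases ht : t ∈ T
    · left
      rw [mem_iUnion]
      have h3 := Int.floor_le (4 * t)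
      have h4 := Int.lt_floor_add_one (4 * t)
      set m : ℤ := ⌊4 * t⌋ with hm
      have h5 : (k0 : ℝ) < m + 1 := by linarith
      have h6 : (m : ℝ) < k0 + 1 + 12 := by linarith
      have h7 : k0 < m + 1 := by exact_mod_cast h5
      have h8 : m < k0 + 1 + 12 := by exact_mod_cast h6
      refine ⟨⟨(m - k0).toNat, by omega⟩, ?_⟩
      have h9 : k0 + (((m - k0).toNat : ℕ) : ℤ) = m := by omega
      refine ⟨⟨?_, ?_⟩, ht⟩
      · simp only [h9]; linarith
      · simp only [h9]; linarith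
    · right; exact ht
  calc ∫⁻ t in Icc h (h + 3), F t
      ≤ ∫⁻ t in (⋃ j : Fin 13, win T (k0 + (j : ℕ))) ∪ Tᶜ, F t := lintegral_mono_set hcov
    _ ≤ (∫⁻ t in (⋃ j : Fin 13, win T (k0 + (j : ℕ))), F t) + ∫⁻ t in Tᶜ, F t :=
        lintegral_union_le _ _ _
    _ ≤ (∑' j : Fin 13, ∫⁻ t in win T (k0 + (j : ℕ)), F t) + 0 := by
        gcongr
        · exact lintegral_iUnion_le _ _
        · refine le_of_eq ?_
          rw [setLIntegral_congr_fun hT.compl (g := fun _ => 0) (fun t ht => hF t ht)]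
          simp
    _ ≤ _ := by
        rw [add_zero, tsum_fintype]
        calc ∑ j : Fin 13, ∫⁻ t in win T (k0 + (j : ℕ)), F t
            ≤ ∑ j : Fin 13, ⨆ k : ℤ, ∫⁻ t in win T k, F t := by
              apply Finset.sum_le_sum
              intro j _
              exact le_iSup (fun k : ℤ => ∫⁻ t in win T k, F t) _
          _ = _ := by simp

theorem tsum_rpow_le {ι : Type*} {l : ℝ} (hl : 1 ≤ l) (a : ι → ℝ≥0∞) :
    ∑' k, a k ^ l ≤ (∑' k, a k) ^ l := by
  set S := ∑' k, a k with hS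
  by_cases hSt : S = ∞
  · rw [hSt, ENNReal.top_rpow_of_pos (by linarith)]; exact le_top
  by_cases hS0 : S = 0
  · have : ∀ k, a k = 0 := by
      intro k
      have := ENNReal.le_tsum (f := a) k
      rw [← hS, hS0] at this
      exact le_antisymm this zero_le
    simp only [this]
    rw [ENNReal.zero_rpow_of_pos (by linarith)]
    simp
  have h1 : ∀ k, a k ^ l ≤ a k * S ^ (l - 1) := by
    intro k
    have hak : a k ≤ S := ENNReal.le_tsum k
    by_cases h0 : a k = 0
    · rw [h0, ENNReal.zero_rpow_of_pos (by linarith)]; exact zero_le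
    have hat : a k ≠ ∞ := ne_top_of_le_ne_top hSt hak
    calc a k ^ l = a k ^ ((1 : ℝ) + (l - 1)) := by congr 1; ring
      _ = a k ^ (1 : ℝ) * a k ^ (l - 1) := ENNReal.rpow_add _ _ h0 hat
      _ ≤ a k * S ^ (l - 1) := by
          rw [ENNReal.rpow_one]
          gcongr
  calc ∑' k, a k ^ l ≤ ∑' k, a k * S ^ (l - 1) := ENNReal.tsum_le_tsum h1
    _ = S * S ^ (l - 1) := by rw [ENNReal.tsum_mul_right]
    _ = S ^ l := by
        nth_rewrite 1 [← ENNReal.rpow_one S]
        rw [← ENNReal.rpow_add _ _ hS0 hSt]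
        congr 1; ring

/-- The constant in `LMb_of_Wb`. -/
noncomputable def cb (d : ℕ) : ℝ≥0∞ := 52 * 16 ^ d

theorem cb_ne_top (d : ℕ) : cb d ≠ ∞ := ENNReal.mul_ne_top (by simp) (ENNReal.pow_ne_top (by simp))

/-- The maximal function is controlled by the windows. -/
theorem lineMax_le_win {δ : ℝ} (hδ : 0 < δ) (hδ1 : δ < 1) {T : Set ℝ} (hT : MeasurableSet T)
    {b b' : Vec d → Vec d} {v : Vec d} (hv : ‖v‖ ≤ 1) (hbb : ‖b' v - b v‖ ≤ δ)
    {f : Space d → ℝ} (hf : Measurable f) (hfT : VanOff T f) :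
    lineMax δ b' f v ≤ cb d * ⨆ k : ℤ, W (3 * δ) (win T k) (lin b)
      (fun p => ‖f (WithLp.toLp 2 p)‖ₑ) v := by
  have hmp := WithLp.volume_preserving_toLp (Vec d) ℝ
  set F : Vec d × ℝ → ℝ≥0∞ := fun p => ‖f (WithLp.toLp 2 p)‖ₑ with hF
  have hFm : Measurable F := (hf.comp hmp.measurable).enorm
  have h1 := lineMax_le hδ hδ1 b' hv hf
  have hV2 : volume (closedBall (0 : Vec d) (2 * δ)) ≠ 0 := (vol_pos (d := d) (by linarith)).ne'
  have hV2t : volume (closedBall (0 : Vec d) (2 * δ)) ≠ ∞ := (vol_lt_top (d := d)).ne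
  have hV3 : volume (closedBall (0 : Vec d) (3 * δ)) ≠ 0 := (vol_pos (d := d) (by linarith)).ne'
  have hV3t : volume (closedBall (0 : Vec d) (3 * δ)) ≠ ∞ := (vol_lt_top (d := d)).ne
  have hVV : volume (closedBall (0 : Vec d) (3 * δ)) ≤ 2 ^ d * volume (closedBall (0 : Vec d) (2 * δ)) := by
    calc volume (closedBall (0 : Vec d) (3 * δ)) ≤ volume (closedBall (0 : Vec d) (4 * δ)) := by
          apply measure_mono
          apply closedBall_subset_closedBall
          linarith
      _ = 2 ^ d * volume (closedBall (0 : Vec d) (2 * δ)) := by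
          rw [vol_ball_scale (d := d) (r := 4 * δ) (by linarith),
            vol_ball_scale (d := d) (r := 2 * δ) (by linarith), ← mul_assoc, ← mul_pow]
          congr 2
          have : (2:ℝ≥0∞) = ENNReal.ofReal 2 := by simp
          rw [this, ← ENNReal.ofReal_mul (by norm_num)]
          congr 1
          ring
  have hG : ∀ t : ℝ, moll (2 * δ) F (b' v + t • v, t) ≤ 2 ^ d * moll (3 * δ) F (b v + t • v, t) := by
    intro t
    unfold moll
    simp only
    have h2 : ∫⁻ w in closedBall (0 : Vec d) (2 * δ), F (b' v + t • v + w, t) ≤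
        ∫⁻ w in closedBall (0 : Vec d) (3 * δ), F (b v + t • v + w, t) := by
      rw [← lintegral_indicator measurableSet_closedBall, ← lintegral_indicator measurableSet_closedBall,
        ← lintegral_add_left_eq_self (fun w => (closedBall (0 : Vec d) (2 * δ)).indicator
          (fun w => F (b' v + t • v + w, t)) w) (b v - b' v)]
      apply lintegral_mono
      intro w
      simp only
      by_cases hw : b v - b' v + w ∈ closedBall (0 : Vec d) (2 * δ)
      · rw [indicator_of_mem hw, indicator_of_mem]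
        · apply le_of_eq
          congr 2
          abel
        · rw [mem_closedBall, dist_zero_right] at hw ⊢
          calc ‖w‖ = ‖(b v - b' v + w) + (b' v - b v)‖ := by congr 1; abel
            _ ≤ ‖b v - b' v + w‖ + ‖b' v - b v‖ := norm_add_le _ _
            _ ≤ 2 * δ + δ := add_le_add hw hbb
            _ = 3 * δ := by ring
      · rw [indicator_of_notMem hw]; exact zero_le
    calc (volume (closedBall (0 : Vec d) (2 * δ)))⁻¹ * ∫⁻ w in closedBall (0 : Vec d) (2 * δ), F (b' v + t • v + w, t)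
        ≤ (volume (closedBall (0 : Vec d) (2 * δ)))⁻¹ * ∫⁻ w in closedBall (0 : Vec d) (3 * δ), F (b v + t • v + w, t) := by
          gcongr
      _ = ((volume (closedBall (0 : Vec d) (2 * δ)))⁻¹ * volume (closedBall (0 : Vec d) (3 * δ))) *
          ((volume (closedBall (0 : Vec d) (3 * δ)))⁻¹ * ∫⁻ w in closedBall (0 : Vec d) (3 * δ), F (b v + t • v + w, t)) := by
          calc _ = (volume (closedBall (0 : Vec d) (2 * δ)))⁻¹ * (volume (closedBall (0 : Vec d) (3 * δ)) *
                (volume (closedBall (0 : Vec d) (3 * δ)))⁻¹) *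
                ∫⁻ w in closedBall (0 : Vec d) (3 * δ), F (b v + t • v + w, t) := by
                rw [ENNReal.mul_inv_cancel hV3 hV3t, mul_one]
            _ = _ := by ring
      _ ≤ ((volume (closedBall (0 : Vec d) (2 * δ)))⁻¹ * (2 ^ d * volume (closedBall (0 : Vec d) (2 * δ)))) *
          ((volume (closedBall (0 : Vec d) (3 * δ)))⁻¹ * ∫⁻ w in closedBall (0 : Vec d) (3 * δ), F (b v + t • v + w, t)) := by
          gcongr
      _ = _ := by
          congr 1
          calc _ = 2 ^ d * ((volume (closedBall (0 : Vec d) (2 * δ)))⁻¹ * volume (closedBall (0 : Vec d) (2 * δ))) := by ring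
            _ = _ := by rw [ENNReal.inv_mul_cancel hV2 hV2t, mul_one]
  have hzero : ∀ t, t ∉ T → moll (3 * δ) F (b v + t • v, t) = 0 := by
    intro t ht
    unfold moll
    have : ∀ w : Vec d, F ((b v + t • v, t).1 + w, (b v + t • v, t).2) = 0 := by
      intro w
      simp only [hF]
      rw [hfT _ t ht]
      simp
    simp only [this]
    simp
  refine h1.trans ?_
  calc (4 * 8 ^ d) * ⨆ h : ℝ, ∫⁻ t in Icc h (h + 3),
        moll (2*δ) (fun p : (Vec d) × ℝ => ‖f (WithLp.toLp 2 p)‖ₑ) (b' v + t • v, t)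
      ≤ (4 * 8 ^ d) * (2 ^ d * (13 * ⨆ k : ℤ, W (3 * δ) (win T k) (lin b) F v)) := by
        gcongr
        apply iSup_le
        intro h
        calc ∫⁻ t in Icc h (h + 3), moll (2*δ) F (b' v + t • v, t)
            ≤ ∫⁻ t in Icc h (h + 3), 2 ^ d * moll (3 * δ) F (b v + t • v, t) :=
              lintegral_mono fun t => hG t
          _ = 2 ^ d * ∫⁻ t in Icc h (h + 3), moll (3 * δ) F (b v + t • v, t) :=
              lintegral_const_mul' _ _ (ENNReal.pow_ne_top (by simp))
          _ ≤ 2 ^ d * (13 * ⨆ k : ℤ, ∫⁻ t in win T k, moll (3 * δ) F (b v + t • v, t)) := by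
              gcongr
              exact long_le hT _ hzero h
          _ = _ := by simp only [W_moll]
    _ = cb d * ⨆ k : ℤ, W (3 * δ) (win T k) (lin b) F v := by
        unfold cb
        have : (16 : ℝ≥0∞) ^ d = 8 ^ d * 2 ^ d := by
          rw [← mul_pow]; norm_num
        rw [this]
        ring

/-- From the windows to the maximal function. -/
theorem LMb_of_Wb {δ : ℝ} (hδ : 0 < δ) (hδ1 : δ < 1) {T : Set ℝ} (hT : MeasurableSet T) {l p : ℝ}
    (hl : 1 ≤ l) (hp : 0 < p) {C : ℝ≥0∞} {B : Set (Vec d)} (hB : MeasurableSet B)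
    (hB1 : B ⊆ closedBall 0 1) {b b' : Vec d → Vec d} (hb : Measurable b)
    (hbb : ∀ v ∈ B, ‖b' v - b v‖ ≤ δ) (h : ∀ k : ℤ, Wb (3 * δ) (win T k) l p C B b) :
    LMb δ T l p (cb d ^ (l * p) * C) B b' := by
  have hmp := WithLp.volume_preserving_toLp (Vec d) ℝ
  have hl0 : 0 < l := by linarith
  have hlp : 0 < l * p := mul_pos hl0 hp
  intro f hf hfT
  set F : Vec d × ℝ → ℝ≥0∞ := fun p => ‖f (WithLp.toLp 2 p)‖ₑ with hF
  have hFm : Measurable F := (hf.comp hmp.measurable).enorm
  have hWm : ∀ k, Measurable (W (3 * δ) (win T k) (lin b) F) := fun k =>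
    measurable_W1 _ _ (measurable_lin hb) hFm
  have hint : ∫⁻ t in T, ∫⁻ x, F (x, t) ^ p ≤ ∫⁻ y, ‖f y‖ₑ ^ p := by
    have e1 : ∫⁻ y, ‖f y‖ₑ ^ p = ∫⁻ z : Vec d × ℝ, F z ^ p :=
      (hmp.lintegral_comp (f := fun y : Space d => ‖f y‖ₑ ^ p) (hf.enorm.pow_const _)).symm
    rw [e1, Measure.volume_eq_prod, lintegral_prod_symm _ (hFm.pow_const _).aemeasurable]
    exact setLIntegral_le_lintegral _ _
  calc ∫⁻ v in B, lineMax δ b' f v ^ (l * p)
      ≤ ∫⁻ v in B, cb d ^ (l * p) * ∑' k : ℤ, W (3 * δ) (win T k) (lin b) F v ^ (l * p) := by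
        apply setLIntegral_mono' hB
        intro v hv
        have h1 := lineMax_le_win hδ hδ1 hT (by simpa using hB1 hv) (hbb v hv) hf hfT
        calc lineMax δ b' f v ^ (l * p)
            ≤ (cb d * ⨆ k : ℤ, W (3 * δ) (win T k) (lin b) F v) ^ (l * p) :=
              ENNReal.rpow_le_rpow h1 hlp.le
          _ = cb d ^ (l * p) * ⨆ k : ℤ, W (3 * δ) (win T k) (lin b) F v ^ (l * p) := by
              rw [ENNReal.mul_rpow_of_nonneg _ _ hlp.le]
              congr 1
              exact (ENNReal.orderIsoRpow (l * p) hlp).map_iSup _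
          _ ≤ _ := by
              gcongr
              exact iSup_le fun k => ENNReal.le_tsum (f := fun k : ℤ =>
                W (3 * δ) (win T k) (lin b) F v ^ (l * p)) k
    _ = cb d ^ (l * p) * ∑' k : ℤ, ∫⁻ v in B, W (3 * δ) (win T k) (lin b) F v ^ (l * p) := by
        rw [lintegral_const_mul' _ _ (ENNReal.rpow_ne_top_of_nonneg hlp.le (cb_ne_top d)),
          lintegral_tsum fun k => ((hWm k).pow_const _).aemeasurable]
    _ ≤ cb d ^ (l * p) * ∑' k : ℤ, C * (∫⁻ t in win T k, ∫⁻ x, F (x, t) ^ p) ^ l := by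
        gcongr with k
        exact h k F hFm
    _ ≤ cb d ^ (l * p) * (C * (∫⁻ y, ‖f y‖ₑ ^ p) ^ l) := by
        rw [ENNReal.tsum_mul_left]
        gcongr
        refine (tsum_rpow_le hl _).trans ?_
        rw [tsum_win hT]
        gcongr
    _ = _ := by ring

end Pool.Agent.TH426.Kt
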