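import Pool.Agent.TH426.Kt.Comp

set_option autoImplicit false

/-!
Change of radius, products of balls.
-/

open MeasureTheory Set ENNReal Metric

namespace Pool.Agent.TH426.Kt

open Pool.Agent.H803R2.Kak Pool.Agent.H803R2.KakFTO

theorem lintegral_nb {d : ℕ} (r : ℝ) (F : Vec d → ℝ≥0∞) :
    ∫⁻ w, F w ∂(nb d r) = (volume (closedBall (0 : Vec d) r))⁻¹ *
      ∫⁻ w in closedBall (0 : Vec d) r, F w := by
  unfold nb
  rw [lintegral_smul_measure, smul_eq_mul]

theorem nb_univ_eq (d : ℕ) {r : ℝ} (hr : 0 < r) : nb d r univ = 1 := by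
  unfold nb
  rw [Measure.smul_apply, Measure.restrict_apply_univ, smul_eq_mul]
  exact ENNReal.inv_mul_cancel (vol_pos (d := d) hr).ne' (vol_lt_top (d := d)).ne

/-- A large ball is dominated by an average of small balls. -/
theorem nb_scale {d : ℕ} {r R : ℝ} (hr : 0 < r) (hrR : r ≤ R) {F : Vec d → ℝ≥0∞}
    (hF : Measurable F) :
    ∫⁻ w, F w ∂(nb d R) ≤ 2 ^ d * ∫⁻ u, ∫⁻ w, F (u + w) ∂(nb d r) ∂(nb d R) := by
  have hR : 0 < R := by linarith
  set BR := closedBall (0 : Vec d) R with hBR
  set Br := closedBall (0 : Vec d) r with hBr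
  have hR0 : volume BR ≠ 0 := (vol_pos (d := d) hR).ne'
  have hRt : volume BR ≠ ∞ := (vol_lt_top (d := d)).ne
  have hr0 : volume Br ≠ 0 := (vol_pos (d := d) hr).ne'
  have hrt : volume Br ≠ ∞ := (vol_lt_top (d := d)).ne
  have hin : ∀ u : Vec d, ∫⁻ w, F (u + w) ∂(nb d r) =
      (volume Br)⁻¹ * ∫⁻ z, F z * Br.indicator 1 (z - u) := by
    intro u
    rw [lintegral_nb, ← lintegral_indicator measurableSet_closedBall]
    congr 1
    rw [← lintegral_add_left_eq_self (fun z => F z * Br.indicator 1 (z - u)) u]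
    apply lintegral_congr
    intro w
    by_cases hw : w ∈ Br
    · rw [indicator_of_mem hw]; simp [hw]
    · rw [indicator_of_notMem hw]; simp [hw]
  have hm : Measurable (fun q : Vec d × Vec d => F q.2 * Br.indicator (1 : Vec d → ℝ≥0∞) (q.2 - q.1)) := by
    apply (hF.comp measurable_snd).mul
    exact (measurable_one.indicator measurableSet_closedBall).comp (measurable_snd.sub measurable_fst)
  have hball : ∀ z ∈ BR, volume Br ≤ 2 ^ d * ∫⁻ u in BR, Br.indicator (1 : Vec d → ℝ≥0∞) (z - u) := by
    intro z hz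
    have hz' : ‖z‖ ≤ R := by simpa [hBR] using hz
    set z' : Vec d := (1 - r / (2 * R)) • z with hz'd
    have h1 : closedBall z' (r / 2) ⊆ BR ∩ {u | z - u ∈ Br} := by
      intro u hu
      rw [mem_closedBall, dist_eq_norm] at hu
      have hc0 : 0 ≤ 1 - r / (2 * R) := by
        rw [sub_nonneg, div_le_one (by positivity)]; linarith
      have hc1 : 0 ≤ r / (2 * R) := by positivity
      have h2 : ‖z'‖ ≤ (1 - r / (2 * R)) * R := by
        rw [hz'd, norm_smul, Real.norm_eq_abs, abs_of_nonneg hc0]
        gcongr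
      have h3 : ‖z - z'‖ ≤ r / (2 * R) * R := by
        have : z - z' = (r / (2 * R)) • z := by
          rw [hz'd, sub_smul, one_smul]; abel
        rw [this, norm_smul, Real.norm_eq_abs, abs_of_nonneg hc1]
        gcongr
      have h4 : r / (2 * R) * R = r / 2 := by field_simp
      refine ⟨?_, ?_⟩
      · rw [hBR, mem_closedBall, dist_zero_right]
        calc ‖u‖ = ‖(u - z') + z'‖ := by congr 1; abel
          _ ≤ ‖u - z'‖ + ‖z'‖ := norm_add_le _ _
          _ ≤ r / 2 + (1 - r / (2 * R)) * R := add_le_add hu h2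
          _ = R := by rw [sub_mul, h4]; ring
      · rw [Set.mem_ofPred_eq, hBr, mem_closedBall, dist_zero_right]
        calc ‖z - u‖ = ‖(z - z') + (z' - u)‖ := by congr 1; abel
          _ ≤ ‖z - z'‖ + ‖z' - u‖ := norm_add_le _ _
          _ ≤ r / 2 + r / 2 := by
              rw [norm_sub_rev z' u]
              rw [h4] at h3
              exact add_le_add h3 hu
          _ = r := by ring
    have h5 : ∫⁻ u in BR, Br.indicator (1 : Vec d → ℝ≥0∞) (z - u) = volume (BR ∩ {u | z - u ∈ Br}) := by
      have hms : MeasurableSet {u : Vec d | z - u ∈ Br} :=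
        (measurable_const.sub measurable_id) measurableSet_closedBall
      rw [inter_comm, ← Measure.restrict_apply hms, ← lintegral_indicator_one hms]
      apply lintegral_congr
      intro u
      by_cases hu : z - u ∈ Br
      · rw [indicator_of_mem hu, indicator_of_mem (show u ∈ {u : Vec d | z - u ∈ Br} from hu)]; rfl
      · rw [indicator_of_notMem hu, indicator_of_notMem (show u ∉ {u : Vec d | z - u ∈ Br} from hu)]
    rw [h5]
    calc volume Br = 2 ^ d * volume (closedBall z' (r / 2)) := by
          rw [Measure.addHaar_closedBall_center (volume : Measure (Vec d)) z',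
            vol_ball_scale (d := d) (r := r / 2) (by linarith), hBr, vol_ball_scale (d := d) hr,
            ← mul_assoc, ← mul_pow]
          congr 2
          have : (2 : ℝ≥0∞) = ENNReal.ofReal 2 := by simp
          rw [this, ← ENNReal.ofReal_mul (by norm_num)]
          congr 1
          ring
      _ ≤ _ := by gcongr
  simp only [hin]
  rw [lintegral_nb, lintegral_nb, ← hBR, lintegral_const_mul _ hm.lintegral_prod_right',
    lintegral_lintegral_swap hm.aemeasurable]
  have h6 : ∫⁻ w in BR, F w ≤ 2 ^ d * ((volume Br)⁻¹ *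
      ∫⁻ z, ∫⁻ u in BR, F z * Br.indicator (1 : Vec d → ℝ≥0∞) (z - u)) := by
    calc ∫⁻ w in BR, F w = ∫⁻ w in BR, (volume Br)⁻¹ * (F w * volume Br) := by
          apply lintegral_congr
          intro w
          rw [mul_comm (F w), ← mul_assoc, ENNReal.inv_mul_cancel hr0 hrt, one_mul]
      _ ≤ ∫⁻ w in BR, (volume Br)⁻¹ * (2 ^ d * ∫⁻ u in BR, F w * Br.indicator (1 : Vec d → ℝ≥0∞) (w - u)) := by
          apply setLIntegral_mono' measurableSet_closedBall
          intro z hz
          refine mul_le_mul_right ?_ _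
          have hm2 : Measurable (fun u : Vec d => Br.indicator (1 : Vec d → ℝ≥0∞) (z - u)) :=
            (measurable_one.indicator measurableSet_closedBall).comp (measurable_const.sub measurable_id)
          rw [lintegral_const_mul _ hm2]
          calc F z * volume Br ≤ F z * (2 ^ d * ∫⁻ u in BR, Br.indicator (1 : Vec d → ℝ≥0∞) (z - u)) := by
                gcongr
                exact hball z hz
            _ = _ := by ring
      _ ≤ ∫⁻ w, (volume Br)⁻¹ * (2 ^ d * ∫⁻ u in BR, F w * Br.indicator (1 : Vec d → ℝ≥0∞) (w - u)) :=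
          setLIntegral_le_lintegral _ _
      _ = _ := by
          have hm3 : Measurable (fun w : Vec d => ∫⁻ u in BR, F w * Br.indicator (1 : Vec d → ℝ≥0∞) (w - u)) := by
            have : Measurable (fun q : Vec d × Vec d => F q.1 * Br.indicator (1 : Vec d → ℝ≥0∞) (q.1 - q.2)) :=
              hm.comp measurable_swap
            exact this.lintegral_prod_right'
          rw [lintegral_const_mul _ (hm3.const_mul _), lintegral_const_mul _ hm3]
          ring
  calc (volume BR)⁻¹ * ∫⁻ w in BR, F w
      ≤ (volume BR)⁻¹ * (2 ^ d * ((volume Br)⁻¹ *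
      ∫⁻ z, ∫⁻ u in BR, F z * Br.indicator (1 : Vec d → ℝ≥0∞) (z - u))) := by gcongr
    _ = _ := by ring

/-- Measurability of the operator in all variables. -/
theorem measurable_W {V U : Type*} [MeasurableSpace V] [MeasurableSpace U] {d : ℕ} (r : ℝ)
    (J : Set ℝ) {γ : V → ℝ → Vec d} (hγ : Measurable (Function.uncurry γ))
    {g : U → Vec d × ℝ → ℝ≥0∞} (hg : Measurable (Function.uncurry g)) :
    Measurable (fun q : V × U => W r J γ (g q.2) q.1) := by
  unfold W
  have h1 : Measurable (fun q : ((V × U) × ℝ) × Vec d =>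
      g q.1.1.2 (γ q.1.1.1 q.1.2 + q.2, q.1.2)) := by
    have h2 : Measurable (fun q : ((V × U) × ℝ) × Vec d => γ q.1.1.1 q.1.2) :=
      hγ.comp ((measurable_fst.comp (measurable_fst.comp measurable_fst)).prodMk
        (measurable_snd.comp measurable_fst))
    exact hg.comp ((measurable_snd.comp (measurable_fst.comp measurable_fst)).prodMk
      ((h2.add measurable_snd).prodMk (measurable_snd.comp measurable_fst)))
  have h3 : Measurable (fun q : (V × U) × ℝ => ∫⁻ w, g q.1.2 (γ q.1.1 q.2 + w, q.2) ∂(nb d r)) :=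
    h1.lintegral_prod_right'
  exact h3.lintegral_prod_right'

theorem measurable_W1 {V : Type*} [MeasurableSpace V] {d : ℕ} (r : ℝ)
    (J : Set ℝ) {γ : V → ℝ → Vec d} (hγ : Measurable (Function.uncurry γ))
    {g : Vec d × ℝ → ℝ≥0∞} (hg : Measurable g) : Measurable (W r J γ g) := by
  have h := measurable_W (U := Unit) r J hγ (g := fun _ => g) (hg.comp measurable_snd)
  exact h.comp (measurable_id.prodMk (measurable_const (a := ())))

theorem W_scale {V : Type*} [MeasurableSpace V] {d : ℕ} {r R : ℝ} (hr : 0 < r) (hrR : r ≤ R)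
    (J : Set ℝ) {γ : V → ℝ → Vec d} (hγ : ∀ v, Measurable (γ v))
    {g : Vec d × ℝ → ℝ≥0∞} (hg : Measurable g) (v : V) :
    W R J γ g v ≤ 2 ^ d * ∫⁻ u, W r J γ (fun z => g (z.1 + u, z.2)) v ∂(nb d R) := by
  unfold W
  have h1 : Measurable (fun q : (Vec d × ℝ) × Vec d => g (γ v q.1.2 + q.2 + q.1.1, q.1.2)) := by
    apply hg.comp
    have h2 : Measurable (fun q : (Vec d × ℝ) × Vec d => γ v q.1.2) :=
      (hγ v).comp (measurable_snd.comp measurable_fst)
    exact ((h2.add measurable_snd).add (measurable_fst.comp measurable_fst)).prodMk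
      (measurable_snd.comp measurable_fst)
  have h3 : Measurable (fun q : Vec d × ℝ => ∫⁻ w, g (γ v q.2 + w + q.1, q.2) ∂(nb d r)) :=
    h1.lintegral_prod_right'
  calc ∫⁻ t in J, ∫⁻ w, g (γ v t + w, t) ∂(nb d R)
      ≤ ∫⁻ t in J, 2 ^ d * ∫⁻ u, ∫⁻ w, g (γ v t + w + u, t) ∂(nb d r) ∂(nb d R) := by
        apply lintegral_mono
        intro t
        have h4 : Measurable (fun w : Vec d => g (γ v t + w, t)) := by
          apply hg.comp; fun_prop
        refine (nb_scale hr hrR h4).trans (le_of_eq ?_)
        congr 1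
        apply lintegral_congr; intro u
        apply lintegral_congr; intro w
        congr 2
        abel
    _ = 2 ^ d * ∫⁻ t in J, ∫⁻ u, ∫⁻ w, g (γ v t + w + u, t) ∂(nb d r) ∂(nb d R) := by
        rw [lintegral_const_mul]
        exact h3.lintegral_prod_left'
    _ = 2 ^ d * ∫⁻ u, (∫⁻ t in J, ∫⁻ w, g (γ v t + w + u, t) ∂(nb d r)) ∂(nb d R) := by
        congr 1
        exact lintegral_lintegral_swap (μ := volume.restrict J) (ν := nb d R)
          (f := fun t u => ∫⁻ w, g (γ v t + w + u, t) ∂(nb d r))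
          (h3.comp measurable_swap).aemeasurable

end Pool.Agent.TH426.Kt
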