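import Pool.Agent.TH426.Kt.Back
import Pool.Agent.H742R2.Kk.Planar

set_option autoImplicit false

/-!
The window bound for arbitrary planar families of lines (Córdoba's argument).
-/

open MeasureTheory Set ENNReal Metric Filter

namespace Pool.Agent.TH426.Kt

open Pool.Agent.H803R2.Kak Pool.Agent.H803R2.KakFTO

/-- The isometry of `ℝ^1` and `ℝ`. -/
def toR (x : Vec 1) : ℝ := x 0

theorem mp_toR : MeasurePreserving toR volume volume := by
  have h1 := EuclideanSpace.volume_preserving_symm_measurableEquiv_toLp (Fin 1)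
  have h2 := volume_preserving_funUnique (Fin 1) ℝ
  exact h2.comp h1

theorem norm_toR (x : Vec 1) : |toR x| = ‖x‖ := by
  rw [EuclideanSpace.norm_eq]
  simp [toR, Real.sqrt_sq_eq_abs]

theorem vol_ball_one (r : ℝ) : volume (closedBall (0 : Vec 1) r) = ENNReal.ofReal (2 * r) := by
  have h : closedBall (0 : Vec 1) r = toR ⁻¹' (closedBall (0 : ℝ) r) := by
    ext x
    rw [mem_preimage, mem_closedBall, mem_closedBall, dist_zero_right, dist_zero_right, ← norm_toR,
      Real.norm_eq_abs]
  rw [h, mp_toR.measure_preimage measurableSet_closedBall.nullMeasurableSet, Real.volume_closedBall]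

variable {d : ℕ}

/-- The times at which two lines are close. -/
theorem vol_close (a u : Vec d) (ρ : ℝ) (hu : u ≠ 0) :
    volume {t : ℝ | ‖a + t • u‖ ≤ ρ} ≤ ENNReal.ofReal (2 * ρ / ‖u‖) := by
  have hu0 : 0 < ‖u‖ := norm_pos_iff.2 hu
  set c : ℝ := -(inner ℝ a u) / ‖u‖ ^ 2 with hc
  have hsub : {t : ℝ | ‖a + t • u‖ ≤ ρ} ⊆ closedBall c (ρ / ‖u‖) := by
    intro t ht
    rw [Set.mem_ofPred_eq] at ht
    rw [mem_closedBall, Real.dist_eq, le_div_iff₀ hu0]
    have h1 : |inner ℝ (a + t • u) u| ≤ ρ * ‖u‖ :=
      (abs_real_inner_le_norm _ _).trans (by gcongr)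
    rw [inner_add_left, inner_smul_left, real_inner_self_eq_norm_sq] at h1
    simp only [conj_trivial] at h1
    have h2 : inner ℝ a u + t * ‖u‖ ^ 2 = (t - c) * ‖u‖ ^ 2 := by
      rw [hc]; field_simp; ring
    rw [h2, abs_mul, abs_of_pos (by positivity : 0 < ‖u‖ ^ 2)] at h1
    have h3 : |t - c| * ‖u‖ * ‖u‖ ≤ ρ * ‖u‖ := by nlinarith
    exact le_of_mul_le_mul_right h3 hu0
  refine (measure_mono hsub).trans ?_
  rw [Real.volume_closedBall]
  apply ENNReal.ofReal_le_ofReal
  apply le_of_eq
  ring

/-- The kernel of the operator. -/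
noncomputable def ker (r : ℝ) (J : Set ℝ) (b : Vec d → Vec d) (v : Vec d) (z : Vec d × ℝ) : ℝ≥0∞ :=
  (closedBall (0 : Vec d) 1).indicator 1 v * (J.indicator 1 z.2 *
    ((volume (closedBall (0 : Vec d) r))⁻¹ * (closedBall (0 : Vec d) r).indicator 1 (z.1 - lin b v z.2)))

theorem measurable_ker {r : ℝ} {J : Set ℝ} (hJ : MeasurableSet J) {b : Vec d → Vec d}
    (hb : Measurable b) : Measurable (Function.uncurry (ker r J b)) := by
  unfold Function.uncurry ker
  have h1 : Measurable (fun q : Vec d × (Vec d × ℝ) => (closedBall (0 : Vec d) 1).indicator (1 : Vec d → ℝ≥0∞) q.1) :=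
    (measurable_one.indicator measurableSet_closedBall).comp measurable_fst
  have h2 : Measurable (fun q : Vec d × (Vec d × ℝ) => J.indicator (1 : ℝ → ℝ≥0∞) q.2.2) :=
    (measurable_one.indicator hJ).comp (measurable_snd.comp measurable_snd)
  have h3 : Measurable (fun q : Vec d × (Vec d × ℝ) =>
      (closedBall (0 : Vec d) r).indicator (1 : Vec d → ℝ≥0∞) (q.2.1 - lin b q.1 q.2.2)) := by
    apply (measurable_one.indicator measurableSet_closedBall).comp
    exact (measurable_fst.comp measurable_snd).sub ((measurable_lin hb).comp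
      (measurable_fst.prodMk (measurable_snd.comp measurable_snd)))
  exact h1.mul (h2.mul (h3.const_mul _))

theorem W_ker {r : ℝ} {J : Set ℝ} (hJ : MeasurableSet J) {b : Vec d → Vec d}
    {g : Vec d × ℝ → ℝ≥0∞} (hb : Measurable b) (hg : Measurable g) {v : Vec d}
    (hv : v ∈ closedBall (0 : Vec d) 1) :
    W r J (lin b) g v = ∫⁻ z, ker r J b v z * g z := by
  have hk : Measurable (fun z : Vec d × ℝ => ker r J b v z * g z) :=
    (measurable_ker (r := r) hJ hb).of_uncurry_left.mul hg
  rw [Measure.volume_eq_prod, lintegral_prod_symm _ hk.aemeasurable]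
  unfold W
  rw [← lintegral_indicator hJ]
  apply lintegral_congr
  intro t
  by_cases ht : t ∈ J
  · rw [indicator_of_mem ht, lintegral_nb, ← lintegral_indicator measurableSet_closedBall,
      ← lintegral_add_left_eq_self (fun x => ker r J b v (x, t) * g (x, t)) (lin b v t)]
    have hm : Measurable (fun w => (closedBall (0 : Vec d) r).indicator
        (fun w => g (lin b v t + w, t)) w) := by
      apply Measurable.indicator _ measurableSet_closedBall
      apply hg.comp; fun_prop
    rw [← lintegral_const_mul _ hm]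
    apply lintegral_congr
    intro w
    simp only [ker, indicator_of_mem hv, indicator_of_mem ht, Pi.one_apply, one_mul, add_sub_cancel_left]
    by_cases hw : w ∈ closedBall (0 : Vec d) r
    · simp only [indicator_of_mem hw, Pi.one_apply, mul_one]
    · simp only [indicator_of_notMem hw, mul_zero, zero_mul]
  · rw [indicator_of_notMem ht]
    simp only [ker, indicator_of_notMem ht, zero_mul, mul_zero, lintegral_zero]

/-- The kernel of `K K^*`, at a fixed height. -/
theorem ker_slice {r : ℝ} (hr : 0 < r) {J : Set ℝ} {b : Vec d → Vec d}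
    (v v' : Vec d) (hv : v ∈ closedBall (0 : Vec d) 1) (hv' : v' ∈ closedBall (0 : Vec d) 1) (t : ℝ) :
    ∫⁻ x, ker r J b v (x, t) * ker r J b v' (x, t) ≤ (volume (closedBall (0 : Vec d) r))⁻¹ *
      (J ∩ {t : ℝ | ‖(b v - b v') + t • (v - v')‖ ≤ 2 * r}).indicator 1 t := by
  have hV0 : volume (closedBall (0 : Vec d) r) ≠ 0 := (vol_pos (d := d) hr).ne'
  have hVt : volume (closedBall (0 : Vec d) r) ≠ ∞ := (vol_lt_top (d := d)).ne
  generalize hV : volume (closedBall (0 : Vec d) r) = V at hV0 hVt
  by_cases ht : t ∈ J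
  · have hk : ∀ w ∈ closedBall (0 : Vec d) 1, ∀ x, ker r J b w (x, t) =
        V⁻¹ * (closedBall (0 : Vec d) r).indicator 1 (x - lin b w t) := by
      intro w hw x
      simp only [ker, indicator_of_mem ht, indicator_of_mem hw, Pi.one_apply, one_mul, hV]
    by_cases hcl : ‖(b v - b v') + t • (v - v')‖ ≤ 2 * r
    · have h1 : (J ∩ {t : ℝ | ‖(b v - b v') + t • (v - v')‖ ≤ 2 * r}).indicator
          (1 : ℝ → ℝ≥0∞) t = 1 := indicator_of_mem (show t ∈ J ∩ {t : ℝ | ‖(b v - b v') + t • (v - v')‖ ≤ 2 * r} from ⟨ht, hcl⟩) _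
      rw [h1, mul_one]
      have e1 : ∫⁻ x, (closedBall (0 : Vec d) r).indicator (1 : Vec d → ℝ≥0∞) (x - lin b v t) = V := by
        rw [lintegral_sub_right_eq_self (μ := (volume : Measure (Vec d)))
          (fun x => (closedBall (0 : Vec d) r).indicator (1 : Vec d → ℝ≥0∞) x) (lin b v t),
          lintegral_indicator_one measurableSet_closedBall, hV]
      have e2 : ∀ x, ker r J b v (x, t) * ker r J b v' (x, t) ≤
          (V⁻¹ * V⁻¹) * (closedBall (0 : Vec d) r).indicator (1 : Vec d → ℝ≥0∞) (x - lin b v t) := by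
        intro x
        rw [hk v hv, hk v' hv']
        have h3 : (closedBall (0 : Vec d) r).indicator (1 : Vec d → ℝ≥0∞) (x - lin b v' t) ≤ 1 :=
          indicator_le_self' (fun _ _ => zero_le_one) _
        calc _ = (V⁻¹ * V⁻¹) * (closedBall (0 : Vec d) r).indicator (1 : Vec d → ℝ≥0∞) (x - lin b v t) *
              (closedBall (0 : Vec d) r).indicator (1 : Vec d → ℝ≥0∞) (x - lin b v' t) := by ring
          _ ≤ (V⁻¹ * V⁻¹) * (closedBall (0 : Vec d) r).indicator (1 : Vec d → ℝ≥0∞) (x - lin b v t) * 1 := by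
              gcongr
          _ = _ := mul_one _
      have hVi : V⁻¹ * V⁻¹ ≠ ∞ := ENNReal.mul_ne_top (ENNReal.inv_ne_top.2 hV0) (ENNReal.inv_ne_top.2 hV0)
      calc ∫⁻ x, ker r J b v (x, t) * ker r J b v' (x, t)
          ≤ ∫⁻ x, (V⁻¹ * V⁻¹) * (closedBall (0 : Vec d) r).indicator (1 : Vec d → ℝ≥0∞) (x - lin b v t) :=
            lintegral_mono e2
        _ = (V⁻¹ * V⁻¹) * V := by rw [lintegral_const_mul' _ _ hVi, e1]
        _ = V⁻¹ * (V⁻¹ * V) := by ring
        _ = V⁻¹ := by rw [ENNReal.inv_mul_cancel hV0 hVt, mul_one]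
    · have h0 : ∀ x, ker r J b v (x, t) * ker r J b v' (x, t) = 0 := by
        intro x
        rw [hk v hv, hk v' hv']
        by_cases h1 : x - lin b v t ∈ closedBall (0 : Vec d) r
        · have h2 : x - lin b v' t ∉ closedBall (0 : Vec d) r := by
            intro h2
            apply hcl
            rw [mem_closedBall, dist_zero_right] at h1 h2
            calc ‖(b v - b v') + t • (v - v')‖ = ‖(x - lin b v' t) - (x - lin b v t)‖ := by
                  congr 1
                  unfold lin
                  rw [smul_sub]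
                  abel
              _ ≤ ‖x - lin b v' t‖ + ‖x - lin b v t‖ := norm_sub_le _ _
              _ ≤ r + r := add_le_add h2 h1
              _ = 2 * r := by ring
          rw [indicator_of_notMem h2]; simp
        · rw [indicator_of_notMem h1]; simp
      rw [lintegral_congr h0, lintegral_zero]
      exact zero_le
  · have h0 : ∀ x, ker r J b v (x, t) * ker r J b v' (x, t) = 0 := by
      intro x
      simp only [ker, indicator_of_notMem ht, zero_mul, mul_zero]
    rw [lintegral_congr h0, lintegral_zero]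
    exact zero_le

/-- The kernel of `K K^*`. -/
theorem ker_ker {r : ℝ} (hr : 0 < r) {J : Set ℝ} (hJ : MeasurableSet J) {b : Vec d → Vec d}
    (hb : Measurable b) (v v' : Vec d) (hv : v ∈ closedBall (0 : Vec d) 1)
    (hv' : v' ∈ closedBall (0 : Vec d) 1) :
    ∫⁻ z, ker r J b v z * ker r J b v' z ≤ (volume (closedBall (0 : Vec d) r))⁻¹ *
      volume (J ∩ {t : ℝ | ‖(b v - b v') + t • (v - v')‖ ≤ 2 * r}) := by
  have hk1 : Measurable (ker r J b v) := (measurable_ker (r := r) hJ hb).of_uncurry_left
  have hk2 : Measurable (ker r J b v') := (measurable_ker (r := r) hJ hb).of_uncurry_left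
  have hm : Measurable (fun z : Vec d × ℝ => ker r J b v z * ker r J b v' z) := hk1.mul hk2
  have hms : MeasurableSet (J ∩ {t : ℝ | ‖(b v - b v') + t • (v - v')‖ ≤ 2 * r}) := by
    apply hJ.inter
    apply measurableSet_le _ measurable_const
    fun_prop
  have e1 : ∫⁻ z, ker r J b v z * ker r J b v' z =
      ∫⁻ t, ∫⁻ x, ker r J b v (x, t) * ker r J b v' (x, t) := by
    rw [Measure.volume_eq_prod]
    exact lintegral_prod_symm _ hm.aemeasurable
  rw [e1]
  have e2 : ∀ t : ℝ, ∫⁻ x, ker r J b v (x, t) * ker r J b v' (x, t) ≤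
      (volume (closedBall (0 : Vec d) r))⁻¹ *
      (J ∩ {t : ℝ | ‖(b v - b v') + t • (v - v')‖ ≤ 2 * r}).indicator 1 t :=
    fun t => ker_slice (J := J) hr v v' hv hv' t
  refine (lintegral_mono e2).trans (le_of_eq ?_)
  rw [lintegral_const_mul _ (measurable_one.indicator hms), lintegral_indicator_one hms]

theorem ker_out {r : ℝ} {J : Set ℝ} {b : Vec d → Vec d} {v : Vec d}
    (hv : v ∉ closedBall (0 : Vec d) 1) (z : Vec d × ℝ) : ker r J b v z = 0 := by
  simp only [ker, indicator_of_notMem hv, zero_mul]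

/-- The planar estimate, for an arbitrary measurable family of lines. -/
theorem planar {J : Set ℝ} (hJ : MeasurableSet J) (hJv : volume J ≤ 1) {b : Vec 1 → Vec 1}
    (hb : Measurable b) {B : Set (Vec 1)} (hB : MeasurableSet B) (hB1 : B ⊆ closedBall 0 1)
    {r : ℝ} (hr : 0 < r) :
    Wb r J 1 2 (ENNReal.ofReal (8 * Real.log ((r + 2) / r))) B b := by
  intro g hg
  set A := ENNReal.ofReal (8 * Real.log ((r + 2) / r)) with hA
  have hV := vol_ball_one r
  have h2r : ENNReal.ofReal (2 * r) ≠ 0 := by simpa using hr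
  have h2rt : ENNReal.ofReal (2 * r) ≠ ∞ := ENNReal.ofReal_ne_top
  have hkk : ∀ v v' : Vec 1, ∫⁻ z, ker r J b v z * ker r J b v' z ≤
      (Icc (-2 : ℝ) 2).indicator (fun u => ENNReal.ofReal (4 / (r + |u|))) (toR v' - toR v) := by
    intro v v'
    by_cases h1 : v ∈ closedBall (0 : Vec 1) 1
    · by_cases h2 : v' ∈ closedBall (0 : Vec 1) 1
      · refine (ker_ker hr hJ hb v v' h1 h2).trans ?_
        rw [hV]
        rw [mem_closedBall, dist_zero_right, ← norm_toR] at h1 h2
        have h3 : toR v' - toR v ∈ Icc (-2 : ℝ) 2 := by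
          rw [abs_le] at h1 h2
          constructor <;> linarith
        rw [indicator_of_mem h3]
        set u := toR v' - toR v with hu
        have hun : ‖v - v'‖ = |u| := by
          rw [← norm_toR]
          have : toR (v - v') = -u := by rw [hu]; simp [toR]
          rw [this, abs_neg]
        set S := J ∩ {t : ℝ | ‖(b v - b v') + t • (v - v')‖ ≤ 2 * r} with hS
        have hS1 : volume S ≤ 1 := (measure_mono inter_subset_left).trans hJv
        rw [← ENNReal.ofReal_inv_of_pos (by linarith : (0:ℝ) < 2 * r)]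
        have hu0 : 0 ≤ |u| := abs_nonneg u
        rcases le_or_gt |u| r with h | h
        · calc ENNReal.ofReal (2 * r)⁻¹ * volume S ≤ ENNReal.ofReal (2 * r)⁻¹ * 1 := by gcongr
            _ ≤ _ := by
                rw [mul_one]
                apply ENNReal.ofReal_le_ofReal
                rw [inv_eq_one_div, div_le_div_iff₀ (by linarith) (by linarith)]
                nlinarith
        · have hne : v - v' ≠ 0 := by
            rw [← norm_pos_iff, hun]; linarith
          have hS2 : volume S ≤ ENNReal.ofReal (4 * r / |u|) := by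
            refine (measure_mono inter_subset_right).trans ?_
            refine (vol_close (b v - b v') (v - v') (2 * r) hne).trans ?_
            rw [hun]
            apply ENNReal.ofReal_le_ofReal
            apply le_of_eq
            ring
          calc ENNReal.ofReal (2 * r)⁻¹ * volume S
              ≤ ENNReal.ofReal (2 * r)⁻¹ * ENNReal.ofReal (4 * r / |u|) := by gcongr
            _ ≤ _ := by
                rw [← ENNReal.ofReal_mul (by positivity)]
                apply ENNReal.ofReal_le_ofReal
                have hupos : 0 < |u| := by linarith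
                have : (2 * r)⁻¹ * (4 * r / |u|) = 2 / |u| := by field_simp; ring
                rw [this, div_le_div_iff₀ hupos (by linarith)]
                linarith
      · simp only [ker_out h2, mul_zero, lintegral_zero]
        exact zero_le
    · simp only [ker_out h1, zero_mul, lintegral_zero]
      exact zero_le
  have hsup : ∀ v : Vec 1, ∫⁻ v' in B, ∫⁻ z, ker r J b v z * ker r J b v' z ≤ A := by
    intro v
    have hm1 : Measurable ((Icc (-2 : ℝ) 2).indicator (fun u => ENNReal.ofReal (4 / (r + |u|)))) := by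
      apply Measurable.indicator _ measurableSet_Icc
      fun_prop
    calc ∫⁻ v' in B, ∫⁻ z, ker r J b v z * ker r J b v' z
        ≤ ∫⁻ v' in B, (Icc (-2 : ℝ) 2).indicator (fun u => ENNReal.ofReal (4 / (r + |u|))) (toR v' - toR v) :=
          lintegral_mono fun v' => hkk v v'
      _ ≤ ∫⁻ v', (Icc (-2 : ℝ) 2).indicator (fun u => ENNReal.ofReal (4 / (r + |u|))) (toR v' - toR v) :=
          setLIntegral_le_lintegral _ _
      _ = ∫⁻ x : ℝ, (Icc (-2 : ℝ) 2).indicator (fun u => ENNReal.ofReal (4 / (r + |u|))) (x - toR v) :=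
          mp_toR.lintegral_comp (hm1.comp (measurable_id.sub measurable_const))
      _ = ∫⁻ x : ℝ, (Icc (-2 : ℝ) 2).indicator (fun u => ENNReal.ofReal (4 / (r + |u|))) x :=
          lintegral_sub_right_eq_self (μ := (volume : Measure ℝ))
            (fun x => (Icc (-2 : ℝ) 2).indicator (fun u => ENNReal.ofReal (4 / (r + |u|))) x) (toR v)
      _ = ∫⁻ x in Icc (-2 : ℝ) 2, ENNReal.ofReal (4 / (r + |x|)) := lintegral_indicator measurableSet_Icc _
      _ ≤ A := by
          exact Pool.Agent.H742R2.Kk.PlAux.log_int r 2 hr (by norm_num)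
  have htt := Pool.Agent.H742R2.Kk.tt_star (volume.restrict B) (volume : Measure (Vec 1 × ℝ))
    (ker r J b) (measurable_ker hJ hb) A hsup (fun z => J.indicator 1 z.2 * g z)
    (((measurable_one.indicator hJ).comp measurable_snd).mul hg)
  have hWe : ∀ v ∈ B, W r J (lin b) g v = ∫⁻ z, ker r J b v z * (J.indicator 1 z.2 * g z) := by
    intro v hv
    rw [W_ker hJ hb hg (hB1 hv)]
    apply lintegral_congr
    rintro ⟨x, t⟩
    by_cases ht : t ∈ J
    · simp only [indicator_of_mem ht, Pi.one_apply, one_mul]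
    · simp only [ker, indicator_of_notMem ht, zero_mul, mul_zero]
  have hWle : ∀ v ∈ B, W r J (lin b) g v ^ ((1 : ℝ) * 2) =
      (∫⁻ z, ker r J b v z * (J.indicator 1 z.2 * g z)) ^ 2 := by
    intro v hv
    rw [hWe v hv, one_mul]
    exact_mod_cast ENNReal.rpow_natCast _ 2
  have hR : ∫⁻ z : Vec 1 × ℝ, (J.indicator 1 z.2 * g z) ^ 2 = ∫⁻ t in J, ∫⁻ x, g (x, t) ^ (2 : ℝ) := by
    have hm : Measurable (fun z : Vec 1 × ℝ => (J.indicator 1 z.2 * g z) ^ 2) :=
      (((measurable_one.indicator hJ).comp measurable_snd).mul hg).pow_const _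
    rw [Measure.volume_eq_prod, lintegral_prod_symm _ hm.aemeasurable, ← lintegral_indicator hJ]
    apply lintegral_congr
    intro t
    by_cases ht : t ∈ J
    · simp only [indicator_of_mem ht, Pi.one_apply, one_mul]
      apply lintegral_congr
      intro x
      exact_mod_cast (ENNReal.rpow_natCast (g (x, t)) 2).symm
    · simp only [indicator_of_notMem ht]
      simp
  rw [ENNReal.rpow_one, ← hR]
  refine le_trans (le_of_eq ?_) htt
  exact setLIntegral_congr_fun hB hWle

end Pool.Agent.TH426.Kt
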