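import Pool.Agent.TH426.Kt.Tower
import Pool.Agent.TH426.Kt.Planar
import Pool.Agent.H805R3.Kk.Int
import Pool.Agent.H805R3.Kk.Skew

set_option autoImplicit false

/-!
The basic classes of families of lines.
-/

open MeasureTheory Set ENNReal NNReal Metric Filter

namespace Pool.Agent.TH426.Kt

open Pool.Agent.H803R2.Kak Pool.Agent.H803R2.KakFTO Pool.Agent.H805R3.Kk

/-- From the maximal function at width `δ` to the windows at radius `3 δ`. -/
theorem wb_of_lmb {d : ℕ} {δ : ℝ} (hδ : 0 < δ) (hδ1 : δ < 1) {T : Set ℝ} (hT : MeasurableSet T)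
    {l p : ℝ} (hl : 0 ≤ l) (hp : 0 < p) (hlp : 1 ≤ l * p) {C : ℝ≥0∞} {B : Set (Vec d)}
    (hB : MeasurableSet B) (hB1 : B ⊆ closedBall 0 1) {b : Vec d → Vec d} (hb : Measurable b)
    (h : LMb δ T l p C B b) (k : ℤ) :
    Wb (3 * δ) (win T k) l p ((2 ^ d) ^ (l * p) * ((3 * 8 ^ d) ^ (l * p) * C)) B b := by
  have h1 := Wb_of_LMb hδ hδ1 hl hp hB hB1 hb h (measurableSet_win hT k) (win_subset T k)
    (fun t ht => ht.2)
  exact h1.radius (by linarith) (by linarith) hlp hb

/-- The rough basic classes: arbitrary planar families, families of overlap at most `M` given by a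
map that is Lipschitz on countably many pieces, section-monotone families; `T` is the set of
heights that matter. -/
inductive Rough (T : Set ℝ) : (d : ℕ) → ℝ → ℝ≥0 → Set (Vec d) → (Vec d → Vec d) → Prop
  | planar {B : Set (Vec 1)} {b : Vec 1 → Vec 1} (hB : MeasurableSet B)
      (hB1 : B ⊆ closedBall 0 1) (hb : Measurable b) : Rough T 1 ((1 : ℕ) + 1) 1 B b
  | overlap {d M : ℕ} {B : Set (Vec d)} {b : Vec d → Vec d} (hd : 1 ≤ d) (hM : 1 ≤ M)
      (hB : MeasurableSet B) (hB1 : B ⊆ closedBall 0 1) (hb : Measurable b)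
      (hL : LipPieces B b) (hO : OverlapLE M T B b) : Rough T d (d + 1) M B b
  | monotone {d : ℕ} {B : Set (Vec d)} {b : Vec d → Vec d} (hd : 1 ≤ d)
      (hB : MeasurableSet B) (hB1 : B ⊆ closedBall 0 1) (hb : Measurable b)
      (hS : SectionMonotone T B b) : Rough T d (d + 1) 1 B b

theorem rough_reg (T : Set ℝ) : RegBase (Rough T) := by
  constructor
  · intro d p N B b h
    cases h with
    | planar hB hB1 hb => exact ⟨hB, hB1, hb⟩
    | overlap hd hM hB hB1 hb hL hO => exact ⟨hB, hB1, hb⟩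
    | monotone hd hB hB1 hb hS => exact ⟨hB, hB1, hb⟩
  · intro d p N B b h
    cases h with
    | planar hB hB1 hb => norm_num
    | overlap hd hM hB hB1 hb hL hO =>
      have : (0 : ℝ) ≤ d := Nat.cast_nonneg d
      constructor <;> linarith
    | monotone hd hB hB1 hb hS =>
      have : (0 : ℝ) ≤ d := Nat.cast_nonneg d
      constructor <;> linarith

/-- The constants of the rough classes. -/
noncomputable def c0 (d : ℕ) : ℝ≥0∞ :=
  (2 ^ d) ^ ((1 : ℝ) * (d + 1)) * ((3 * 8 ^ d) ^ ((1 : ℝ) * (d + 1)) * ENNReal.ofReal (cst d)) + 8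

theorem c0_ne_top (d : ℕ) : c0 d ≠ ∞ := by
  unfold c0
  apply ENNReal.add_ne_top.2
  refine ⟨?_, by simp⟩
  have h0 : (0 : ℝ) ≤ 1 * ((d : ℝ) + 1) := by positivity
  apply ENNReal.mul_ne_top
  · exact ENNReal.rpow_ne_top_of_nonneg h0 (ENNReal.pow_ne_top (by simp))
  · apply ENNReal.mul_ne_top _ ENNReal.ofReal_ne_top
    exact ENNReal.rpow_ne_top_of_nonneg h0 (ENNReal.mul_ne_top (by simp) (ENNReal.pow_ne_top (by simp)))

/-- The loss `1 + log (1/δ)`. -/
noncomputable def Lg (δ : ℝ) : ℝ≥0∞ := ENNReal.ofReal (1 + Real.log (1 / δ))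

theorem one_le_Lg {δ : ℝ} (hδ : 0 < δ) (hδ1 : δ < 1) : 1 ≤ Lg δ := by
  unfold Lg
  rw [ENNReal.one_le_ofReal]
  have : 0 ≤ Real.log (1 / δ) := Real.log_nonneg (by rw [le_div_iff₀ hδ]; linarith)
  linarith

theorem Lg_ne_top (δ : ℝ) : Lg δ ≠ ∞ := ENNReal.ofReal_ne_top

/-- A bound with natural exponents gives `LMb`. -/
theorem lmb_of_nat {d : ℕ} {δ : ℝ} {T : Set ℝ} {C : ℝ≥0∞} {B : Set (Vec d)} {b : Vec d → Vec d}
    (h : ∀ f : Space d → ℝ, Measurable f → VanOff T f →
      ∫⁻ v in B, lineMax δ b f v ^ (d + 1) ≤ C * ∫⁻ y, ‖f y‖ₑ ^ (d + 1)) :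
    LMb δ T 1 (d + 1) C B b := by
  intro f hf hfT
  have h1 := h f hf hfT
  have e : ∀ x : ℝ≥0∞, x ^ ((1 : ℝ) * ((d : ℝ) + 1)) = x ^ (d + 1) := by
    intro x
    rw [one_mul]
    exact_mod_cast ENNReal.rpow_natCast x (d + 1)
  have e2 : ∀ x : ℝ≥0∞, x ^ ((d : ℝ) + 1) = x ^ (d + 1) := by
    intro x
    exact_mod_cast ENNReal.rpow_natCast x (d + 1)
  rw [ENNReal.rpow_one]
  simp only [e, e2]
  exact h1

theorem rough_lmb {T : Set ℝ} (hT : MeasurableSet T) {δ : ℝ} (hδ : 0 < δ) (hδ1 : δ < 1) {d : ℕ}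
    {M : ℕ} (hd : 1 ≤ d) (hM : 1 ≤ M) {B : Set (Vec d)} {b : Vec d → Vec d}
    (h : ∀ f : Space d → ℝ, AEMeasurable f volume → VanOff T f →
      ∫⁻ v in B, lineMax δ b f v ^ (d + 1)
        ≤ ENNReal.ofReal (cst d * M * (1 + Real.log (1 / δ)) ^ d) * ∫⁻ y, ‖f y‖ₑ ^ (d + 1)) :
    LMb δ T 1 (d + 1) (ENNReal.ofReal (cst d) * M * Lg δ ^ d) B b := by
  apply lmb_of_nat
  intro f hf hfT
  refine (h f hf.aemeasurable hfT).trans (le_of_eq ?_)
  congr 1
  have h0 := cst_pos hd
  have h1 : 0 ≤ 1 + Real.log (1 / δ) := by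
    have : 0 ≤ Real.log (1 / δ) := Real.log_nonneg (by rw [le_div_iff₀ hδ]; linarith)
    linarith
  unfold Lg
  rw [ENNReal.ofReal_mul (by positivity), ENNReal.ofReal_mul h0.le, ENNReal.ofReal_natCast,
    ENNReal.ofReal_pow h1]

theorem rough_bd {T : Set ℝ} (hT : MeasurableSet T) {δ : ℝ} (hδ : 0 < δ) (hδ1 : δ < 1) (k : ℤ) :
    BaseBd (Rough T) (3 * δ) (win T k) 1 c0 (Lg δ) 1 := by
  intro d p N B b h
  rw [ENNReal.one_rpow, mul_one]
  have hgen : ∀ {d M : ℕ} {B : Set (Vec d)} {b : Vec d → Vec d}, MeasurableSet B →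
      B ⊆ closedBall 0 1 → Measurable b →
      LMb δ T 1 (d + 1) (ENNReal.ofReal (cst d) * M * Lg δ ^ d) B b →
      Wb (3 * δ) (win T k) 1 (d + 1) (c0 d * M * Lg δ ^ d) B b := by
    intro d M B b hB hB1 hb h
    have h0 : (0 : ℝ) ≤ d := Nat.cast_nonneg d
    refine (wb_of_lmb hδ hδ1 hT zero_le_one (by linarith) (by linarith) hB hB1 hb h k).mono ?_
      subset_rfl
    calc (2 ^ d) ^ ((1 : ℝ) * (d + 1)) * ((3 * 8 ^ d) ^ ((1 : ℝ) * (d + 1)) *
          (ENNReal.ofReal (cst d) * M * Lg δ ^ d))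
        = ((2 ^ d) ^ ((1 : ℝ) * (d + 1)) * ((3 * 8 ^ d) ^ ((1 : ℝ) * (d + 1)) *
          ENNReal.ofReal (cst d))) * M * Lg δ ^ d := by ring
      _ ≤ c0 d * M * Lg δ ^ d := by
          gcongr
          exact le_self_add
  cases h with
  | planar hB hB1 hb =>
    have hv : volume (win T k) ≤ 1 := by
      calc volume (win T k) ≤ volume (Ico ((k : ℝ) / 4) (((k : ℝ) + 1) / 4)) :=
            measure_mono inter_subset_left
        _ = ENNReal.ofReal (1 / 4) := by
            rw [Real.volume_Ico]; congr 1; ring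
        _ ≤ 1 := by
            rw [ENNReal.ofReal_le_one]; norm_num
    have hp := planar (measurableSet_win hT k) hv hb hB hB1 (r := 3 * δ) (by linarith)
    have e2 : (((1 : ℕ) : ℝ) + 1) = 2 := by norm_num
    rw [e2]
    refine hp.mono ?_ subset_rfl
    calc ENNReal.ofReal (8 * Real.log ((3 * δ + 2) / (3 * δ)))
        ≤ ENNReal.ofReal (8 * (1 + Real.log (1 / δ))) := by
          apply ENNReal.ofReal_le_ofReal
          have h1 : (3 * δ + 2) / (3 * δ) ≤ 2 * (1 / δ) := by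
            rw [div_le_iff₀ (by linarith)]
            have : 2 * (1 / δ) * (3 * δ) = 6 := by field_simp; ring
            rw [this]; linarith
          have h2 : Real.log ((3 * δ + 2) / (3 * δ)) ≤ Real.log (2 * (1 / δ)) :=
            Real.log_le_log (by positivity) h1
          have h3 : Real.log (2 * (1 / δ)) = Real.log 2 + Real.log (1 / δ) :=
            Real.log_mul (by norm_num) (by positivity)
          have h4 := Real.log_two_lt_d9
          nlinarith
      _ = 8 * Lg δ := by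
          unfold Lg
          rw [ENNReal.ofReal_mul (by norm_num)]
          simp
      _ ≤ _ := by
          have : (8 : ℝ≥0∞) ≤ c0 1 := by unfold c0; exact le_add_self
          simp only [ENNReal.coe_one, mul_one, pow_one]
          gcongr
  | @overlap _ M _ _ hd hM hB hB1 hb hL hO =>
    have := hgen (M := M) hB hB1 hb (rough_lmb hT hδ hδ1 hd hM fun f hf hfT =>
      overlap hd hM hT hB hB1 hL hO (b := b) (fun v _ => by simpa using hδ.le) hδ hδ1 hf hfT)
    exact_mod_cast this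
  | monotone hd hB hB1 hb hS =>
    have := hgen (M := 1) hB hB1 hb (rough_lmb hT hδ hδ1 hd le_rfl fun f hf hfT => by
      have h5 := pieces (N := 1) hd hT (B := fun _ => B) (g := fun _ => b) (b := b)
        (fun _ => ⟨hB, hB1⟩) (fun _ => hS) (fun _ v _ => by simpa using hδ.le) hδ hδ1 hf hfT
      rw [iUnion_const] at h5
      exact h5)
    exact_mod_cast this

end Pool.Agent.TH426.Kt
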