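import Pool.Agent.TH426.Kt.Core
import Pool.Agent.H803R2.KakFTO

set_option autoImplicit false

/-!
The composition theorem, for averages over neighbourhoods of arbitrary curves.
-/

open MeasureTheory Set ENNReal Metric

namespace Pool.Agent.TH426.Kt

open Pool.Agent.H803R2.Kak Pool.Agent.H803R2.KakFTO

/-- Normalised Lebesgue measure on the ball of radius `r`. -/
noncomputable def nb (d : ℕ) (r : ℝ) : Measure (Vec d) :=
  (volume (closedBall (0 : Vec d) r))⁻¹ • volume.restrict (closedBall (0 : Vec d) r)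

theorem nb_univ (d : ℕ) (r : ℝ) : nb d r univ ≤ 1 := by
  unfold nb
  rw [Measure.smul_apply, Measure.restrict_apply_univ, smul_eq_mul]
  exact ENNReal.inv_mul_le_one _

instance (d : ℕ) (r : ℝ) : IsFiniteMeasure (nb d r) := ⟨(nb_univ d r).trans_lt one_lt_top⟩

theorem moll_eq {d : ℕ} (r : ℝ) (f : Vec d × ℝ → ℝ≥0∞) (p : Vec d × ℝ) :
    moll r f p = ∫⁻ w, f (p.1 + w, p.2) ∂(nb d r) := by
  unfold moll nb
  rw [lintegral_smul_measure, smul_eq_mul]

theorem nb_ac (d : ℕ) (r : ℝ) : nb d r ≪ volume := by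
  unfold nb
  exact (Measure.smul_absolutelyContinuous).trans Measure.absolutelyContinuous_restrict

/-- Integral over `t ∈ J` of the averages of `g` over the balls of radius `r` around the points of
the curve `γ v`. -/
noncomputable def W {V : Type*} {d : ℕ} (r : ℝ) (J : Set ℝ) (γ : V → ℝ → Vec d)
    (g : Vec d × ℝ → ℝ≥0∞) (v : V) : ℝ≥0∞ :=
  ∫⁻ t in J, ∫⁻ w, g (γ v t + w, t) ∂(nb d r)

section fibre

variable {V : Type*} [MeasurableSpace V] {d : ℕ} {r : ℝ}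

theorem measurable_avg {c : ℝ → Vec d} (hc : Measurable c) {g : Vec d × ℝ → ℝ≥0∞}
    (hg : Measurable g) : Measurable (fun t => ∫⁻ w, g (c t + w, t) ∂(nb d r)) := by
  have h : Measurable (fun q : ℝ × Vec d => g (c q.1 + q.2, q.1)) := by
    apply hg.comp
    exact ((hc.comp measurable_fst).add measurable_snd).prodMk measurable_fst
  exact h.lintegral_prod_right'

theorem avg_zero (y : Vec d) (t : ℝ) {g : Vec d × ℝ → ℝ≥0∞} 
    (h : ∀ᵐ x : Vec d, g (x, t) = 0) : ∫⁻ w, g (y + w, t) ∂(nb d r) = 0 := by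
  have h1 : ∀ᵐ w : Vec d, g (y + w, t) = 0 := by
    have := (measurePreserving_add_left (volume : Measure (Vec d)) y).quasiMeasurePreserving.ae h
    exact this
  have h2 : ∀ᵐ w ∂(nb d r), g (y + w, t) = 0 := (nb_ac d r).ae_le h1
  rw [lintegral_congr_ae h2]
  simp

/-- Mixed norm estimate on the fibre. -/
theorem fibre (ν : Measure V) {J : Set ℝ} {γ : V → ℝ → Vec d} (hγ : ∀ v, Measurable (γ v))
    {p1 p2 l : ℝ} (hp1 : 1 ≤ p1) (hp2 : 1 ≤ p2) (hl : 0 < l) {C : ℝ≥0∞} (hC : C ≠ 0)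
    (h : ∀ g : Vec d × ℝ → ℝ≥0∞, Measurable g →
      ∫⁻ v, W r J γ g v ^ (l * p2) ∂ν ≤ C * (∫⁻ t in J, ∫⁻ x, g (x, t) ^ p2) ^ l)
    {g : Vec d × ℝ → ℝ≥0∞} (hg : Measurable g) :
    ∫⁻ v, W r J γ g v ^ (l * (p1 + p2 - 1)) ∂ν ≤
      C * (∫⁻ t in J, (∫⁻ x, g (x, t) ^ (p1 + p2 - 1)) ^ (1 / p1)) ^ (l * p1) := by
  set p := p1 + p2 - 1 with hp
  have hp2p : p2 ≤ p := by linarith
  have hp20 : 0 < p2 := by linarith
  have hp10 : 0 < p1 := by linarith
  have hp0 : 0 < p := by linarith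
  set s := p / p2 with hs
  have hs1 : 1 ≤ s := (one_le_div hp20).2 hp2p
  have hs0 : 0 < s := by linarith
  have hgp : Measurable (fun z : Vec d × ℝ => g z ^ p) := hg.pow_const _
  set m : ℝ → ℝ≥0∞ := fun t => ∫⁻ x, g (x, t) ^ p with hm
  have hmm : Measurable m := hgp.lintegral_prod_left'
  set k : ℝ → ℝ≥0∞ := fun t => m t ^ (1 / p1) with hk
  have hkm : Measurable k := hmm.pow_const _
  have hkp : ∀ t, k t ^ p1 = m t := by
    intro t
    rw [hk]
    simp only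
    rw [← ENNReal.rpow_mul]
    have : 1 / p1 * p1 = 1 := by field_simp
    rw [this, ENNReal.rpow_one]
  set H := ∫⁻ t in J, k t with hH
  by_cases hI : H = ∞
  · rw [hI, ENNReal.top_rpow_of_pos (by positivity), ENNReal.mul_top hC]
    exact le_top
  have hkfin : ∀ᵐ t ∂(volume.restrict J), k t ≠ ∞ := by
    filter_upwards [ae_lt_top hkm hI] with t ht using ht.ne
  have hzero : ∀ t, k t = 0 → ∀ᵐ x : Vec d, g (x, t) = 0 := by
    intro t ht
    have h4 := hkp t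
    rw [ht, ENNReal.zero_rpow_of_pos hp10] at h4
    have h5 := (lintegral_eq_zero_iff (hgp.comp measurable_prodMk_right)).1 h4.symm
    filter_upwards [h5] with y hy
    simp only [Pi.zero_apply, Function.comp_apply] at hy
    exact (ENNReal.rpow_eq_zero_iff_of_pos hp0).1 hy
  set G : Vec d × ℝ → ℝ≥0∞ := fun z => g z ^ s * k z.2 ^ (1 - s) with hG
  have hGm : Measurable G := (hg.pow_const _).mul ((hkm.comp measurable_snd).pow_const _)
  have hpt : ∀ v, W r J γ g v ^ s ≤ H ^ (s - 1) * W r J γ G v := by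
    intro v
    have hA := measurable_avg (r := r) (hγ v) hg
    have h1 := wjensen (volume.restrict J) hs1 hA.aemeasurable hkm.aemeasurable hkfin
      (Filter.Eventually.of_forall fun t ht => avg_zero (r := r) (γ v t) t (hzero t ht))
    refine h1.trans ?_
    refine mul_le_mul_right ?_ _
    apply lintegral_mono
    intro t
    simp only
    have h2 : (∫⁻ w, g (γ v t + w, t) ∂(nb d r)) ^ s ≤ ∫⁻ w, g (γ v t + w, t) ^ s ∂(nb d r) := by
      apply jensen _ (nb_univ d r) hs1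
      apply Measurable.aemeasurable
      apply hg.comp
      fun_prop
    calc (∫⁻ w, g (γ v t + w, t) ∂(nb d r)) ^ s * k t ^ (1 - s)
        ≤ (∫⁻ w, g (γ v t + w, t) ^ s ∂(nb d r)) * k t ^ (1 - s) := by gcongr
      _ = ∫⁻ w, G (γ v t + w, t) ∂(nb d r) := by
          rw [← lintegral_mul_const]
          apply Measurable.pow_const
          apply hg.comp
          fun_prop
  have hpt2 : ∀ v, W r J γ g v ^ (l * p) ≤ H ^ (l * (p1 - 1)) * W r J γ G v ^ (l * p2) := by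
    intro v
    have e1 : l * p = s * (l * p2) := by rw [hs]; field_simp
    have e2 : (s - 1) * (l * p2) = l * (p1 - 1) := by
      rw [hs]; field_simp; rw [hp]; ring
    calc W r J γ g v ^ (l * p) = (W r J γ g v ^ s) ^ (l * p2) := by
          rw [e1, ENNReal.rpow_mul]
      _ ≤ (H ^ (s - 1) * W r J γ G v) ^ (l * p2) := by
          apply ENNReal.rpow_le_rpow (hpt v) (by positivity)
      _ = _ := by
          rw [ENNReal.mul_rpow_of_nonneg _ _ (by positivity), ← ENNReal.rpow_mul, e2]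
  have hGint : ∫⁻ t in J, ∫⁻ x, G (x, t) ^ p2 ≤ H := by
    apply lintegral_mono_ae
    filter_upwards [hkfin] with t ht
    have e1 : ∀ x : Vec d, G (x, t) ^ p2 = g (x, t) ^ p * k t ^ ((1 - s) * p2) := by
      intro x
      rw [hG]
      simp only
      rw [ENNReal.mul_rpow_of_nonneg _ _ hp20.le, ← ENNReal.rpow_mul, ← ENNReal.rpow_mul]
      congr 2
      rw [hs]; field_simp
    simp only [e1]
    have e3 : ∫⁻ x : Vec d, g (x, t) ^ p * k t ^ ((1 - s) * p2) = m t * k t ^ ((1 - s) * p2) :=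
      lintegral_mul_const _ (hgp.comp measurable_prodMk_right)
    rw [e3, ← hkp]
    have e2 : (1 - s) * p2 = 1 - p1 := by
      rw [hs]; field_simp; rw [hp]; ring
    rw [e2]
    by_cases hk0 : k t = 0
    · rw [hk0, ENNReal.zero_rpow_of_pos hp10]; simp
    · rw [← ENNReal.rpow_add _ _ hk0 ht]; simp
  calc ∫⁻ v, W r J γ g v ^ (l * p) ∂ν
      ≤ ∫⁻ v, H ^ (l * (p1 - 1)) * W r J γ G v ^ (l * p2) ∂ν := lintegral_mono hpt2
    _ = H ^ (l * (p1 - 1)) * ∫⁻ v, W r J γ G v ^ (l * p2) ∂ν := by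
        rw [lintegral_const_mul']
        exact ENNReal.rpow_ne_top_of_nonneg (mul_nonneg hl.le (by linarith)) hI
    _ ≤ H ^ (l * (p1 - 1)) * (C * H ^ l) := by
        gcongr
        refine (h G hGm).trans ?_
        gcongr
    _ = C * (H ^ (l * (p1 - 1)) * H ^ l) := by ring
    _ = C * H ^ (l * p1) := by
        rw [← ENNReal.rpow_add_of_nonneg _ _ (mul_nonneg hl.le (by linarith)) hl.le]
        congr 2
        ring

end fibre

section comp

variable {V1 V2 : Type*} [MeasurableSpace V1] [MeasurableSpace V2] {d1 d2 : ℕ} {r : ℝ}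

/-- Averages over the products of balls around the points of the curves `(γ1 v1, γ2 v1 v2)`. -/
noncomputable def WW (r : ℝ) (J : Set ℝ) (γ1 : V1 → ℝ → Vec d1) (γ2 : V1 → V2 → ℝ → Vec d2)
    (f : Vec d1 × (Vec d2 × ℝ) → ℝ≥0∞) (v1 : V1) (v2 : V2) : ℝ≥0∞ :=
  ∫⁻ t in J, ∫⁻ w2, ∫⁻ w1, f (γ1 v1 t + w1, (γ2 v1 v2 t + w2, t)) ∂(nb d1 r) ∂(nb d2 r)

/-- **Composition theorem.** -/
theorem comp (ν1 : Measure V1) (ν2 : V1 → Measure V2) {J : Set ℝ}
    {γ1 : V1 → ℝ → Vec d1} {γ2 : V1 → V2 → ℝ → Vec d2} (hγ1 : ∀ v, Measurable (γ1 v))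
    (hγ2 : ∀ v1 v2, Measurable (γ2 v1 v2))
    {p1 p2 l : ℝ} (hp1 : 1 ≤ p1) (hp2 : 1 ≤ p2) (hl : 0 < l) {C1 C2 : ℝ≥0∞} (hC2 : C2 ≠ 0)
    (hC2' : C2 ≠ ∞)
    (h1 : ∀ g : Vec d1 × ℝ → ℝ≥0∞, Measurable g →
      ∫⁻ v, W r J γ1 g v ^ (l * p1) ∂ν1 ≤ C1 * (∫⁻ t in J, ∫⁻ x, g (x, t) ^ p1) ^ l)
    (h2 : ∀ᵐ v1 ∂ν1, ∀ g : Vec d2 × ℝ → ℝ≥0∞, Measurable g →
      ∫⁻ v, W r J (γ2 v1) g v ^ (l * p2) ∂(ν2 v1) ≤ C2 * (∫⁻ t in J, ∫⁻ x, g (x, t) ^ p2) ^ l)
    {f : Vec d1 × (Vec d2 × ℝ) → ℝ≥0∞} (hf : Measurable f) :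
    ∫⁻ v1, ∫⁻ v2, WW r J γ1 γ2 f v1 v2 ^ (l * (p1 + p2 - 1)) ∂(ν2 v1) ∂ν1 ≤
      C1 * C2 * (∫⁻ t in J, ∫⁻ x1, ∫⁻ x2, f (x1, (x2, t)) ^ (p1 + p2 - 1)) ^ l := by
  set p := p1 + p2 - 1 with hp
  have hp1p : p1 ≤ p := by linarith
  have hp10 : 0 < p1 := by linarith
  -- the function on the base
  set G : Vec d1 × ℝ → ℝ≥0∞ := fun z => (∫⁻ x2, f (z.1, (x2, z.2)) ^ p) ^ (1 / p1) with hG
  have hGm : Measurable G := by
    have h : Measurable (fun q : (Vec d1 × ℝ) × Vec d2 => f (q.1.1, (q.2, q.1.2)) ^ p) := by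
      apply Measurable.pow_const
      apply hf.comp
      fun_prop
    exact h.lintegral_prod_right'.pow_const _
  have hGp : ∀ z, G z ^ p1 = ∫⁻ x2, f (z.1, (x2, z.2)) ^ p := by
    intro z
    rw [hG]
    simp only
    rw [← ENNReal.rpow_mul]
    have : 1 / p1 * p1 = 1 := by field_simp
    rw [this, ENNReal.rpow_one]
  have hmain : ∀ᵐ v1 ∂ν1, ∫⁻ v2, WW r J γ1 γ2 f v1 v2 ^ (l * p) ∂(ν2 v1) ≤
      C2 * W r J γ1 G v1 ^ (l * p1) := by
    filter_upwards [h2] with v1 hv1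
    set g : Vec d2 × ℝ → ℝ≥0∞ := fun z => ∫⁻ w1, f (γ1 v1 z.2 + w1, z) ∂(nb d1 r) with hg
    have hgm : Measurable g := by
      have h : Measurable (fun q : (Vec d2 × ℝ) × Vec d1 => f (γ1 v1 q.1.2 + q.2, q.1)) := by
        apply hf.comp
        exact (((hγ1 v1).comp (measurable_snd.comp measurable_fst)).add measurable_snd).prodMk
          measurable_fst
      exact h.lintegral_prod_right'
    have e1 : ∀ v2, WW r J γ1 γ2 f v1 v2 = W r J (γ2 v1) g v2 := fun v2 => rfl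
    simp only [e1]
    refine (fibre (ν2 v1) (hγ2 v1) hp1 hp2 hl hC2 hv1 hgm).trans ?_
    gcongr
    unfold W
    apply lintegral_mono
    intro t
    simp only
    have hft : Measurable (fun q : Vec d1 × Vec d2 => f (γ1 v1 t + q.1, (q.2, t))) := by
      apply hf.comp
      fun_prop
    exact minkowski (nb d1 r) (nb_univ d1 r) (volume : Measure (Vec d2)) hp1 hp1p hft
  calc ∫⁻ v1, ∫⁻ v2, WW r J γ1 γ2 f v1 v2 ^ (l * p) ∂(ν2 v1) ∂ν1
      ≤ ∫⁻ v1, C2 * W r J γ1 G v1 ^ (l * p1) ∂ν1 := lintegral_mono_ae hmain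
    _ = C2 * ∫⁻ v1, W r J γ1 G v1 ^ (l * p1) ∂ν1 := lintegral_const_mul' _ _ hC2'
    _ ≤ C2 * (C1 * (∫⁻ t in J, ∫⁻ x, G (x, t) ^ p1) ^ l) := by
        gcongr
        exact h1 G hGm
    _ = _ := by
        simp only [hGp]
        ring

end comp

end Pool.Agent.TH426.Kt
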