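import Mathlib

set_option autoImplicit false

/-!
Weighted Jensen inequality and the Minkowski inequality used in the composition theorem.
-/

open MeasureTheory Set ENNReal

namespace Pool.Agent.TH426.Kt

/-- Hölder's inequality in a weighted form. -/
theorem wjensen {α : Type*} [MeasurableSpace α] (μ : Measure α) {s : ℝ} (hs : 1 ≤ s)
    {f h : α → ℝ≥0∞} (hf : AEMeasurable f μ) (hh : AEMeasurable h μ)
    (hfin : ∀ᵐ a ∂μ, h a ≠ ∞) (hpos : ∀ᵐ a ∂μ, h a = 0 → f a = 0) :
    (∫⁻ a, f a ∂μ) ^ s ≤ (∫⁻ a, h a ∂μ) ^ (s - 1) * ∫⁻ a, f a ^ s * h a ^ (1 - s) ∂μ := by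
  rcases eq_or_lt_of_le hs with h1 | h1
  · subst h1
    simp
  have hs0 : 0 < s := by linarith
  have hs1 : 0 < s - 1 := by linarith
  have hconj : s.HolderConjugate (s / (s - 1)) := by
    exact Real.HolderConjugate.conjExponent h1
  have hF : AEMeasurable (fun a => f a * h a ^ (-((s - 1) / s))) μ :=
    hf.mul (hh.pow_const _)
  have hG : AEMeasurable (fun a => h a ^ ((s - 1) / s)) μ := hh.pow_const _
  have hold := ENNReal.lintegral_mul_le_Lp_mul_Lq μ hconj hF hG
  have e1 : ∫⁻ a, f a ∂μ ≤ ∫⁻ a, ((fun a => f a * h a ^ (-((s - 1) / s))) *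
      (fun a => h a ^ ((s - 1) / s))) a ∂μ := by
    apply lintegral_mono_ae
    filter_upwards [hfin, hpos] with a ha1 ha2
    simp only [Pi.mul_apply]
    by_cases ha0 : h a = 0
    · rw [ha2 ha0]; exact zero_le
    · rw [mul_assoc, ← ENNReal.rpow_add _ _ ha0 ha1]
      simp
  have e2 : ∫⁻ a, (f a * h a ^ (-((s - 1) / s))) ^ s ∂μ = ∫⁻ a, f a ^ s * h a ^ (1 - s) ∂μ := by
    apply lintegral_congr
    intro a
    rw [ENNReal.mul_rpow_of_nonneg _ _ hs0.le, ← ENNReal.rpow_mul]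
    congr 2
    field_simp
    ring
  have e3 : ∫⁻ a, (h a ^ ((s - 1) / s)) ^ (s / (s - 1)) ∂μ = ∫⁻ a, h a ∂μ := by
    apply lintegral_congr
    intro a
    rw [← ENNReal.rpow_mul]
    have : (s - 1) / s * (s / (s - 1)) = 1 := by field_simp
    rw [this, ENNReal.rpow_one]
  rw [e2, e3] at hold
  calc (∫⁻ a, f a ∂μ) ^ s
      ≤ ((∫⁻ a, f a ^ s * h a ^ (1 - s) ∂μ) ^ (1 / s) * (∫⁻ a, h a ∂μ) ^ (1 / (s / (s - 1)))) ^ s :=
        ENNReal.rpow_le_rpow (e1.trans hold) hs0.le
    _ = _ := by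
        rw [ENNReal.mul_rpow_of_nonneg _ _ hs0.le, ← ENNReal.rpow_mul, ← ENNReal.rpow_mul]
        have a1 : 1 / s * s = 1 := by field_simp
        have a2 : 1 / (s / (s - 1)) * s = s - 1 := by field_simp
        rw [a1, a2, ENNReal.rpow_one, mul_comm]

/-- Jensen's inequality for a sub-probability measure. -/
theorem jensen {α : Type*} [MeasurableSpace α] (μ : Measure α) (hμ : μ univ ≤ 1) {s : ℝ}
    (hs : 1 ≤ s) {f : α → ℝ≥0∞} (hf : AEMeasurable f μ) :
    (∫⁻ a, f a ∂μ) ^ s ≤ ∫⁻ a, f a ^ s ∂μ := by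
  have h := wjensen μ hs hf (h := fun _ => 1) aemeasurable_const (by simp) (by simp)
  simp only [lintegral_one, ENNReal.one_rpow, mul_one] at h
  refine h.trans ?_
  calc μ univ ^ (s - 1) * ∫⁻ a, f a ^ s ∂μ ≤ 1 ^ (s - 1) * ∫⁻ a, f a ^ s ∂μ := by
        gcongr
    _ = _ := by simp

/-- Minkowski's integral inequality for a sub-probability measure, with the exponents needed
below: `(∫ (∫ f dμ) ^ p dν) ^ (1 / q) ≤ ∫ (∫ f ^ p dν) ^ (1 / q) dμ` for `1 ≤ q ≤ p`. -/
theorem minkowski {α β : Type*} [MeasurableSpace α] [MeasurableSpace β] (μ : Measure α)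
    [SFinite μ] (hμ : μ univ ≤ 1) (ν : Measure β) [SFinite ν] {p q : ℝ} (hq : 1 ≤ q) (hqp : q ≤ p)
    {f : α × β → ℝ≥0∞} (hf : Measurable f) :
    (∫⁻ y, (∫⁻ x, f (x, y) ∂μ) ^ p ∂ν) ^ (1 / q) ≤ ∫⁻ x, (∫⁻ y, f (x, y) ^ p ∂ν) ^ (1 / q) ∂μ := by
  have hp : 1 ≤ p := hq.trans hqp
  have hp0 : 0 < p := by linarith
  have hq0 : 0 < q := by linarith
  set F : α → ℝ≥0∞ := fun x => (∫⁻ y, f (x, y) ^ p ∂ν) ^ (1 / p) with hF
  have hfp : Measurable (fun z : α × β => f z ^ p) := hf.pow_const _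
  have hFm : Measurable F := (hfp.lintegral_prod_right').pow_const _
  have hFp : ∀ x, F x ^ p = ∫⁻ y, f (x, y) ^ p ∂ν := by
    intro x
    rw [hF]
    simp only
    rw [← ENNReal.rpow_mul]
    have : 1 / p * p = 1 := by field_simp
    rw [this, ENNReal.rpow_one]
  have hFq : ∀ x, F x ^ (p / q) = (∫⁻ y, f (x, y) ^ p ∂ν) ^ (1 / q) := by
    intro x
    rw [hF]
    simp only
    rw [← ENNReal.rpow_mul]
    congr 1
    field_simp
  -- main: Minkowski
  have hmain : ∫⁻ y, (∫⁻ x, f (x, y) ∂μ) ^ p ∂ν ≤ (∫⁻ x, F x ∂μ) ^ p := by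
    by_cases hI : ∫⁻ x, F x ∂μ = ∞
    · rw [hI, ENNReal.top_rpow_of_pos hp0]; exact le_top
    have hfin : ∀ᵐ x ∂μ, F x ≠ ∞ := by
      filter_upwards [ae_lt_top hFm hI] with x hx using hx.ne
    have hzero : ∀ᵐ y ∂ν, ∀ᵐ x ∂μ, F x = 0 → f (x, y) = 0 := by
      have hm : MeasurableSet {z : β × α | F z.2 = 0 → f (z.2, z.1) = 0} := by
        have h1 : MeasurableSet {z : β × α | F z.2 = 0} :=
          (hFm.comp measurable_snd) (measurableSet_singleton 0)
        have h2 : MeasurableSet {z : β × α | f (z.2, z.1) = 0} :=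
          (hf.comp measurable_swap) (measurableSet_singleton 0)
        have : {z : β × α | F z.2 = 0 → f (z.2, z.1) = 0} =
            {z : β × α | F z.2 = 0}ᶜ ∪ {z : β × α | f (z.2, z.1) = 0} := by
          ext z
          simp [imp_iff_not_or]
        rw [this]
        exact h1.compl.union h2
      have h3 : ∀ᵐ x ∂μ, ∀ᵐ y ∂ν, F x = 0 → f (x, y) = 0 := by
        apply Filter.Eventually.of_forall
        intro x
        by_cases hx : F x = 0
        · have h4 := hFp x
          rw [hx, ENNReal.zero_rpow_of_pos hp0] at h4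
          have h5 := (lintegral_eq_zero_iff (hfp.comp measurable_prodMk_left)).1 h4.symm
          filter_upwards [h5] with y hy _
          simp only [Pi.zero_apply, Function.comp_apply] at hy
          exact (ENNReal.rpow_eq_zero_iff_of_pos hp0).1 hy
        · filter_upwards with y h using absurd h hx
      have h6 : ∀ᵐ z ∂(μ.prod ν), F z.1 = 0 → f z = 0 := by
        have hm' : MeasurableSet {z : α × β | F z.1 = 0 → f z = 0} := by
          have := hm.preimage (measurable_swap (α := α) (β := β))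
          exact this
        rw [Measure.ae_prod_iff_ae_ae hm']
        exact h3
      have h7 : ∀ᵐ z ∂(ν.prod μ), F z.2 = 0 → f (z.2, z.1) = 0 := by
        have h8 : MeasurePreserving Prod.swap (ν.prod μ) (μ.prod ν) := Measure.measurePreserving_swap
        exact h8.quasiMeasurePreserving.ae h6
      exact (Measure.ae_prod_iff_ae_ae hm).1 h7
    calc ∫⁻ y, (∫⁻ x, f (x, y) ∂μ) ^ p ∂ν
        ≤ ∫⁻ y, (∫⁻ x, F x ∂μ) ^ (p - 1) * ∫⁻ x, f (x, y) ^ p * F x ^ (1 - p) ∂μ ∂ν := by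
          apply lintegral_mono_ae
          filter_upwards [hzero] with y hy
          exact wjensen μ hp (hf.comp measurable_prodMk_right).aemeasurable hFm.aemeasurable hfin hy
      _ = (∫⁻ x, F x ∂μ) ^ (p - 1) * ∫⁻ y, ∫⁻ x, f (x, y) ^ p * F x ^ (1 - p) ∂μ ∂ν := by
          rw [lintegral_const_mul]
          have : Measurable (fun z : β × α => f (z.2, z.1) ^ p * F z.2 ^ (1 - p)) :=
            ((hf.comp measurable_swap).pow_const _).mul ((hFm.comp measurable_snd).pow_const _)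
          exact this.lintegral_prod_right'
      _ = (∫⁻ x, F x ∂μ) ^ (p - 1) * ∫⁻ x, ∫⁻ y, f (x, y) ^ p * F x ^ (1 - p) ∂ν ∂μ := by
          rw [lintegral_lintegral_swap]
          exact (((hf.comp measurable_swap).pow_const _).mul
            ((hFm.comp measurable_snd).pow_const _)).aemeasurable
      _ = (∫⁻ x, F x ∂μ) ^ (p - 1) * ∫⁻ x, F x ^ p * F x ^ (1 - p) ∂μ := by
          congr 1
          apply lintegral_congr
          intro x
          rw [hFp]
          exact lintegral_mul_const _ (hfp.comp measurable_prodMk_left)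
      _ ≤ (∫⁻ x, F x ∂μ) ^ (p - 1) * ∫⁻ x, F x ∂μ := by
          refine mul_le_mul_right ?_ _
          apply lintegral_mono_ae
          filter_upwards [hfin] with x hx
          by_cases hx0 : F x = 0
          · rw [hx0, ENNReal.zero_rpow_of_pos hp0]; simp
          · rw [← ENNReal.rpow_add _ _ hx0 hx]; simp
      _ = (∫⁻ x, F x ∂μ) ^ p := by
          by_cases hI0 : ∫⁻ x, F x ∂μ = 0
          · rw [hI0, ENNReal.zero_rpow_of_pos hp0]; simp
          · have := ENNReal.rpow_add (p - 1) 1 hI0 hI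
            rw [sub_add_cancel, ENNReal.rpow_one] at this
            exact this.symm
  calc (∫⁻ y, (∫⁻ x, f (x, y) ∂μ) ^ p ∂ν) ^ (1 / q)
      ≤ ((∫⁻ x, F x ∂μ) ^ p) ^ (1 / q) := ENNReal.rpow_le_rpow hmain (by positivity)
    _ = (∫⁻ x, F x ∂μ) ^ (p / q) := by
        rw [← ENNReal.rpow_mul]; congr 1; ring
    _ ≤ ∫⁻ x, F x ^ (p / q) ∂μ := jensen μ hμ ((one_le_div hq0).2 hqp) hFm.aemeasurable
    _ = _ := by simp only [hFq]

end Pool.Agent.TH426.Kt
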