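import Pool.Agent.TH426.Kt.Main
import Pool.Agent.W772.Tri5

set_option autoImplicit false

/-!
From the window bounds to sums of boxes dual to caps of the paraboloid.
-/

open MeasureTheory Set ENNReal NNReal Metric Filter

namespace Pool.Agent.TH426.Kt

open Pool.Agent.H803R2.Kak (vol_pos vol_lt_top vol_ball_scale lintegral_pow_le)
open Pool.Agent.H803R2.KakFTO (Vec Space)
open Pool.Agent.H810R3.Tub (nor box Fb Fb_measurable box_coord box_closed lint_smul Fb_le Fb_int)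

variable {d : ℕ}

/-- The change of variables. -/
theorem change {N : ℝ} (hN : 0 < N) {H : Space d → ℝ≥0∞} (hH : Measurable H) :
    ∫⁻ y, H y = ENNReal.ofReal (N ^ (2 * (d + 1)) / 2) *
      ∫⁻ t : ℝ, ∫⁻ x : Vec d, H (WithLp.toLp 2 ((N ^ 2) • x, -(N ^ 2 / 2) * t)) := by
  have hmp := WithLp.volume_preserving_toLp (Vec d) ℝ
  have hHm : Measurable (fun z : Vec d × ℝ => H (WithLp.toLp 2 z)) := hH.comp hmp.measurable
  have e1 : ∫⁻ y, H y = ∫⁻ s : ℝ, ∫⁻ x : Vec d, H (WithLp.toLp 2 (x, s)) := by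
    rw [← hmp.lintegral_comp hH, Measure.volume_eq_prod]
    exact lintegral_prod_symm _ hHm.aemeasurable
  have hN2 : N ^ 2 ≠ 0 := by positivity
  have e2 : ∀ s : ℝ, ∫⁻ x : Vec d, H (WithLp.toLp 2 ((N ^ 2) • x, s)) =
      ENNReal.ofReal ((N ^ (2 * d))⁻¹) * ∫⁻ x : Vec d, H (WithLp.toLp 2 (x, s)) := by
    intro s
    have := lint_smul (volume : Measure (Vec d)) hN2 (fun x : Vec d => H (WithLp.toLp 2 (x, s)))
    rw [finrank_euclideanSpace_fin, abs_of_pos (by positivity), ← pow_mul] at this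
    exact this
  have e3 : ∫⁻ t : ℝ, (∫⁻ x : Vec d, H (WithLp.toLp 2 (x, -(N ^ 2 / 2) * t))) =
      ENNReal.ofReal ((N ^ 2 / 2)⁻¹) * ∫⁻ s : ℝ, ∫⁻ x : Vec d, H (WithLp.toLp 2 (x, s)) := by
    have := lint_smul (volume : Measure ℝ) (r := -(N ^ 2 / 2)) (by
      have : 0 < N ^ 2 / 2 := by positivity
      linarith) (fun s : ℝ => ∫⁻ x : Vec d, H (WithLp.toLp 2 (x, s)))
    rw [Module.finrank_self, pow_one, inv_neg, abs_neg, abs_of_pos (by positivity)] at this
    exact this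
  have e4 : ∫⁻ t : ℝ, ∫⁻ x : Vec d, H (WithLp.toLp 2 ((N ^ 2) • x, -(N ^ 2 / 2) * t)) =
      ENNReal.ofReal ((N ^ (2 * d))⁻¹) * (ENNReal.ofReal ((N ^ 2 / 2)⁻¹) *
        ∫⁻ s : ℝ, ∫⁻ x : Vec d, H (WithLp.toLp 2 (x, s))) := by
    rw [← e3, ← lintegral_const_mul' _ _ ENNReal.ofReal_ne_top]
    exact lintegral_congr fun t => e2 _
  rw [e4, e1, ← mul_assoc, ← mul_assoc, ← ENNReal.ofReal_mul (by positivity),
    ← ENNReal.ofReal_mul (by positivity)]
  have : N ^ (2 * (d + 1)) / 2 * (N ^ (2 * d))⁻¹ * (N ^ 2 / 2)⁻¹ = 1 := by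
    rw [mul_add, mul_one, pow_add]
    field_simp
  rw [this, ENNReal.ofReal_one, one_mul]

theorem sum_pow_le' {m n : ℕ} (hn : 1 ≤ n) (a : Fin m → ℝ≥0∞) :
    (∑ j, a j) ^ (n + 1) ≤ (m : ℝ≥0∞) ^ n * ∑ j, a j ^ (n + 1) := by
  have h := lintegral_pow_le (Measure.count : Measure (Fin m)) hn (f := a)
    (measurable_of_finite a).aemeasurable
  rw [lintegral_count, lintegral_count, tsum_fintype, tsum_fintype, Measure.count_univ] at h
  simp only [ENat.card_eq_coe_fintype_card, Fintype.card_fin, ENat.toENNReal_coe] at h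
  rw [mul_comm]
  exact h

/-- Windows covering a long interval. -/
theorem long_Wb {r : ℝ} {p : ℝ} {n : ℕ} (hpn : p = n + 1) (hn : 1 ≤ n) {C : ℝ≥0∞} {B : Set (Vec d)}
    {b : Vec d → Vec d} (hb : Measurable b)
    (h : ∀ k : ℤ, Wb r (win univ k) 1 p C B b) (m : ℕ) :
    Wb r (Ico (-(m : ℝ) / 4) ((m : ℝ) / 4)) 1 p ((2 * m : ℕ) ^ n * C) B b := by
  intro g hg
  have e1 : ∀ x : ℝ≥0∞, x ^ ((1 : ℝ) * p) = x ^ (n + 1) := by
    intro x
    rw [one_mul, hpn]
    exact_mod_cast ENNReal.rpow_natCast x (n + 1)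
  have hwin : ∀ k : ℤ, win univ k = Ico ((k : ℝ) / 4) (((k : ℝ) + 1) / 4) := fun k => inter_univ _
  set K : Fin (2 * m) → ℤ := fun j => (j : ℤ) - m with hK
  have hcov : Ico (-(m : ℝ) / 4) ((m : ℝ) / 4) ⊆ ⋃ j, win univ (K j) := by
    rintro t ⟨h1, h2⟩
    rw [mem_iUnion]
    have h3 := Int.floor_le (4 * t)
    have h4 := Int.lt_floor_add_one (4 * t)
    have h5 : -(m : ℝ) < ⌊4 * t⌋ + 1 := by linarith
    have h6 : (⌊4 * t⌋ : ℝ) < m := by linarith
    have h7 : -(m : ℤ) < ⌊4 * t⌋ + 1 := by exact_mod_cast h5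
    have h8 : ⌊4 * t⌋ < (m : ℤ) := by exact_mod_cast h6
    refine ⟨⟨(⌊4 * t⌋ + m).toNat, by omega⟩, ?_⟩
    have h9 : K ⟨(⌊4 * t⌋ + m).toNat, by omega⟩ = ⌊4 * t⌋ := by
      simp only [hK]
      omega
    rw [h9, hwin]
    constructor <;> linarith
  have hsub : ∀ j, win univ (K j) ⊆ Ico (-(m : ℝ) / 4) ((m : ℝ) / 4) := by
    intro j t ht
    rw [hwin] at ht
    obtain ⟨h1, h2⟩ := ht
    have h3 : ((K j : ℤ) : ℝ) = (j : ℕ) - m := by simp [hK]
    rw [h3] at h1 h2
    have h4 : ((j : ℕ) : ℝ) + 1 ≤ 2 * m := by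
      have := j.2
      exact_mod_cast this
    have h5 : (0 : ℝ) ≤ ((j : ℕ) : ℝ) := Nat.cast_nonneg _
    constructor <;> linarith
  have hdisj : Pairwise (Function.onFun Disjoint fun j => win univ (K j)) := by
    intro i j hij
    rw [Function.onFun, Set.disjoint_left]
    intro t h1 h2
    rw [hwin] at h1 h2
    apply hij
    have h5 : ((K i : ℤ) : ℝ) < K j + 1 := by linarith [h1.1, h2.2]
    have h6 : ((K j : ℤ) : ℝ) < K i + 1 := by linarith [h2.1, h1.2]
    have h7 : K i < K j + 1 := by exact_mod_cast h5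
    have h8 : K j < K i + 1 := by exact_mod_cast h6
    have h9 : K i = K j := by omega
    simp only [hK] at h9
    ext
    omega
  have hWm : ∀ k, Measurable (W r (win univ k) (lin b) g) := fun k =>
    measurable_W1 _ _ (measurable_lin hb) hg
  calc ∫⁻ v in B, W r (Ico (-(m : ℝ) / 4) ((m : ℝ) / 4)) (lin b) g v ^ ((1 : ℝ) * p)
      ≤ ∫⁻ v in B, ((2 * m : ℕ) : ℝ≥0∞) ^ n * ∑ j, W r (win univ (K j)) (lin b) g v ^ ((1 : ℝ) * p) := by
        apply lintegral_mono
        intro v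
        simp only [e1]
        have h1 : W r (Ico (-(m : ℝ) / 4) ((m : ℝ) / 4)) (lin b) g v ≤
            ∑ j, W r (win univ (K j)) (lin b) g v := by
          unfold W
          refine (lintegral_mono_set hcov).trans ((lintegral_iUnion_le _ _).trans (le_of_eq ?_))
          rw [tsum_fintype]
        exact (pow_le_pow_left' h1 _).trans (sum_pow_le' hn _)
    _ = ((2 * m : ℕ) : ℝ≥0∞) ^ n * ∑ j, ∫⁻ v in B, W r (win univ (K j)) (lin b) g v ^ ((1 : ℝ) * p) := by
        rw [lintegral_const_mul' _ _ (ENNReal.pow_ne_top (ENNReal.natCast_ne_top _)),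
          lintegral_finsetSum _ fun j _ => (hWm _).pow_const _]
    _ ≤ ((2 * m : ℕ) : ℝ≥0∞) ^ n * ∑ j, C * (∫⁻ t in win univ (K j), ∫⁻ x, g (x, t) ^ p) ^ (1 : ℝ) := by
        gcongr with j _
        exact h (K j) g hg
    _ = ((2 * m : ℕ) : ℝ≥0∞) ^ n * C * ∑ j, ∫⁻ t in win univ (K j), ∫⁻ x, g (x, t) ^ p := by
        simp only [ENNReal.rpow_one]
        rw [← Finset.mul_sum, mul_assoc]
    _ ≤ _ := by
        rw [ENNReal.rpow_one]
        gcongr
        calc ∑ j, ∫⁻ t in win univ (K j), ∫⁻ x, g (x, t) ^ p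
            = ∑' j, ∫⁻ t in win univ (K j), ∫⁻ x, g (x, t) ^ p := (tsum_fintype _).symm
          _ = ∫⁻ t in ⋃ j, win univ (K j), ∫⁻ x, g (x, t) ^ p :=
              (lintegral_iUnion (fun j => measurableSet_win MeasurableSet.univ _) hdisj _).symm
          _ ≤ _ := lintegral_mono_set (iUnion_subset hsub)

/-- Measure of the part of a small ball in the unit ball. -/
theorem vol_part {z : Vec d} (hz : ‖z‖ ≤ 1) {r : ℝ} (hr : 0 < r) (hr1 : r ≤ 1) :
    volume (closedBall (0 : Vec d) (r / 2)) ≤ volume (closedBall z r ∩ closedBall (0 : Vec d) 1) := by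
  set z' : Vec d := (1 - r / 2) • z with hz'
  rw [← Measure.addHaar_closedBall_center (volume : Measure (Vec d)) z' (r / 2)]
  apply measure_mono
  intro u hu
  rw [mem_closedBall, dist_eq_norm] at hu
  have h1 : ‖z'‖ ≤ 1 - r / 2 := by
    rw [hz', norm_smul, Real.norm_eq_abs, abs_of_nonneg (by linarith)]
    nlinarith [norm_nonneg z]
  have h2 : ‖z - z'‖ ≤ r / 2 := by
    have : z - z' = (r / 2) • z := by rw [hz', sub_smul, one_smul]; abel
    rw [this, norm_smul, Real.norm_eq_abs, abs_of_pos (by linarith)]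
    nlinarith [norm_nonneg z]
  constructor
  · rw [mem_closedBall, dist_eq_norm]
    calc ‖u - z‖ = ‖(u - z') + (z' - z)‖ := by congr 1; abel
      _ ≤ ‖u - z'‖ + ‖z' - z‖ := norm_add_le _ _
      _ ≤ r / 2 + r / 2 := by rw [norm_sub_rev z' z]; exact add_le_add hu h2
      _ = r := by ring
  · rw [mem_closedBall, dist_zero_right]
    calc ‖u‖ = ‖(u - z') + z'‖ := by congr 1; abel
      _ ≤ ‖u - z'‖ + ‖z'‖ := norm_add_le _ _
      _ ≤ r / 2 + (1 - r / 2) := add_le_add hu h1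
      _ = 1 := by ring

/-- One box. -/
theorem one_box {N K S σ : ℝ} (hN : 1 ≤ N) (hK : 0 ≤ K) (hS : 0 ≤ S) (hσ : 0 < σ) (hσ1 : σ ≤ 1)
    {ω β : Vec d} {s : ℝ} {f : Fin d → Space d} (hω : ‖ω‖ ≤ 1)
    (hf : Orthonormal ℝ (Fin.cons (nor ω) f : Fin (d + 1) → Space d)) (hs : |s| ≤ S * N ^ 2)
    {b : Vec d → Vec d} {v : Vec d} (hv : ‖v - ω‖ ≤ σ / (3 * N)) (hβ : ‖β - N ^ 2 • b v‖ ≤ K * N)
    {H : Space d → ℝ≥0∞} (hH : Measurable H) {m : ℕ} (hm : 4 * (2 * S + 1 + d) < m) :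
    ∫⁻ y in box N (nor ω) f (WithLp.toLp 2 (β + s • (-(2 : ℝ) • ω), s)), H y ≤
      ENNReal.ofReal (N ^ (2 * (d + 1)) / 2) *
        (volume (closedBall (0 : Vec d) ((3 * d + 1 + K + 2 * S) / N)) *
        W ((3 * d + 1 + K + 2 * S) / N) (Ico (-(m : ℝ) / 4) ((m : ℝ) / 4)) (lin b)
          (fun z => H (WithLp.toLp 2 ((N ^ 2) • z.1, -(N ^ 2 / 2) * z.2))) v) := by
  have hN0 : 0 < N := by linarith
  have hd0 : (0 : ℝ) ≤ d := Nat.cast_nonneg d
  set a : Space d := WithLp.toLp 2 (β + s • (-(2 : ℝ) • ω), s) with ha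
  set R : ℝ := 3 * d + 1 + K + 2 * S with hR
  have hR0 : 0 < R := by positivity
  set Bx := box N (nor ω) f a with hBx
  have hBm : MeasurableSet Bx := (box_closed _ _ _ _).measurableSet
  have hV0 : volume (closedBall (0 : Vec d) (R / N)) ≠ 0 := (vol_pos (d := d) (by positivity)).ne'
  have hVt : volume (closedBall (0 : Vec d) (R / N)) ≠ ∞ := (vol_lt_top (d := d)).ne
  rw [← lintegral_indicator hBm, change hN0 (hH.indicator hBm)]
  refine mul_le_mul_right ?_ _
  set J := Ico (-(m : ℝ) / 4) ((m : ℝ) / 4) with hJ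
  have hgeo : ∀ (x : Vec d) (t : ℝ), WithLp.toLp 2 ((N ^ 2) • x, -(N ^ 2 / 2) * t) ∈ Bx →
      t ∈ J ∧ x - lin b v t ∈ closedBall (0 : Vec d) (R / N) := by
    intro x t hy
    obtain ⟨h1, h2⟩ := box_coord hN hω hf hy
    have e1 : ((WithLp.toLp 2 ((N ^ 2) • x, -(N ^ 2 / 2) * t) : Space d) - a).snd =
        -(N ^ 2 / 2) * t - s := rfl
    have e2 : ((WithLp.toLp 2 ((N ^ 2) • x, -(N ^ 2 / 2) * t) : Space d) - a).fst =
        (N ^ 2) • x - (β + s • (-(2 : ℝ) • ω)) := rfl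
    rw [e1, e2] at h1
    rw [e1] at h2
    have h3 : |t| ≤ 2 * S + 1 + d := by
      have h4 : |N ^ 2 / 2 * t| ≤ (1 + d) * N ^ 2 / 2 + S * N ^ 2 := by
        calc |N ^ 2 / 2 * t| = |(-(N ^ 2 / 2) * t - s) + s| := by
              rw [← abs_neg]; congr 1; ring
          _ ≤ |-(N ^ 2 / 2) * t - s| + |s| := abs_add_le _ _
          _ ≤ _ := add_le_add h2 hs
      rw [abs_mul, abs_of_pos (by positivity)] at h4
      have h5 : N ^ 2 / 2 * |t| ≤ N ^ 2 / 2 * (2 * S + 1 + d) := by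
        calc _ ≤ _ := h4
          _ = _ := by ring
      exact le_of_mul_le_mul_left h5 (by positivity)
    constructor
    · rw [abs_le] at h3
      constructor <;> linarith [h3.1, h3.2]
    · rw [mem_closedBall, dist_zero_right, le_div_iff₀ hN0]
      have e3 : (N ^ 2) • x - (β + s • (-(2 : ℝ) • ω)) + (2 * (-(N ^ 2 / 2) * t - s)) • ω =
          (N ^ 2) • (x - lin b v t) - (β - N ^ 2 • b v) + (N ^ 2 * t) • (v - ω) := by
        unfold lin
        module
      rw [e3] at h1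
      have h6 : ‖(N ^ 2) • (x - lin b v t)‖ ≤ 2 * d * N + K * N + N ^ 2 * |t| * (σ / (3 * N)) := by
        calc ‖(N ^ 2) • (x - lin b v t)‖
            = ‖((N ^ 2) • (x - lin b v t) - (β - N ^ 2 • b v) + (N ^ 2 * t) • (v - ω)) +
              ((β - N ^ 2 • b v) - (N ^ 2 * t) • (v - ω))‖ := by congr 1; abel
          _ ≤ ‖(N ^ 2) • (x - lin b v t) - (β - N ^ 2 • b v) + (N ^ 2 * t) • (v - ω)‖ +
              ‖(β - N ^ 2 • b v) - (N ^ 2 * t) • (v - ω)‖ := norm_add_le _ _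
          _ ≤ 2 * d * N + (‖β - N ^ 2 • b v‖ + ‖(N ^ 2 * t) • (v - ω)‖) :=
              add_le_add h1 (norm_sub_le _ _)
          _ ≤ 2 * d * N + (K * N + N ^ 2 * |t| * (σ / (3 * N))) := by
              gcongr
              rw [norm_smul, Real.norm_eq_abs, abs_mul, abs_of_pos (by positivity : 0 < N ^ 2)]
              gcongr
          _ = _ := by ring
      rw [norm_smul, Real.norm_eq_abs, abs_of_pos (by positivity : 0 < N ^ 2)] at h6
      have h7 : N ^ 2 * |t| * (σ / (3 * N)) ≤ N * (2 * S + 1 + d) := by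
        have : N ^ 2 * |t| * (σ / (3 * N)) = N * (|t| * (σ / 3)) := by field_simp
        rw [this]
        have h8 : |t| * (σ / 3) ≤ (2 * S + 1 + d) * 1 :=
          mul_le_mul h3 (by linarith) (by positivity) (by positivity)
        rw [mul_one] at h8
        exact mul_le_mul_of_nonneg_left h8 hN0.le
      have h9 : N * (‖x - lin b v t‖ * N) ≤ N * R := by
        calc N * (‖x - lin b v t‖ * N) = N ^ 2 * ‖x - lin b v t‖ := by ring
          _ ≤ 2 * d * N + K * N + N ^ 2 * |t| * (σ / (3 * N)) := h6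
          _ ≤ 2 * d * N + K * N + N * (2 * S + 1 + d) := by linarith
          _ = N * R := by rw [hR]; ring
      exact le_of_mul_le_mul_left h9 hN0
  unfold W
  rw [← lintegral_const_mul' _ _ hVt, ← lintegral_indicator measurableSet_Ico]
  apply lintegral_mono
  intro t
  simp only
  by_cases ht : t ∈ J
  · rw [indicator_of_mem ht, lintegral_nb, ← mul_assoc, ENNReal.mul_inv_cancel hV0 hVt, one_mul,
      ← lintegral_indicator measurableSet_closedBall,
      ← lintegral_add_left_eq_self (fun x => Bx.indicator H (WithLp.toLp 2 ((N ^ 2) • x, -(N ^ 2 / 2) * t)))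
        (lin b v t)]
    apply lintegral_mono
    intro w
    simp only
    by_cases hw : WithLp.toLp 2 ((N ^ 2) • (lin b v t + w), -(N ^ 2 / 2) * t) ∈ Bx
    · have h1 := (hgeo _ _ hw).2
      rw [add_sub_cancel_left] at h1
      rw [indicator_of_mem hw, indicator_of_mem h1]
    · rw [indicator_of_notMem hw]; exact zero_le
  · rw [indicator_of_notMem ht]
    have : ∀ x : Vec d, Bx.indicator H (WithLp.toLp 2 ((N ^ 2) • x, -(N ^ 2 / 2) * t)) = 0 := by
      intro x
      apply indicator_of_notMem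
      intro h
      exact ht (hgeo x t h).1
    simp only [this, lintegral_zero]
    exact le_rfl

end Pool.Agent.TH426.Kt
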