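import Pool.Agent.TH426.Kt.Dual

set_option autoImplicit false

/-!
From the window bounds to sums of boxes dual to caps of the paraboloid: the moment of order
`1 + 1/d`.
-/

open MeasureTheory Set ENNReal NNReal Metric Filter

namespace Pool.Agent.TH426.Kt

open Pool.Agent.H803R2.Kak (vol_pos vol_lt_top vol_ball_scale lintegral_pow_le)
open Pool.Agent.H803R2.KakFTO (Vec Space)
open Pool.Agent.H810R3.Tub (nor box Fb Fb_measurable box_coord box_closed lint_smul Fb_le Fb_int)

variable {d : ℕ}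

/-- The constant. -/
noncomputable def om (d : ℕ) : ℝ := (volume (closedBall (0 : Vec d) 1)).toReal

theorem om_pos (d : ℕ) : 0 < om d :=
  ENNReal.toReal_pos (vol_pos (d := d) one_pos).ne' (vol_lt_top (d := d)).ne

theorem vol_om (d : ℕ) {r : ℝ} (hr : 0 < r) :
    volume (closedBall (0 : Vec d) r) = ENNReal.ofReal (r ^ d * om d) := by
  rw [vol_ball_scale (d := d) hr, ENNReal.ofReal_mul (by positivity), ENNReal.ofReal_pow hr.le, om,
    ENNReal.ofReal_toReal (vol_lt_top (d := d)).ne]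

theorem real_step {x c V v u C : ℝ} {d : ℕ} (hd : 1 ≤ d) (hx : 0 ≤ x) (hc : 0 < c) (hV : 0 < V)
    (hv : 0 < v) (hu : 0 < u) (hC : 0 < C)
    (h : (x * v) ^ (d + 1) ≤ (c * V) ^ (d + 1) * (u ^ d * (C * (x / c)))) :
    x ≤ c * (V / v) * ((V / v) ^ (1 / (d : ℝ)) * u * C ^ (1 / (d : ℝ))) := by
  rcases eq_or_lt_of_le hx with h0 | h0
  · rw [← h0]; positivity
  have hd0 : (d : ℝ) ≠ 0 := by
    have : 0 < d := hd
    positivity
  have h1 : x ^ d ≤ (c * (V / v) * u) ^ d * ((V / v) * C) := by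
    have h2 : x ^ d * (x * v ^ (d + 1)) ≤ ((c * (V / v) * u) ^ d * ((V / v) * C)) * (x * v ^ (d + 1)) := by
      calc x ^ d * (x * v ^ (d + 1)) = (x * v) ^ (d + 1) := by rw [mul_pow, pow_succ x]; ring
        _ ≤ (c * V) ^ (d + 1) * (u ^ d * (C * (x / c))) := h
        _ = _ := by
            rw [mul_pow, mul_pow, mul_pow, div_pow]
            field_simp
            ring
    exact le_of_mul_le_mul_right h2 (by positivity)
  have h3 : x = (x ^ d) ^ (1 / (d : ℝ)) := by
    rw [← Real.rpow_natCast, ← Real.rpow_mul hx]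
    rw [mul_one_div_cancel hd0, Real.rpow_one]
  rw [h3]
  calc (x ^ d) ^ (1 / (d : ℝ)) ≤ ((c * (V / v) * u) ^ d * ((V / v) * C)) ^ (1 / (d : ℝ)) :=
        Real.rpow_le_rpow (by positivity) h1 (by positivity)
    _ = _ := by
        rw [Real.mul_rpow (by positivity) (by positivity), Real.mul_rpow (by positivity) (by positivity)]
        have h4 : ((c * (V / v) * u) ^ d) ^ (1 / (d : ℝ)) = c * (V / v) * u := by
          rw [← Real.rpow_natCast, ← Real.rpow_mul (by positivity), mul_one_div_cancel hd0,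
            Real.rpow_one]
        rw [h4]
        ring

/-- The moment of order `1 + 1/d` of a sum of boxes whose axes are close to the lines of a family
that satisfies the window bounds. -/
theorem moment_le (hd : 1 ≤ d) {N K S σ : ℝ} (hN : 1 ≤ N) (hK : 0 ≤ K) (hS : 0 ≤ S) (hσ : 0 < σ)
    (hσ1 : σ ≤ 1) {ι : Type} [Fintype ι] {ω β : ι → Vec d} {s : ι → ℝ} {f : ι → Fin d → Space d}
    (hω : ∀ i, ‖ω i‖ ≤ 1) (hsep : ∀ i j, i ≠ j → σ / N ≤ ‖ω i - ω j‖)
    (hf : ∀ i, Orthonormal ℝ (Fin.cons (nor (ω i)) (f i) : Fin (d + 1) → Space d))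
    (hs : ∀ i, |s i| ≤ S * N ^ 2) {b : Vec d → Vec d} (hb : Measurable b)
    (hβ : ∀ i v, ‖v‖ ≤ 1 → ‖v - ω i‖ ≤ σ / (2 * N) → ‖β i - N ^ 2 • b v‖ ≤ K * N)
    {C0 : ℝ} (hC0 : 0 < C0)
    (hW : ∀ k : ℤ, Wb (3 * (1 / (4 * N))) (win univ k) 1 ((d : ℝ) + 1) (ENNReal.ofReal C0)
      (closedBall 0 1) b) :
    ∫⁻ y, Fb N ω f (fun i => WithLp.toLp 2 (β i + s i • (-(2 : ℝ) • ω i), s i)) y ^ (1 + 1 / (d : ℝ)) ≤
      ENNReal.ofReal ((6 * (3 * d + 2) / σ) ^ (d + 1) * (2 ^ (d + 2) * (4 * d + 8)) * om d *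
        ((1 + K + S) ^ (d + 2) * C0 ^ (1 / (d : ℝ))) * N ^ (2 * (d + 1))) := by
  have hN0 : 0 < N := by linarith
  have hdR : (1 : ℝ) ≤ d := by exact_mod_cast hd
  have hd0 : (d : ℝ) ≠ 0 := by linarith
  set a : ι → Space d := fun i => WithLp.toLp 2 (β i + s i • (-(2 : ℝ) • ω i), s i) with ha
  set R : ℝ := 3 * d + 1 + K + 2 * S with hR
  have hR0 : 0 < R := by positivity
  have hR2 : 1 ≤ R := by rw [hR]; linarith
  set m : ℕ := ⌈4 * (2 * S + 1 + d)⌉₊ + 1 with hm
  have hm1 : 4 * (2 * S + 1 + d) < m := by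
    have := Nat.le_ceil (4 * (2 * S + 1 + (d : ℝ)))
    rw [hm]; push_cast; linarith
  have hm2 : (m : ℝ) ≤ (4 * d + 8) * (1 + K + S) := by
    have h1 := (Nat.ceil_lt_add_one (show 0 ≤ 4 * (2 * S + 1 + (d : ℝ)) by positivity)).le
    rw [hm]; push_cast
    have h2 : 0 ≤ (4 * (d : ℝ) + 8) * K := by positivity
    have h3 : 0 ≤ 4 * (d : ℝ) * S := by positivity
    nlinarith
  have hm0 : (0 : ℝ) < m := lt_trans (by positivity) hm1
  set J := Ico (-(m : ℝ) / 4) ((m : ℝ) / 4) with hJ
  -- the window bound at the radius `R / N`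
  set C1 : ℝ := (2 ^ d) ^ (d + 1) * ((2 * m) ^ d * C0) with hC1
  have hC10 : 0 < C1 := by positivity
  have hwb : Wb (R / N) J 1 ((d : ℝ) + 1) (ENNReal.ofReal C1) (closedBall 0 1) b := by
    have h1 := long_Wb (n := d) rfl hd hb hW m
    have h2 := h1.radius (r := 3 * (1 / (4 * N))) (R := R / N) (by positivity) (by
      rw [le_div_iff₀ hN0]
      have : 3 * (1 / (4 * N)) * N = 3 / 4 := by field_simp
      rw [this]; linarith) (by linarith) hb
    refine h2.mono (le_of_eq ?_) subset_rfl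
    rw [hC1, ENNReal.ofReal_mul (by positivity), ENNReal.ofReal_mul (by positivity),
      ENNReal.ofReal_pow (by positivity), ENNReal.ofReal_pow (by positivity),
      ENNReal.ofReal_pow (by positivity), ENNReal.ofReal_mul (by positivity),
      ENNReal.ofReal_natCast]
    have e1 : (2 ^ d : ℝ≥0∞) ^ ((1 : ℝ) * ((d : ℝ) + 1)) = (2 ^ d) ^ (d + 1) := by
      rw [one_mul]
      exact_mod_cast ENNReal.rpow_natCast (2 ^ d : ℝ≥0∞) (d + 1)
    rw [e1]
    push_cast
    simp
  set F : Space d → ℝ≥0∞ := Fb N ω f a with hF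
  have hFm : Measurable F := Fb_measurable _ _ _ _
  set H : Space d → ℝ≥0∞ := fun y => F y ^ (1 / (d : ℝ)) with hH
  have hHm : Measurable H := hFm.pow_const _
  set g : Vec d × ℝ → ℝ≥0∞ := fun z => H (WithLp.toLp 2 ((N ^ 2) • z.1, -(N ^ 2 / 2) * z.2)) with hg
  have hgm : Measurable g := by
    apply hHm.comp
    apply (WithLp.volume_preserving_toLp (Vec d) ℝ).measurable.comp
    exact (measurable_fst.const_smul (N ^ 2)).prodMk (measurable_snd.const_mul _)
  set c : ℝ := N ^ (2 * (d + 1)) / 2 with hc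
  have hc0 : 0 < c := by positivity
  set V : ℝ := (R / N) ^ d * om d with hV
  have hom := om_pos d
  have hV0 : 0 < V := by positivity
  have hVe : volume (closedBall (0 : Vec d) (R / N)) = ENNReal.ofReal V := vol_om d (by positivity)
  set I := ∫⁻ y, F y ^ (1 + 1 / (d : ℝ)) with hI
  -- the integral
  have hIsum : I = ∑ i, ∫⁻ y in box N (nor (ω i)) (f i) (a i), H y := by
    rw [hI]
    have e1 : ∀ y, F y ^ (1 + 1 / (d : ℝ)) =
        ∑ i, (box N (nor (ω i)) (f i) (a i)).indicator H y := by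
      intro y
      have hy : F y ≠ ∞ := ne_top_of_le_ne_top (ENNReal.natCast_ne_top _) (Fb_le _ _ _ _ y)
      rw [ENNReal.rpow_add_of_nonneg _ _ zero_le_one (by positivity), ENNReal.rpow_one]
      change F y * H y = _
      rw [hF]
      unfold Fb
      rw [Finset.sum_mul]
      refine Finset.sum_congr rfl fun i _ => ?_
      by_cases hm : y ∈ box N (nor (ω i)) (f i) (a i)
      · rw [indicator_of_mem hm, indicator_of_mem hm, one_mul]
      · rw [indicator_of_notMem hm, indicator_of_notMem hm, zero_mul]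
    simp only [e1]
    rw [lintegral_finsetSum _ fun i _ => hHm.indicator (box_closed _ _ _ _).measurableSet]
    exact Finset.sum_congr rfl fun i _ => lintegral_indicator (box_closed _ _ _ _).measurableSet _
  set Q : ι → Set (Vec d) := fun i => closedBall (ω i) (σ / (3 * N)) ∩ closedBall (0 : Vec d) 1 with hQ
  have hQm : ∀ i, MeasurableSet (Q i) := fun i => measurableSet_closedBall.inter measurableSet_closedBall
  set q : ℝ := (σ / (6 * N)) ^ d * om d with hq
  have hq0 : 0 < q := by positivity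
  have hr3 : 0 < σ / (3 * N) := by positivity
  have hr31 : σ / (3 * N) ≤ 1 := by
    rw [div_le_one (by positivity)]; linarith
  have hQv : ∀ i, ENNReal.ofReal q ≤ volume (Q i) := by
    intro i
    have h1 := vol_part (hω i) hr3 hr31
    have h2 : σ / (3 * N) / 2 = σ / (6 * N) := by field_simp; ring
    rw [h2, vol_om d (by positivity)] at h1
    exact h1
  have hone : ∀ i, (∫⁻ y in box N (nor (ω i)) (f i) (a i), H y) * ENNReal.ofReal q ≤
      ENNReal.ofReal c * (ENNReal.ofReal V * ∫⁻ v in Q i, W (R / N) J (lin b) g v) := by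
    intro i
    have hWm : Measurable (W (R / N) J (lin b) g) := measurable_W1 _ _ (measurable_lin hb) hgm
    calc (∫⁻ y in box N (nor (ω i)) (f i) (a i), H y) * ENNReal.ofReal q
        ≤ (∫⁻ y in box N (nor (ω i)) (f i) (a i), H y) * volume (Q i) := by gcongr; exact hQv i
      _ = ∫⁻ _v in Q i, ∫⁻ y in box N (nor (ω i)) (f i) (a i), H y := by
          rw [setLIntegral_const]
      _ ≤ ∫⁻ v in Q i, ENNReal.ofReal c * (ENNReal.ofReal V * W (R / N) J (lin b) g v) := by
          apply setLIntegral_mono' (hQm i)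
          intro v hv
          have hv1 : ‖v - ω i‖ ≤ σ / (3 * N) := by
            have := hv.1
            rwa [mem_closedBall, dist_eq_norm] at this
          have hv2 : ‖v‖ ≤ 1 := by
            have := hv.2
            rwa [mem_closedBall, dist_zero_right] at this
          rw [← hVe]
          apply one_box hN hK hS hσ hσ1 (hω i) (hf i) (hs i) hv1 (hβ i v hv2 (hv1.trans ?_)) hHm hm1
          apply div_le_div_of_nonneg_left hσ.le (by positivity)
          linarith
      _ = _ := by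
          rw [lintegral_const_mul _ (hWm.const_mul _), lintegral_const_mul _ hWm]
  have hQd : Pairwise (Function.onFun Disjoint Q) := by
    intro i j hij
    rw [Function.onFun, Set.disjoint_left]
    rintro v ⟨h1, _⟩ ⟨h2, _⟩
    rw [mem_closedBall, dist_eq_norm] at h1 h2
    have h3 := hsep i j hij
    have h4 : ‖ω i - ω j‖ ≤ σ / (3 * N) + σ / (3 * N) := by
      calc ‖ω i - ω j‖ = ‖(v - ω j) - (v - ω i)‖ := by congr 1; abel
        _ ≤ ‖v - ω j‖ + ‖v - ω i‖ := norm_sub_le _ _
        _ ≤ _ := add_le_add h2 h1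
    have h5 : σ / (3 * N) + σ / (3 * N) < σ / N := by
      have : σ / (3 * N) = σ / N / 3 := by field_simp
      rw [this]
      have : 0 < σ / N := by positivity
      linarith
    linarith
  have hsum : I * ENNReal.ofReal q ≤ ENNReal.ofReal c * (ENNReal.ofReal V *
      ∫⁻ v in closedBall (0 : Vec d) 1, W (R / N) J (lin b) g v) := by
    rw [hIsum, Finset.sum_mul]
    calc ∑ i, (∫⁻ y in box N (nor (ω i)) (f i) (a i), H y) * ENNReal.ofReal q
        ≤ ∑ i, ENNReal.ofReal c * (ENNReal.ofReal V * ∫⁻ v in Q i, W (R / N) J (lin b) g v) :=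
          Finset.sum_le_sum fun i _ => hone i
      _ = ENNReal.ofReal c * (ENNReal.ofReal V * ∑ i, ∫⁻ v in Q i, W (R / N) J (lin b) g v) := by
          rw [← Finset.mul_sum, ← Finset.mul_sum]
      _ ≤ _ := by
          gcongr
          calc ∑ i, ∫⁻ v in Q i, W (R / N) J (lin b) g v
              = ∑' i, ∫⁻ v in Q i, W (R / N) J (lin b) g v := (tsum_fintype _).symm
            _ = ∫⁻ v in ⋃ i, Q i, W (R / N) J (lin b) g v := (lintegral_iUnion hQm hQd _).symm
            _ ≤ _ := lintegral_mono_set (iUnion_subset fun i => inter_subset_right)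
  have hJint : ∫⁻ t in J, ∫⁻ x, g (x, t) ^ ((d : ℝ) + 1) ≤ (ENNReal.ofReal c)⁻¹ * I := by
    have e1 : I = ENNReal.ofReal c * ∫⁻ t : ℝ, ∫⁻ x : Vec d, g (x, t) ^ ((d : ℝ) + 1) := by
      rw [hI, change hN0 (hFm.pow_const _)]
      congr 1
      apply lintegral_congr; intro t
      apply lintegral_congr; intro x
      simp only [hg, hH]
      rw [← ENNReal.rpow_mul]
      congr 1
      field_simp
    have hcc : ENNReal.ofReal c ≠ 0 := by simpa using hc0
    rw [e1, ← mul_assoc, ENNReal.inv_mul_cancel hcc ENNReal.ofReal_ne_top, one_mul]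
    exact setLIntegral_le_lintegral _ _
  have hpow : (∫⁻ v in closedBall (0 : Vec d) 1, W (R / N) J (lin b) g v) ^ (d + 1) ≤
      ENNReal.ofReal (om d) ^ d * (ENNReal.ofReal C1 * ((ENNReal.ofReal c)⁻¹ * I)) := by
    have hWm : Measurable (W (R / N) J (lin b) g) := measurable_W1 _ _ (measurable_lin hb) hgm
    have h1 := lintegral_pow_le (volume.restrict (closedBall (0 : Vec d) 1)) hd
      (f := W (R / N) J (lin b) g) hWm.aemeasurable
    rw [Measure.restrict_apply_univ] at h1
    have h2 := hwb g hgm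
    have e1 : ∀ x : ℝ≥0∞, x ^ ((1 : ℝ) * ((d : ℝ) + 1)) = x ^ (d + 1) := by
      intro x
      rw [one_mul]
      exact_mod_cast ENNReal.rpow_natCast x (d + 1)
    simp only [e1, ENNReal.rpow_one] at h2
    have h3 : volume (closedBall (0 : Vec d) 1) = ENNReal.ofReal (om d) := by
      have := vol_om d one_pos
      rwa [one_pow, one_mul] at this
    rw [h3] at h1
    calc _ ≤ _ := h1
      _ ≤ (ENNReal.ofReal C1 * ((ENNReal.ofReal c)⁻¹ * I)) * ENNReal.ofReal (om d) ^ d := by
          gcongr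
          exact h2.trans (by gcongr)
      _ = _ := by ring
  -- finiteness
  have hIt : I ≠ ∞ := by
    have h1 : I ≤ (Fintype.card ι : ℝ≥0∞) ^ (1 / (d : ℝ)) * ∫⁻ y, F y := by
      rw [hI, ← lintegral_const_mul _ hFm]
      apply lintegral_mono
      intro y
      simp only
      rw [add_comm, ENNReal.rpow_add_of_nonneg _ _ (by positivity) zero_le_one, ENNReal.rpow_one]
      gcongr
      exact Fb_le _ _ _ _ y
    refine ne_top_of_le_ne_top (ENNReal.mul_ne_top ?_ ?_) h1
    · exact ENNReal.rpow_ne_top_of_nonneg (by positivity) (ENNReal.natCast_ne_top _)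
    · rw [hF, Fb_int hN hf a]; exact ENNReal.ofReal_ne_top
  set x : ℝ := I.toReal with hx
  have hIx : I = ENNReal.ofReal x := (ENNReal.ofReal_toReal hIt).symm
  have hx0 : 0 ≤ x := ENNReal.toReal_nonneg
  have hfin : (x * q) ^ (d + 1) ≤ (c * V) ^ (d + 1) * (om d ^ d * (C1 * (x / c))) := by
    have h1 : (I * ENNReal.ofReal q) ^ (d + 1) ≤ (ENNReal.ofReal c * ENNReal.ofReal V) ^ (d + 1) *
        (ENNReal.ofReal (om d) ^ d * (ENNReal.ofReal C1 * ((ENNReal.ofReal c)⁻¹ * I))) := by
      calc (I * ENNReal.ofReal q) ^ (d + 1)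
          ≤ (ENNReal.ofReal c * (ENNReal.ofReal V *
            ∫⁻ v in closedBall (0 : Vec d) 1, W (R / N) J (lin b) g v)) ^ (d + 1) := by gcongr
        _ = (ENNReal.ofReal c * ENNReal.ofReal V) ^ (d + 1) *
            (∫⁻ v in closedBall (0 : Vec d) 1, W (R / N) J (lin b) g v) ^ (d + 1) := by
            rw [← mul_assoc, mul_pow]
        _ ≤ _ := by gcongr
    rw [hIx, ← ENNReal.ofReal_inv_of_pos hc0, ← ENNReal.ofReal_mul (by positivity),
      ← ENNReal.ofReal_mul (by positivity), ← ENNReal.ofReal_mul (by positivity),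
      ← ENNReal.ofReal_mul (by positivity), ← ENNReal.ofReal_pow (by positivity),
      ← ENNReal.ofReal_pow (by positivity), ← ENNReal.ofReal_pow (by positivity),
      ← ENNReal.ofReal_mul (by positivity), ← ENNReal.ofReal_mul (by positivity)] at h1
    have h2 := (ENNReal.ofReal_le_ofReal_iff (by positivity)).1 h1
    have h3 : c⁻¹ * x = x / c := by ring
    rwa [h3] at h2
  have hres := real_step hd hx0 hc0 hV0 hq0 hom hC10 hfin
  rw [hIx]
  apply ENNReal.ofReal_le_ofReal
  refine hres.trans ?_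
  have hVq : V / q = (6 * R / σ) ^ d := by
    rw [hV, hq]
    have : (R / N) ^ d * om d / ((σ / (6 * N)) ^ d * om d) = ((R / N) / (σ / (6 * N))) ^ d := by
      rw [div_pow (R / N)]
      field_simp
    rw [this]
    congr 1
    field_simp
  have hP0 : 0 < 6 * R / σ := by positivity
  have hVq1 : (V / q) ^ (1 / (d : ℝ)) = 6 * R / σ := by
    rw [hVq, ← Real.rpow_natCast, ← Real.rpow_mul hP0.le, mul_one_div_cancel hd0, Real.rpow_one]
  have hC1p : C1 ^ (1 / (d : ℝ)) = 2 ^ (d + 1) * (2 * m) * C0 ^ (1 / (d : ℝ)) := by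
    have e1 : C1 = (2 ^ (d + 1) * (2 * m)) ^ d * C0 := by
      have e0 : ((2 : ℝ) ^ d) ^ (d + 1) = (2 ^ (d + 1)) ^ d := by
        rw [← pow_mul, ← pow_mul, mul_comm]
      rw [hC1, e0, mul_pow (2 ^ (d + 1)) (2 * (m : ℝ)) d]
      ring
    rw [e1, Real.mul_rpow (by positivity) hC0.le, ← Real.rpow_natCast _ d,
      ← Real.rpow_mul (by positivity), mul_one_div_cancel hd0, Real.rpow_one]
  rw [hVq1, hC1p, hVq]
  have hRle : R ≤ (3 * d + 2) * (1 + K + S) := by
    rw [hR]
    have h1 : 0 ≤ (3 * (d : ℝ) + 1) * K := by positivity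
    have h2 : 0 ≤ 3 * (d : ℝ) * S := by positivity
    nlinarith
  have hKS : 1 ≤ 1 + K + S := by linarith
  have hc1 : c ≤ N ^ (2 * (d + 1)) := by
    rw [hc]
    have : 0 < N ^ (2 * (d + 1)) := by positivity
    linarith
  have hRs : (6 * R / σ) ^ (d + 1) ≤ (6 * (3 * d + 2) / σ) ^ (d + 1) * (1 + K + S) ^ (d + 1) := by
    rw [← mul_pow]
    apply pow_le_pow_left₀ hP0.le
    calc 6 * R / σ ≤ 6 * ((3 * d + 2) * (1 + K + S)) / σ := by gcongr
      _ = _ := by ring
  calc c * (6 * R / σ) ^ d * (6 * R / σ * om d * (2 ^ (d + 1) * (2 * m) * C0 ^ (1 / (d : ℝ))))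
      = c * (6 * R / σ) ^ (d + 1) * om d * (2 ^ (d + 2) * m) * C0 ^ (1 / (d : ℝ)) := by
        rw [pow_succ (6 * R / σ), pow_succ (2 : ℝ) (d + 1)]; ring
    _ ≤ N ^ (2 * (d + 1)) * ((6 * (3 * d + 2) / σ) ^ (d + 1) * (1 + K + S) ^ (d + 1)) * om d *
        (2 ^ (d + 2) * ((4 * d + 8) * (1 + K + S))) * C0 ^ (1 / (d : ℝ)) := by gcongr
    _ = _ := by
        rw [pow_succ (1 + K + S) (d + 1)]; ring

end Pool.Agent.TH426.Kt
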