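import Pool.Agent.TH426.Kt.Dual2

set_option autoImplicit false

/-!
Towers of translates: the comparison with the centred family.
-/

open MeasureTheory Set ENNReal NNReal Metric Filter

namespace Pool.Agent.TH426.Kt

open Pool.Agent.H803R2.KakFTO (Vec Space)
open Pool.Agent.H810R3.Tub (nor box Fb)

variable {d : ℕ}

/-- Window bounds for towers, with a real constant. -/
theorem tower_wb {𝓑 : (d : ℕ) → ℝ → ℝ≥0 → Set (Vec d) → (Vec d → Vec d) → Prop} (h𝓑 : RegBase 𝓑)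
    {c0 : ℕ → ℝ≥0∞} (hc0 : ∀ n, c0 n ≠ ∞) {δ : ℝ} (hδ : 0 < δ) {Λ : ℝ} (hΛ : 0 < Λ)
    (hb : ∀ k : ℤ, BaseBd 𝓑 (3 * δ) (win univ k) 1 c0 (ENNReal.ofReal Λ) 1)
    {M : ℝ≥0} {B : Set (Vec d)} {b : Vec d → Vec d} (h : KTower 𝓑 d (d + 1) M B b)
    (hB : volume (closedBall (0 : Vec d) 1 \ B) = 0) (k : ℤ) :
    Wb (3 * δ) (win univ k) 1 ((d : ℝ) + 1)
      (ENNReal.ofReal ((cc c0 (KK 1) d).toReal * (1 + M) * Λ ^ d)) (closedBall 0 1) b := by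
  have hΛ0 : ENNReal.ofReal Λ ≠ 0 := by simpa using hΛ
  have h1 := h.bound h𝓑 (r := 3 * δ) (by linarith) (J := win univ k) one_pos hΛ0
    ENNReal.ofReal_ne_top one_ne_zero one_ne_top hc0 (hb k)
  rw [ENNReal.one_rpow, mul_one] at h1
  obtain ⟨hBm, hB1, _⟩ := h.meas h𝓑
  have hct : cc c0 (KK 1) d ≠ ∞ := cc_ne_top hc0 (KK_ne_top zero_le_one) d
  have h2 : cc c0 (KK 1) d * (M : ℝ≥0∞) * ENNReal.ofReal Λ ^ d ≤
      ENNReal.ofReal ((cc c0 (KK 1) d).toReal * (1 + M) * Λ ^ d) := by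
    rw [ENNReal.ofReal_mul (by positivity), ENNReal.ofReal_mul (by positivity),
      ENNReal.ofReal_pow hΛ.le, ENNReal.ofReal_toReal hct]
    gcongr
    calc (M : ℝ≥0∞) = ENNReal.ofReal (M : ℝ) := (ENNReal.ofReal_coe_nnreal).symm
      _ ≤ _ := ENNReal.ofReal_le_ofReal (by linarith)
  have h3 := h1.mono h2 subset_rfl
  intro g hg
  refine le_trans (le_of_eq ?_) (h3 g hg)
  apply setLIntegral_congr
  refine (ae_eq_set).2 ⟨hB, ?_⟩
  rw [sdiff_eq_empty.2 hB1]; simp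

/-- The comparison with the centred family. -/
theorem tower_compare (d : ℕ) (hd : 1 ≤ d) (σ κ : ℝ) (hσ : 0 < σ) (hσ1 : σ ≤ 1) (hκ : 0 < κ)
    {𝓑 : (d : ℕ) → ℝ → ℝ≥0 → Set (Vec d) → (Vec d → Vec d) → Prop} (h𝓑 : RegBase 𝓑)
    {c0 : ℕ → ℝ≥0∞} (hc0 : ∀ n, c0 n ≠ ∞) (Λ L : ℝ → ℝ) (a : ℝ) (ha : 0 < a)
    (hΛ : ∀ N : ℝ, 1 ≤ N → 0 < Λ N) (hL : ∀ N : ℝ, 1 ≤ N → 1 ≤ L N)
    (hΛL : ∀ N : ℝ, 1 ≤ N → Λ N ≤ a * L N)
    (hb : ∀ N : ℝ, 1 ≤ N → ∀ k : ℤ,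
      BaseBd 𝓑 (3 * (1 / (4 * N))) (win univ k) 1 c0 (ENNReal.ofReal (Λ N)) 1) :
    ∃ C : ℝ, 0 < C ∧ ∀ (M K S : ℝ≥0) (B : Set (Vec d)) (b : Vec d → Vec d),
      KTower 𝓑 d (d + 1) M B b → volume (closedBall (0 : Vec d) 1 \ B) = 0 →
      ∀ N : ℝ, 1 ≤ N → ∀ (ι : Type) [Fintype ι] (ω β : ι → Vec d) (s : ι → ℝ)
        (f : ι → Fin d → Space d), (∀ i, ‖ω i‖ ≤ 1) → (∀ i j, i ≠ j → σ / N ≤ ‖ω i - ω j‖) →
        κ * N ^ d ≤ (Fintype.card ι : ℝ) →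
        (∀ i, Orthonormal ℝ (Fin.cons (nor (ω i)) (f i) : Fin (d + 1) → Space d)) →
        (∀ i, |s i| ≤ S * N ^ 2) →
        (∀ i v, ‖v‖ ≤ 1 → ‖v - ω i‖ ≤ σ / (2 * N) → ‖β i - N ^ 2 • b v‖ ≤ K * N) →
        ∀ p : ℝ≥0∞, 1 ≤ p →
          eLpNorm (fun y : Space d => ∑ i, (box N (nor (ω i)) (f i)
            (WithLp.toLp 2 (β i + s i • (-(2 : ℝ) • ω i), s i))).indicator (fun _ => (1 : ℝ)) y) p volume
          ≤ ENNReal.ofReal (C * ((1 + M) * (1 + K + S : ℝ) ^ (d + 2) * L N) ^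
              min ((d : ℝ) * (1 - 1 / p.toReal)) (1 / p.toReal)) *
            eLpNorm (fun y : Space d => ∑ i,
              (box N (nor (ω i)) (f i) 0).indicator (fun _ => (1 : ℝ)) y) p volume := by
  have hd0 : (0 : ℝ) < d := by exact_mod_cast hd
  have hd1 : (1 : ℝ) ≤ d := by exact_mod_cast hd
  set cr : ℝ := (cc c0 (KK 1) d).toReal with hcr
  have hct : cc c0 (KK 1) d ≠ ∞ := cc_ne_top hc0 (KK_ne_top zero_le_one) d
  have hcr0 : 0 < cr := ENNReal.toReal_pos (lt_of_lt_of_le one_pos (one_le_cc _ _ _)).ne' hct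
  have hom := om_pos d
  set E : ℝ := (6 * (3 * d + 2) / σ) ^ (d + 1) * (2 ^ (d + 2) * (4 * d + 8)) * om d *
    (cr ^ (1 / (d : ℝ)) * a) with hE
  have hE0 : 0 < E := by positivity
  obtain ⟨D, hD1, hD⟩ := Pool.Agent.W772.compare_tri d hd κ E hκ hE0
  refine ⟨D, by linarith, ?_⟩
  intro M K S B b hT hB N hN ι _ ω β s f hω hsep hcard hf hs hβ p hp
  have hN0 : 0 < N := by linarith
  have hne : Nonempty ι := by
    have h1 : 0 < κ * N ^ d := by positivity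
    have h2 : (0 : ℝ) < (Fintype.card ι : ℝ) := by linarith
    have h3 : 0 < Fintype.card ι := by exact_mod_cast h2
    exact Fintype.card_pos_iff.1 h3
  have hK0 : (0 : ℝ) ≤ K := K.2
  have hS0 : (0 : ℝ) ≤ S := S.2
  have hM0 : (0 : ℝ) ≤ M := M.2
  have hΛN := hΛ N hN
  have hLN := hL N hN
  have hKS : 1 ≤ (1 + K + S : ℝ) ^ (d + 2) := one_le_pow₀ (by linarith)
  have hY : 1 ≤ (1 + M) * (1 + K + S : ℝ) ^ (d + 2) * L N := by
    have h1 : 1 ≤ (1 + M) * (1 + K + S : ℝ) ^ (d + 2) := by nlinarith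
    nlinarith
  obtain ⟨_, _, hbm⟩ := hT.meas h𝓑
  set C0 : ℝ := cr * (1 + M) * Λ N ^ d with hC0
  have hC00 : 0 < C0 := by positivity
  have hW : ∀ k : ℤ, Wb (3 * (1 / (4 * N))) (win univ k) 1 ((d : ℝ) + 1) (ENNReal.ofReal C0)
      (closedBall 0 1) b := by
    intro k
    exact tower_wb h𝓑 hc0 (by positivity) hΛN (hb N hN) hT hB k
  have hm := moment_le hd hN hK0 hS0 hσ hσ1 hω hsep hf hs hbm hβ hC00 hW
  refine hD hN hY ω f hf _ hcard (hm.trans ?_) p hp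
  apply ENNReal.ofReal_le_ofReal
  have hC0p : C0 ^ (1 / (d : ℝ)) ≤ cr ^ (1 / (d : ℝ)) * (1 + M) * (a * L N) := by
    rw [hC0, Real.mul_rpow (by positivity) (by positivity), Real.mul_rpow hcr0.le (by positivity),
      ← Real.rpow_natCast (Λ N), ← Real.rpow_mul hΛN.le, mul_one_div_cancel hd0.ne', Real.rpow_one]
    have h1 : (1 + (M : ℝ)) ^ (1 / (d : ℝ)) ≤ 1 + M := by
      calc (1 + (M : ℝ)) ^ (1 / (d : ℝ)) ≤ (1 + (M : ℝ)) ^ (1 : ℝ) := by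
            apply Real.rpow_le_rpow_of_exponent_le (by linarith)
            rw [div_le_one hd0]; exact hd1
        _ = _ := Real.rpow_one _
    gcongr
    exact hΛL N hN
  calc (6 * (3 * d + 2) / σ) ^ (d + 1) * (2 ^ (d + 2) * (4 * d + 8)) * om d *
        ((1 + K + S) ^ (d + 2) * C0 ^ (1 / (d : ℝ))) * N ^ (2 * (d + 1))
      ≤ (6 * (3 * d + 2) / σ) ^ (d + 1) * (2 ^ (d + 2) * (4 * d + 8)) * om d *
        ((1 + K + S) ^ (d + 2) * (cr ^ (1 / (d : ℝ)) * (1 + M) * (a * L N))) * N ^ (2 * (d + 1)) := by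
        gcongr
    _ = _ := by rw [hE]; ring

theorem rough_compare (d : ℕ) (hd : 1 ≤ d) (σ κ : ℝ) (hσ : 0 < σ) (hσ1 : σ ≤ 1) (hκ : 0 < κ) :
    ∃ C : ℝ, 0 < C ∧ ∀ (M K S : ℝ≥0) (B : Set (Vec d)) (b : Vec d → Vec d),
      KTower (Rough univ) d (d + 1) M B b → volume (closedBall (0 : Vec d) 1 \ B) = 0 →
      ∀ N : ℝ, 1 ≤ N → ∀ (ι : Type) [Fintype ι] (ω β : ι → Vec d) (s : ι → ℝ)
        (f : ι → Fin d → Space d), (∀ i, ‖ω i‖ ≤ 1) → (∀ i j, i ≠ j → σ / N ≤ ‖ω i - ω j‖) →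
        κ * N ^ d ≤ (Fintype.card ι : ℝ) →
        (∀ i, Orthonormal ℝ (Fin.cons (nor (ω i)) (f i) : Fin (d + 1) → Space d)) →
        (∀ i, |s i| ≤ S * N ^ 2) →
        (∀ i v, ‖v‖ ≤ 1 → ‖v - ω i‖ ≤ σ / (2 * N) → ‖β i - N ^ 2 • b v‖ ≤ K * N) →
        ∀ p : ℝ≥0∞, 1 ≤ p →
          eLpNorm (fun y : Space d => ∑ i, (box N (nor (ω i)) (f i)
            (WithLp.toLp 2 (β i + s i • (-(2 : ℝ) • ω i), s i))).indicator (fun _ => (1 : ℝ)) y) p volume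
          ≤ ENNReal.ofReal (C * ((1 + M) * (1 + K + S : ℝ) ^ (d + 2) * (1 + Real.log N)) ^
              min ((d : ℝ) * (1 - 1 / p.toReal)) (1 / p.toReal)) *
            eLpNorm (fun y : Space d => ∑ i,
              (box N (nor (ω i)) (f i) 0).indicator (fun _ => (1 : ℝ)) y) p volume := by
  have key : ∀ N : ℝ, 1 ≤ N → Real.log (1 / (1 / (4 * N))) = Real.log 4 + Real.log N := by
    intro N hN
    rw [one_div_one_div, Real.log_mul (by norm_num) (by positivity)]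
  have h4 : Real.log 4 ≤ 2 := by
    have h3 : (4:ℝ) = 2 ^ 2 := by norm_num
    rw [h3, Real.log_pow]
    have := Real.log_two_lt_d9
    push_cast
    linarith
  have h40 : 0 ≤ Real.log 4 := Real.log_nonneg (by norm_num)
  refine tower_compare d hd σ κ hσ hσ1 hκ (rough_reg univ) c0_ne_top
    (fun N => 1 + Real.log (1 / (1 / (4 * N)))) (fun N => 1 + Real.log N) 3 (by norm_num) ?_ ?_ ?_ ?_
  · intro N hN
    have := Real.log_nonneg hN
    rw [key N hN]; linarith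
  · intro N hN
    have := Real.log_nonneg hN
    linarith
  · intro N hN
    have := Real.log_nonneg hN
    rw [key N hN]; linarith
  · intro N hN k
    exact rough_bd MeasurableSet.univ (by positivity) (by
      rw [div_lt_one (by positivity)]; linarith) k

theorem all_compare (d : ℕ) (hd : 1 ≤ d) (σ κ ε : ℝ) (hσ : 0 < σ) (hσ1 : σ ≤ 1) (hκ : 0 < κ)
    (hε : 0 < ε) (A : ℕ → ℝ) :
    ∃ C : ℝ, 0 < C ∧ ∀ (M K S : ℝ≥0) (B : Set (Vec d)) (b : Vec d → Vec d),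
      KTower (AllB univ A) d (d + 1) M B b → volume (closedBall (0 : Vec d) 1 \ B) = 0 →
      ∀ N : ℝ, 1 ≤ N → ∀ (ι : Type) [Fintype ι] (ω β : ι → Vec d) (s : ι → ℝ)
        (f : ι → Fin d → Space d), (∀ i, ‖ω i‖ ≤ 1) → (∀ i j, i ≠ j → σ / N ≤ ‖ω i - ω j‖) →
        κ * N ^ d ≤ (Fintype.card ι : ℝ) →
        (∀ i, Orthonormal ℝ (Fin.cons (nor (ω i)) (f i) : Fin (d + 1) → Space d)) →
        (∀ i, |s i| ≤ S * N ^ 2) →
        (∀ i v, ‖v‖ ≤ 1 → ‖v - ω i‖ ≤ σ / (2 * N) → ‖β i - N ^ 2 • b v‖ ≤ K * N) →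
        ∀ p : ℝ≥0∞, 1 ≤ p →
          eLpNorm (fun y : Space d => ∑ i, (box N (nor (ω i)) (f i)
            (WithLp.toLp 2 (β i + s i • (-(2 : ℝ) • ω i), s i))).indicator (fun _ => (1 : ℝ)) y) p volume
          ≤ ENNReal.ofReal (C * ((1 + M) * (1 + K + S : ℝ) ^ (d + 2) * N ^ ε) ^
              min ((d : ℝ) * (1 - 1 / p.toReal)) (1 / p.toReal)) *
            eLpNorm (fun y : Space d => ∑ i,
              (box N (nor (ω i)) (f i) 0).indicator (fun _ => (1 : ℝ)) y) p volume := by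
  obtain ⟨c, hc, hbd⟩ := allB_bd A ε hε
  refine tower_compare d hd σ κ hσ hσ1 hκ (allB_reg univ A) hc
    (fun N => (1 / (4 * N)) ^ (-ε)) (fun N => N ^ ε) (4 ^ ε) (by positivity) ?_ ?_ ?_ ?_
  · intro N hN
    positivity
  · intro N hN
    exact Real.one_le_rpow hN hε.le
  · intro N hN
    rw [one_div, Real.inv_rpow (by positivity), ← Real.rpow_neg (by positivity), neg_neg,
      Real.mul_rpow (by norm_num) (by positivity)]
  · intro N hN k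
    exact hbd univ (1 / (4 * N)) k MeasurableSet.univ (by positivity) (by
      rw [div_lt_one (by positivity)]; linarith)

end Pool.Agent.TH426.Kt
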