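import Pool.Agent.TH426.Kt.Ball

set_option autoImplicit false

/-!
Window bounds for families of lines and their closure properties.
-/

open MeasureTheory Set ENNReal Metric

namespace Pool.Agent.TH426.Kt

open Pool.Agent.H803R2.Kak Pool.Agent.H803R2.KakFTO

/-- The lines of the family `b`, parametrised by the height. -/
def lin {d : ℕ} (b : Vec d → Vec d) (v : Vec d) (t : ℝ) : Vec d := b v + t • v

/-- Bound for the averages over the parts of height in `J` of the slanted tubes of radius `r`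
around the lines of the family `b` with directions in `B`. -/
def Wb {d : ℕ} (r : ℝ) (J : Set ℝ) (l p : ℝ) (C : ℝ≥0∞) (B : Set (Vec d))
    (b : Vec d → Vec d) : Prop :=
  ∀ g : Vec d × ℝ → ℝ≥0∞, Measurable g →
    ∫⁻ v in B, W r J (lin b) g v ^ (l * p) ≤ C * (∫⁻ t in J, ∫⁻ x, g (x, t) ^ p) ^ l

variable {d d1 d2 : ℕ}

theorem measurable_lin {b : Vec d → Vec d} (hb : Measurable b) :
    Measurable (Function.uncurry (lin b)) := by
  unfold Function.uncurry lin
  exact (hb.comp measurable_fst).add (measurable_snd.smul measurable_fst)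

theorem Wb.mono {r : ℝ} {J : Set ℝ} {l p : ℝ} {C C' : ℝ≥0∞} {B B' : Set (Vec d)}
    {b : Vec d → Vec d} (h : Wb r J l p C B b) (hC : C ≤ C') (hB : B' ⊆ B) : Wb r J l p C' B' b := by
  intro g hg
  refine (lintegral_mono_set hB).trans ((h g hg).trans ?_)
  gcongr

theorem Wb.congr {r : ℝ} {J : Set ℝ} {l p : ℝ} {C : ℝ≥0∞} {B : Set (Vec d)}
    {b b' : Vec d → Vec d} (hB : MeasurableSet B) (h : Wb r J l p C B b)
    (hbb : ∀ v ∈ B, b' v = b v) : Wb r J l p C B b' := by
  intro g hg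
  refine le_trans (le_of_eq ?_) (h g hg)
  apply setLIntegral_congr_fun hB
  intro v hv
  simp only [W, lin, hbb v hv]

theorem Wb.iUnion {r : ℝ} {J : Set ℝ} {l p : ℝ} {C : ℕ → ℝ≥0∞} {B : ℕ → Set (Vec d)}
    {b : Vec d → Vec d} (h : ∀ j, Wb r J l p (C j) (B j) b) :
    Wb r J l p (∑' j, C j) (⋃ j, B j) b := by
  intro g hg
  refine (lintegral_iUnion_le _ _).trans ?_
  rw [← ENNReal.tsum_mul_right]
  exact ENNReal.tsum_le_tsum fun j => h j g hg

/-- Change of the radius. -/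
theorem Wb.radius {r R : ℝ} (hr : 0 < r) (hrR : r ≤ R) {J : Set ℝ} {l p : ℝ} (hlp : 1 ≤ l * p)
    {C : ℝ≥0∞} {B : Set (Vec d)} {b : Vec d → Vec d} (hb : Measurable b)
    (h : Wb r J l p C B b) : Wb R J l p ((2 ^ d) ^ (l * p) * C) B b := by
  intro g hg
  have hlin : ∀ v, Measurable (lin b v) := fun v => (measurable_lin hb).comp measurable_prodMk_left
  have hgu : Measurable (Function.uncurry (fun (u : Vec d) (z : Vec d × ℝ) => g (z.1 + u, z.2))) := by
    apply hg.comp
    exact ((measurable_fst.comp measurable_snd).add measurable_fst).prodMk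
      (measurable_snd.comp measurable_snd)
  have hW := measurable_W (U := Vec d) r J (measurable_lin hb) hgu
  have hpt : ∀ v, W R J (lin b) g v ^ (l * p) ≤ (2 ^ d) ^ (l * p) *
      ∫⁻ u, W r J (lin b) (fun z => g (z.1 + u, z.2)) v ^ (l * p) ∂(nb d R) := by
    intro v
    calc W R J (lin b) g v ^ (l * p)
        ≤ (2 ^ d * ∫⁻ u, W r J (lin b) (fun z => g (z.1 + u, z.2)) v ∂(nb d R)) ^ (l * p) := by
          apply ENNReal.rpow_le_rpow (W_scale hr hrR J hlin hg v) (by linarith)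
      _ = (2 ^ d) ^ (l * p) * (∫⁻ u, W r J (lin b) (fun z => g (z.1 + u, z.2)) v ∂(nb d R)) ^ (l * p) := by
          rw [ENNReal.mul_rpow_of_nonneg _ _ (by linarith)]
      _ ≤ _ := by
          gcongr
          exact jensen _ (nb_univ d R) hlp (hW.comp measurable_prodMk_left).aemeasurable
  calc ∫⁻ v in B, W R J (lin b) g v ^ (l * p)
      ≤ ∫⁻ v in B, (2 ^ d) ^ (l * p) *
        ∫⁻ u, W r J (lin b) (fun z => g (z.1 + u, z.2)) v ^ (l * p) ∂(nb d R) := lintegral_mono hpt
    _ = (2 ^ d) ^ (l * p) * ∫⁻ v in B,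
        ∫⁻ u, W r J (lin b) (fun z => g (z.1 + u, z.2)) v ^ (l * p) ∂(nb d R) := by
        rw [lintegral_const_mul]
        exact (hW.pow_const _).lintegral_prod_right'
    _ = (2 ^ d) ^ (l * p) * ∫⁻ u, (∫⁻ v in B,
        W r J (lin b) (fun z => g (z.1 + u, z.2)) v ^ (l * p)) ∂(nb d R) := by
        congr 1
        exact lintegral_lintegral_swap (μ := volume.restrict B) (ν := nb d R)
          (f := fun v u => W r J (lin b) (fun z => g (z.1 + u, z.2)) v ^ (l * p))
          (hW.pow_const _).aemeasurable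
    _ ≤ (2 ^ d) ^ (l * p) * ∫⁻ u, C * (∫⁻ t in J, ∫⁻ x, g (x, t) ^ p) ^ l ∂(nb d R) := by
        gcongr with u
        have hgm : Measurable (fun z : Vec d × ℝ => g (z.1 + u, z.2)) :=
          hgu.comp measurable_prodMk_left
        refine (h _ hgm).trans (le_of_eq ?_)
        congr 3
        ext t
        exact lintegral_add_right_eq_self (fun x => g (x, t) ^ p) u
    _ ≤ (2 ^ d) ^ (l * p) * (C * (∫⁻ t in J, ∫⁻ x, g (x, t) ^ p) ^ l) := by
        gcongr
        rw [lintegral_const]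
        calc _ ≤ C * (∫⁻ t in J, ∫⁻ x, g (x, t) ^ p) ^ l * 1 := by
              gcongr
              exact nb_univ d R
          _ = _ := mul_one _
    _ = _ := by ring

section skew

/-- The coordinates given by an orthogonal splitting. -/
noncomputable def spl (Φ : Vec d ≃ₗᵢ[ℝ] WithLp 2 (Vec d1 × Vec d2)) (v : Vec d) : Vec d1 × Vec d2 :=
  WithLp.ofLp (Φ v)

/-- The inverse map. -/
noncomputable def unspl (Φ : Vec d ≃ₗᵢ[ℝ] WithLp 2 (Vec d1 × Vec d2)) (z : Vec d1 × Vec d2) : Vec d :=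
  Φ.symm (WithLp.toLp 2 z)

variable (Φ : Vec d ≃ₗᵢ[ℝ] WithLp 2 (Vec d1 × Vec d2))

theorem unspl_spl (v : Vec d) : unspl Φ (spl Φ v) = v := by
  simp [unspl, spl]

theorem spl_unspl (z : Vec d1 × Vec d2) : spl Φ (unspl Φ z) = z := by
  simp [unspl, spl]

theorem spl_add (v w : Vec d) : spl Φ (v + w) = spl Φ v + spl Φ w := by
  simp [spl]

theorem spl_smul (t : ℝ) (v : Vec d) : spl Φ (t • v) = t • spl Φ v := by
  simp [spl]

theorem mp_spl : MeasurePreserving (spl Φ) volume volume :=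
  (WithLp.volume_preserving_ofLp (Vec d1) (Vec d2)).comp Φ.measurePreserving

theorem mp_unspl : MeasurePreserving (unspl Φ) volume volume :=
  Φ.symm.measurePreserving.comp (WithLp.volume_preserving_toLp (Vec d1) (Vec d2))

theorem norm_spl_fst_le (v : Vec d) : ‖(spl Φ v).1‖ ≤ ‖v‖ := by
  have h := WithLp.prod_norm_sq_eq_of_L2 (Φ v)
  rw [Φ.norm_map] at h
  have h2 : ‖(spl Φ v).1‖ ^ 2 ≤ ‖v‖ ^ 2 := by
    rw [h]
    have : 0 ≤ ‖(Φ v).snd‖ ^ 2 := by positivity
    change ‖(Φ v).fst‖ ^ 2 ≤ _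
    linarith
  exact le_of_sq_le_sq h2 (norm_nonneg _)

theorem norm_spl_snd_le (v : Vec d) : ‖(spl Φ v).2‖ ≤ ‖v‖ := by
  have h := WithLp.prod_norm_sq_eq_of_L2 (Φ v)
  rw [Φ.norm_map] at h
  have h2 : ‖(spl Φ v).2‖ ^ 2 ≤ ‖v‖ ^ 2 := by
    rw [h]
    have : 0 ≤ ‖(Φ v).fst‖ ^ 2 := by positivity
    change ‖(Φ v).snd‖ ^ 2 ≤ _
    linarith
  exact le_of_sq_le_sq h2 (norm_nonneg _)

include Φ in
theorem dim_eq : d = d1 + d2 := by
  have h := Φ.toLinearEquiv.finrank_eq
  have h2 : Module.finrank ℝ (WithLp 2 (Vec d1 × Vec d2)) = d1 + d2 := by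
    rw [(WithLp.linearEquiv 2 ℝ (Vec d1 × Vec d2)).finrank_eq, Module.finrank_prod]
    simp
  rw [h2] at h
  simpa using h

/-- Ratio of the volumes of the product of two balls and the ball. -/
noncomputable def kap (d1 d2 : ℕ) : ℝ≥0∞ :=
  volume (closedBall (0 : Vec d1) 1) * volume (closedBall (0 : Vec d2) 1) *
    (volume (closedBall (0 : Vec (d1 + d2)) 1))⁻¹

theorem kap_ne_top (d1 d2 : ℕ) : kap d1 d2 ≠ ∞ := by
  unfold kap
  apply ENNReal.mul_ne_top (ENNReal.mul_ne_top (vol_lt_top (d := d1)).ne (vol_lt_top (d := d2)).ne)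
  exact ENNReal.inv_ne_top.2 (vol_pos (d := d1 + d2) one_pos).ne'

theorem kap_ne_zero (d1 d2 : ℕ) : kap d1 d2 ≠ 0 := by
  unfold kap
  apply mul_ne_zero (mul_ne_zero (vol_pos (d := d1) one_pos).ne' (vol_pos (d := d2) one_pos).ne')
  exact ENNReal.inv_ne_zero.2 (vol_lt_top (d := d1 + d2)).ne

theorem nb_prod {r : ℝ} (hr : 0 < r) {F : Vec d → ℝ≥0∞} (hF : Measurable F) :
    ∫⁻ w, F w ∂(nb d r) ≤ kap d1 d2 * ∫⁻ w2, ∫⁻ w1, F (unspl Φ (w1, w2)) ∂(nb d1 r) ∂(nb d2 r) := by
  have hd := dim_eq Φ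
  set B := closedBall (0 : Vec d) r with hB
  set B1 := closedBall (0 : Vec d1) r with hB1
  set B2 := closedBall (0 : Vec d2) r with hB2
  have hFu : Measurable (fun z : Vec d1 × Vec d2 => F (unspl Φ z)) := hF.comp (mp_unspl Φ).measurable
  have h1 : ∫⁻ w in B, F w ≤ ∫⁻ w2 in B2, ∫⁻ w1 in B1, F (unspl Φ (w1, w2)) := by
    calc ∫⁻ w in B, F w = ∫⁻ w, B.indicator F w := (lintegral_indicator measurableSet_closedBall _).symm
      _ = ∫⁻ z : Vec d1 × Vec d2, B.indicator F (unspl Φ z) :=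
          ((mp_unspl Φ).lintegral_comp (hF.indicator measurableSet_closedBall)).symm
      _ ≤ ∫⁻ z : Vec d1 × Vec d2, (B1 ×ˢ B2).indicator (fun z => F (unspl Φ z)) z := by
          apply lintegral_mono
          intro z
          simp only
          by_cases hz : unspl Φ z ∈ B
          · rw [indicator_of_mem hz, indicator_of_mem]
            have hz' : ‖unspl Φ z‖ ≤ r := by simpa [hB] using hz
            have e1 := norm_spl_fst_le Φ (unspl Φ z)
            have e2 := norm_spl_snd_le Φ (unspl Φ z)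
            rw [spl_unspl] at e1 e2
            refine ⟨?_, ?_⟩
            · rw [hB1, mem_closedBall, dist_zero_right]; linarith
            · rw [hB2, mem_closedBall, dist_zero_right]; linarith
          · simp only [indicator_of_notMem hz]; exact zero_le
      _ = ∫⁻ z in B1 ×ˢ B2, F (unspl Φ z) :=
          lintegral_indicator (measurableSet_closedBall.prod measurableSet_closedBall) _
      _ = ∫⁻ z, F (unspl Φ z) ∂((volume.restrict B1).prod (volume.restrict B2)) := by
          rw [Measure.prod_restrict]; rfl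
      _ = _ := lintegral_prod_symm _ hFu.aemeasurable
  have hr0 : ENNReal.ofReal r ≠ 0 := by simpa using hr
  have hrt : ENNReal.ofReal r ≠ ∞ := ENNReal.ofReal_ne_top
  have hv1 : volume B1 ≠ 0 := (vol_pos (d := d1) hr).ne'
  have hv1t : volume B1 ≠ ∞ := (vol_lt_top (d := d1)).ne
  have hv2 : volume B2 ≠ 0 := (vol_pos (d := d2) hr).ne'
  have hv2t : volume B2 ≠ ∞ := (vol_lt_top (d := d2)).ne
  have hkap : (volume B)⁻¹ = kap d1 d2 * ((volume B2)⁻¹ * (volume B1)⁻¹) := by
    unfold kap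
    have hu1 : volume (closedBall (0 : Vec d1) 1) ≠ 0 := (vol_pos (d := d1) one_pos).ne'
    have hu1t : volume (closedBall (0 : Vec d1) 1) ≠ ∞ := (vol_lt_top (d := d1)).ne
    have hu2 : volume (closedBall (0 : Vec d2) 1) ≠ 0 := (vol_pos (d := d2) one_pos).ne'
    have hu2t : volume (closedBall (0 : Vec d2) 1) ≠ ∞ := (vol_lt_top (d := d2)).ne
    rw [hB, hB1, hB2, vol_ball_scale (d := d) hr, vol_ball_scale (d := d1) hr,
      vol_ball_scale (d := d2) hr]
    subst hd
    have hp1 : ENNReal.ofReal r ^ d1 ≠ 0 := pow_ne_zero _ hr0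
    have hp1t : ENNReal.ofReal r ^ d1 ≠ ∞ := ENNReal.pow_ne_top hrt
    have hp2 : ENNReal.ofReal r ^ d2 ≠ 0 := pow_ne_zero _ hr0
    have hp2t : ENNReal.ofReal r ^ d2 ≠ ∞ := ENNReal.pow_ne_top hrt
    rw [ENNReal.mul_inv (Or.inl (by rw [pow_add]; exact mul_ne_zero hp1 hp2))
      (Or.inl (by rw [pow_add]; exact ENNReal.mul_ne_top hp1t hp2t)),
      ENNReal.mul_inv (Or.inl hp1) (Or.inl hp1t), ENNReal.mul_inv (Or.inl hp2) (Or.inl hp2t),
      pow_add, ENNReal.mul_inv (Or.inl hp1) (Or.inl hp1t)]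
    set u1 := volume (closedBall (0 : Vec d1) 1)
    set u2 := volume (closedBall (0 : Vec d2) 1)
    set u := volume (closedBall (0 : Vec (d1 + d2)) 1)
    calc (ENNReal.ofReal r ^ d1)⁻¹ * (ENNReal.ofReal r ^ d2)⁻¹ * u⁻¹
        = (u1 * u1⁻¹) * (u2 * u2⁻¹) * ((ENNReal.ofReal r ^ d1)⁻¹ * (ENNReal.ofReal r ^ d2)⁻¹ * u⁻¹) := by
          rw [ENNReal.mul_inv_cancel hu1 hu1t, ENNReal.mul_inv_cancel hu2 hu2t, one_mul, one_mul]
      _ = _ := by ring
  have hin : ∀ w2, ∫⁻ w1, F (unspl Φ (w1, w2)) ∂(nb d1 r) =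
      (volume B1)⁻¹ * ∫⁻ w1 in B1, F (unspl Φ (w1, w2)) := fun w2 => lintegral_nb r _
  rw [lintegral_nb, lintegral_nb]
  simp only [hin]
  rw [lintegral_const_mul, hkap]
  · calc kap d1 d2 * ((volume B2)⁻¹ * (volume B1)⁻¹) * ∫⁻ w in B, F w
        ≤ kap d1 d2 * ((volume B2)⁻¹ * (volume B1)⁻¹) *
          ∫⁻ w2 in B2, ∫⁻ w1 in B1, F (unspl Φ (w1, w2)) := by gcongr
      _ = _ := by ring
  · exact hFu.lintegral_prod_left'

/-- Closure under skew products. -/
theorem Wb.skew {r : ℝ} (hr : 0 < r) {J : Set ℝ} {l p1 p2 : ℝ} (hl : 0 < l) (hp1 : 1 ≤ p1)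
    (hp2 : 1 ≤ p2) {C1 C2 : ℝ≥0∞} (hC2 : C2 ≠ 0) (hC2' : C2 ≠ ∞) {B : Set (Vec d)}
    {B1 : Set (Vec d1)} {B2 : Vec d1 → Set (Vec d2)} (hB1 : MeasurableSet B1)
    (hB2 : MeasurableSet {z : Vec d1 × Vec d2 | z.1 ∈ B1 ∧ z.2 ∈ B2 z.1}) (hB : MeasurableSet B)
    {b : Vec d → Vec d} {b1 : Vec d1 → Vec d1} {b2 : Vec d1 → Vec d2 → Vec d2}
    (hb1 : Measurable b1) (hb2 : Measurable (Function.uncurry b2))
    (hbB : ∀ v ∈ B, (spl Φ v).1 ∈ B1 ∧ (spl Φ v).2 ∈ B2 (spl Φ v).1 ∧
      spl Φ (b v) = (b1 (spl Φ v).1, b2 (spl Φ v).1 (spl Φ v).2))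
    (h1 : Wb r J l p1 C1 B1 b1) (h2 : ∀ v1 ∈ B1, Wb r J l p2 C2 (B2 v1) (b2 v1)) :
    Wb r J l (p1 + p2 - 1) (kap d1 d2 ^ (l * (p1 + p2 - 1)) * (C1 * C2)) B b := by
  intro g hg
  set p := p1 + p2 - 1 with hp
  have hlp : 0 < l * p := by
    apply mul_pos hl
    rw [hp]; linarith
  set f : Vec d1 × (Vec d2 × ℝ) → ℝ≥0∞ := fun x => g (unspl Φ (x.1, x.2.1), x.2.2) with hf
  have hfm : Measurable f := by
    apply hg.comp
    exact ((mp_unspl Φ).measurable.comp (measurable_fst.prodMk (measurable_fst.comp measurable_snd))).prodMk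
      (measurable_snd.comp measurable_snd)
  set γ1 : Vec d1 → ℝ → Vec d1 := lin b1 with hγ1
  set γ2 : Vec d1 → Vec d2 → ℝ → Vec d2 := fun v1 => lin (b2 v1) with hγ2
  set Q : Vec d1 × Vec d2 → ℝ≥0∞ := fun z => WW r J γ1 γ2 f z.1 z.2 with hQ
  have hQm : Measurable Q := by
    have m1 : Measurable (fun q : ((Vec d1 × Vec d2) × ℝ) × Vec d2 => γ2 q.1.1.1 q.1.1.2 q.1.2 + q.2) := by
      have m2 : Measurable (fun q : ((Vec d1 × Vec d2) × ℝ) × Vec d2 => b2 q.1.1.1 q.1.1.2) :=
        hb2.comp ((measurable_fst.comp (measurable_fst.comp measurable_fst)).prodMk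
          (measurable_snd.comp (measurable_fst.comp measurable_fst)))
      exact (m2.add ((measurable_snd.comp measurable_fst).smul
        (measurable_snd.comp (measurable_fst.comp measurable_fst)))).add measurable_snd
    have m3 : Measurable (fun q : (((Vec d1 × Vec d2) × ℝ) × Vec d2) × Vec d1 =>
        γ1 q.1.1.1.1 q.1.1.2 + q.2) := by
      have m4 : Measurable (fun q : (((Vec d1 × Vec d2) × ℝ) × Vec d2) × Vec d1 => b1 q.1.1.1.1) :=
        hb1.comp (measurable_fst.comp (measurable_fst.comp (measurable_fst.comp measurable_fst)))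
      exact (m4.add ((measurable_snd.comp (measurable_fst.comp measurable_fst)).smul
        (measurable_fst.comp (measurable_fst.comp (measurable_fst.comp measurable_fst))))).add
        measurable_snd
    have m5 : Measurable (fun q : (((Vec d1 × Vec d2) × ℝ) × Vec d2) × Vec d1 =>
        f (γ1 q.1.1.1.1 q.1.1.2 + q.2, (γ2 q.1.1.1.1 q.1.1.1.2 q.1.1.2 + q.1.2, q.1.1.2))) :=
      hfm.comp (m3.prodMk ((m1.comp measurable_fst).prodMk
        (measurable_snd.comp (measurable_fst.comp measurable_fst))))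
    have m6 : Measurable (fun q : ((Vec d1 × Vec d2) × ℝ) × Vec d2 => ∫⁻ w1,
        f (γ1 q.1.1.1 q.1.2 + w1, (γ2 q.1.1.1 q.1.1.2 q.1.2 + q.2, q.1.2)) ∂(nb d1 r)) :=
      m5.lintegral_prod_right'
    have m7 : Measurable (fun q : (Vec d1 × Vec d2) × ℝ => ∫⁻ w2, ∫⁻ w1,
        f (γ1 q.1.1 q.2 + w1, (γ2 q.1.1 q.1.2 q.2 + w2, q.2)) ∂(nb d1 r) ∂(nb d2 r)) :=
      m6.lintegral_prod_right'
    exact m7.lintegral_prod_right'
  have hpt : ∀ v ∈ B, W r J (lin b) g v ≤ kap d1 d2 * Q (spl Φ v) := by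
    intro v hv
    obtain ⟨hv1, hv2, hbv⟩ := hbB v hv
    have hs : ∀ t : ℝ, ∀ w1 : Vec d1, ∀ w2 : Vec d2,
        lin b v t + unspl Φ (w1, w2) =
          unspl Φ (γ1 (spl Φ v).1 t + w1, γ2 (spl Φ v).1 (spl Φ v).2 t + w2) := by
      intro t w1 w2
      rw [← unspl_spl Φ (lin b v t + unspl Φ (w1, w2))]
      congr 1
      rw [spl_add, spl_unspl, lin, spl_add, spl_smul, hbv]
      rfl
    have hm0 : Measurable (fun q : ℝ × Vec d => g (lin b v q.1 + q.2, q.1)) := by
      apply hg.comp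
      have : Measurable (fun q : ℝ × Vec d => lin b v q.1) := by
        unfold lin
        exact measurable_const.add (measurable_fst.smul measurable_const)
      exact (this.add measurable_snd).prodMk measurable_fst
    calc W r J (lin b) g v
        ≤ ∫⁻ t in J, kap d1 d2 * ∫⁻ w2, ∫⁻ w1, g (lin b v t + unspl Φ (w1, w2), t) ∂(nb d1 r) ∂(nb d2 r) := by
          unfold W
          apply lintegral_mono
          intro t
          exact nb_prod Φ hr (F := fun w => g (lin b v t + w, t)) (hm0.comp measurable_prodMk_left)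
      _ = kap d1 d2 * ∫⁻ t in J, ∫⁻ w2, ∫⁻ w1, g (lin b v t + unspl Φ (w1, w2), t) ∂(nb d1 r) ∂(nb d2 r) :=
          lintegral_const_mul' _ _ (kap_ne_top d1 d2)
      _ = kap d1 d2 * Q (spl Φ v) := by
          simp only [hs]
          rfl
  set S : Set (Vec d1 × Vec d2) := {z | z.1 ∈ B1 ∧ z.2 ∈ B2 z.1} with hS
  calc ∫⁻ v in B, W r J (lin b) g v ^ (l * p)
      ≤ ∫⁻ v in B, kap d1 d2 ^ (l * p) * Q (spl Φ v) ^ (l * p) := by
        apply setLIntegral_mono' hB
        intro v hv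
        rw [← ENNReal.mul_rpow_of_nonneg _ _ hlp.le]
        exact ENNReal.rpow_le_rpow (hpt v hv) hlp.le
    _ = kap d1 d2 ^ (l * p) * ∫⁻ v in B, Q (spl Φ v) ^ (l * p) :=
        lintegral_const_mul' _ _ (ENNReal.rpow_ne_top_of_nonneg hlp.le (kap_ne_top d1 d2))
    _ ≤ kap d1 d2 ^ (l * p) * ∫⁻ v, S.indicator (fun z => Q z ^ (l * p)) (spl Φ v) := by
        refine mul_le_mul_right ?_ _
        rw [← lintegral_indicator hB]
        apply lintegral_mono
        intro v
        simp only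
        by_cases hv : v ∈ B
        · rw [indicator_of_mem hv, indicator_of_mem (show spl Φ v ∈ S from
            ⟨(hbB v hv).1, (hbB v hv).2.1⟩)]
        · rw [indicator_of_notMem hv]; exact zero_le
    _ = kap d1 d2 ^ (l * p) * ∫⁻ z, S.indicator (fun z => Q z ^ (l * p)) z := by
        congr 1
        exact (mp_spl Φ).lintegral_comp ((hQm.pow_const _).indicator hB2)
    _ = kap d1 d2 ^ (l * p) * ∫⁻ z1, ∫⁻ z2, S.indicator (fun z => Q z ^ (l * p)) (z1, z2) := by
        congr 1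
        rw [Measure.volume_eq_prod]
        exact lintegral_prod _ ((hQm.pow_const _).indicator hB2).aemeasurable
    _ = kap d1 d2 ^ (l * p) * ∫⁻ z1 in B1, ∫⁻ z2 in B2 z1, Q (z1, z2) ^ (l * p) := by
        congr 1
        rw [← lintegral_indicator hB1]
        apply lintegral_congr
        intro z1
        by_cases hz : z1 ∈ B1
        · rw [indicator_of_mem hz]
          have hms : MeasurableSet (B2 z1) := by
            have : B2 z1 = Prod.mk z1 ⁻¹' S := by
              ext z2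
              simp [hS, hz]
            rw [this]
            exact hB2.preimage measurable_prodMk_left
          rw [← lintegral_indicator hms]
          apply lintegral_congr
          intro z2
          by_cases hz2 : z2 ∈ B2 z1
          · rw [indicator_of_mem hz2, indicator_of_mem (show (z1, z2) ∈ S from ⟨hz, hz2⟩)]
          · rw [indicator_of_notMem hz2, indicator_of_notMem (fun h : (z1, z2) ∈ S => hz2 h.2)]
        · rw [indicator_of_notMem hz]
          have : ∀ z2, S.indicator (fun z => Q z ^ (l * p)) (z1, z2) = 0 := fun z2 =>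
            indicator_of_notMem (fun h : (z1, z2) ∈ S => hz h.1) _
          simp [this]
    _ ≤ kap d1 d2 ^ (l * p) * (C1 * C2 *
        (∫⁻ t in J, ∫⁻ x1, ∫⁻ x2, f (x1, (x2, t)) ^ p) ^ l) := by
        refine mul_le_mul_right ?_ _
        exact comp (volume.restrict B1) (fun v1 => volume.restrict (B2 v1))
          (fun v => (measurable_lin hb1).comp measurable_prodMk_left)
          (fun v1 v2 => (measurable_lin (hb2.comp measurable_prodMk_left)).comp measurable_prodMk_left)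
          hp1 hp2 hl hC2 hC2' h1 ((ae_restrict_iff' hB1).2 (Filter.Eventually.of_forall h2)) hfm
    _ = _ := by
        have e0 : ∀ t : ℝ, ∫⁻ x1 : Vec d1, ∫⁻ x2 : Vec d2, f (x1, (x2, t)) ^ p =
            ∫⁻ x : Vec d, g (x, t) ^ p := by
          intro t
          have hgt : Measurable (fun x : Vec d => g (x, t) ^ p) :=
            (hg.comp measurable_prodMk_right).pow_const _
          have e1 : ∫⁻ x1 : Vec d1, ∫⁻ x2 : Vec d2, f (x1, (x2, t)) ^ p =
              ∫⁻ z : Vec d1 × Vec d2, g (unspl Φ z, t) ^ p := by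
            rw [Measure.volume_eq_prod]
            exact (lintegral_prod (fun z : Vec d1 × Vec d2 => g (unspl Φ z, t) ^ p)
              (hgt.comp (mp_unspl Φ).measurable).aemeasurable).symm
          rw [e1]
          exact (mp_unspl Φ).lintegral_comp hgt
        simp only [e0]
        ring

end skew

end Pool.Agent.TH426.Kt
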