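import Pool.Agent.TH426.Kt.Smooth

set_option autoImplicit false

/-!
The composition theorem and the theorem on towers for the maximal function.
-/

open MeasureTheory Set ENNReal NNReal Metric Filter

namespace Pool.Agent.TH426.Kt

open Pool.Agent.H803R2.Kak Pool.Agent.H803R2.KakFTO Pool.Agent.H805R3.Kk

variable {d d1 d2 : ℕ}

/-- The constant of the composition theorem. -/
noncomputable def Kc (d1 d2 : ℕ) (l p1 p2 : ℝ) : ℝ≥0∞ :=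
  cb (d1 + d2) ^ (l * (p1 + p2 - 1)) * kap d1 d2 ^ (l * (p1 + p2 - 1)) *
    ((2 ^ d1) ^ (l * p1) * (3 * 8 ^ d1) ^ (l * p1)) * ((2 ^ d2) ^ (l * p2) * (3 * 8 ^ d2) ^ (l * p2))

theorem Kc_ne_top (d1 d2 : ℕ) {l p1 p2 : ℝ} (hl : 0 ≤ l) (hp1 : 1 ≤ p1) (hp2 : 1 ≤ p2) :
    Kc d1 d2 l p1 p2 ≠ ∞ := by
  have h1 : 0 ≤ l * (p1 + p2 - 1) := mul_nonneg hl (by linarith)
  have h2 : 0 ≤ l * p1 := mul_nonneg hl (by linarith)
  have h3 : 0 ≤ l * p2 := mul_nonneg hl (by linarith)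
  unfold Kc
  refine ENNReal.mul_ne_top (ENNReal.mul_ne_top (ENNReal.mul_ne_top ?_ ?_) (ENNReal.mul_ne_top ?_ ?_))
    (ENNReal.mul_ne_top ?_ ?_)
  · exact ENNReal.rpow_ne_top_of_nonneg h1 (cb_ne_top _)
  · exact ENNReal.rpow_ne_top_of_nonneg h1 (kap_ne_top _ _)
  · exact ENNReal.rpow_ne_top_of_nonneg h2 (ENNReal.pow_ne_top (by simp))
  · exact ENNReal.rpow_ne_top_of_nonneg h2 (ENNReal.mul_ne_top (by simp) (ENNReal.pow_ne_top (by simp)))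
  · exact ENNReal.rpow_ne_top_of_nonneg h3 (ENNReal.pow_ne_top (by simp))
  · exact ENNReal.rpow_ne_top_of_nonneg h3 (ENNReal.mul_ne_top (by simp) (ENNReal.pow_ne_top (by simp)))

/-- **Composition theorem** for Kakeya maximal estimates. -/
theorem composition (Φ : Vec d ≃ₗᵢ[ℝ] WithLp 2 (Vec d1 × Vec d2)) {δ : ℝ} (hδ : 0 < δ)
    (hδ1 : δ < 1) {T : Set ℝ} (hT : MeasurableSet T) {l p1 p2 : ℝ} (hl : 1 ≤ l) (hp1 : 1 ≤ p1)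
    (hp2 : 1 ≤ p2) {C1 C2 : ℝ≥0∞} (hC2 : C2 ≠ 0) (hC2' : C2 ≠ ∞) {B : Set (Vec d)}
    {B1 : Set (Vec d1)} {B2 : Vec d1 → Set (Vec d2)} (hB1 : MeasurableSet B1)
    (hB1' : B1 ⊆ closedBall 0 1)
    (hB2 : MeasurableSet {z : Vec d1 × Vec d2 | z.1 ∈ B1 ∧ z.2 ∈ B2 z.1})
    (hB2' : ∀ v1 ∈ B1, B2 v1 ⊆ closedBall 0 1) (hB : MeasurableSet B) (hB' : B ⊆ closedBall 0 1)
    {b b' : Vec d → Vec d} {b1 : Vec d1 → Vec d1} {b2 : Vec d1 → Vec d2 → Vec d2}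
    (hb : Measurable b) (hb1 : Measurable b1) (hb2 : Measurable (Function.uncurry b2))
    (hbB : ∀ v ∈ B, (spl Φ v).1 ∈ B1 ∧ (spl Φ v).2 ∈ B2 (spl Φ v).1 ∧
      spl Φ (b v) = (b1 (spl Φ v).1, b2 (spl Φ v).1 (spl Φ v).2))
    (hbb : ∀ v ∈ B, ‖b' v - b v‖ ≤ δ)
    (h1 : LMb δ T l p1 C1 B1 b1) (h2 : ∀ v1 ∈ B1, LMb δ T l p2 C2 (B2 v1) (b2 v1)) :
    LMb δ T l (p1 + p2 - 1) (Kc d1 d2 l p1 p2 * (C1 * C2)) B b' := by
  have hl0 : 0 < l := by linarith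
  have hlp1 : 1 ≤ l * p1 := one_le_mul_of_one_le_of_one_le hl hp1
  have hlp2 : 1 ≤ l * p2 := one_le_mul_of_one_le_of_one_le hl hp2
  have hdd := dim_eq Φ
  have hms : ∀ v1 ∈ B1, MeasurableSet (B2 v1) := by
    intro v1 hv1
    have : B2 v1 = Prod.mk v1 ⁻¹' {z : Vec d1 × Vec d2 | z.1 ∈ B1 ∧ z.2 ∈ B2 z.1} := by
      ext z2
      simp [hv1]
    rw [this]
    exact hB2.preimage measurable_prodMk_left
  set a1 : ℝ≥0∞ := (2 ^ d1) ^ (l * p1) * ((3 * 8 ^ d1) ^ (l * p1) * C1) with ha1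
  set a2 : ℝ≥0∞ := (2 ^ d2) ^ (l * p2) * ((3 * 8 ^ d2) ^ (l * p2) * C2) with ha2
  have hA : (2 ^ d2 : ℝ≥0∞) ^ (l * p2) ≠ 0 := by
    intro h0
    rcases ENNReal.rpow_eq_zero_iff.1 h0 with h | h
    · exact pow_ne_zero _ (by norm_num) h.1
    · exact ENNReal.pow_ne_top (by simp) h.1
  have hA2 : (3 * 8 ^ d2 : ℝ≥0∞) ^ (l * p2) ≠ 0 := by
    intro h0
    rcases ENNReal.rpow_eq_zero_iff.1 h0 with h | h
    · exact mul_ne_zero (by norm_num) (pow_ne_zero _ (by norm_num)) h.1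
    · exact ENNReal.mul_ne_top (by simp) (ENNReal.pow_ne_top (by simp)) h.1
  have ha20 : a2 ≠ 0 := mul_ne_zero hA (mul_ne_zero hA2 hC2)
  have ha2t : a2 ≠ ∞ := by
    refine ENNReal.mul_ne_top ?_ (ENNReal.mul_ne_top ?_ hC2')
    · exact ENNReal.rpow_ne_top_of_nonneg (by linarith) (ENNReal.pow_ne_top (by simp))
    · exact ENNReal.rpow_ne_top_of_nonneg (by linarith)
        (ENNReal.mul_ne_top (by simp) (ENNReal.pow_ne_top (by simp)))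
  have hw : ∀ k : ℤ, Wb (3 * δ) (win T k) l (p1 + p2 - 1)
      (kap d1 d2 ^ (l * (p1 + p2 - 1)) * (a1 * a2)) B b := by
    intro k
    apply Wb.skew Φ (by linarith) hl0 hp1 hp2 ha20 ha2t hB1 hB2 hB hb1 hb2 hbB
    · exact wb_of_lmb hδ hδ1 hT hl0.le (by linarith) hlp1 hB1 hB1' hb1 h1 k
    · intro v1 hv1
      exact wb_of_lmb hδ hδ1 hT hl0.le (by linarith) hlp2 (hms v1 hv1) (hB2' v1 hv1)
        (hb2.comp measurable_prodMk_left) (h2 v1 hv1) k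
  have key := LMb_of_Wb hδ hδ1 hT hl (by linarith) hB hB' hb hbb hw
  have e : cb d ^ (l * (p1 + p2 - 1)) * (kap d1 d2 ^ (l * (p1 + p2 - 1)) * (a1 * a2)) =
      Kc d1 d2 l p1 p2 * (C1 * C2) := by
    rw [ha1, ha2]
    unfold Kc
    rw [hdd]
    ring
  rw [e] at key
  exact key

/-- Towers: from the windows to the maximal function. -/
theorem tower_lmb {𝓑 : (d : ℕ) → ℝ → ℝ≥0 → Set (Vec d) → (Vec d → Vec d) → Prop}
    (h𝓑 : RegBase 𝓑) {δ : ℝ} (hδ : 0 < δ) (hδ1 : δ < 1) {T : Set ℝ} (hT : MeasurableSet T)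
    {c0 : ℕ → ℝ≥0∞} (hc0 : ∀ n, c0 n ≠ ∞) {Λ : ℝ≥0∞} (hΛ : Λ ≠ 0) (hΛt : Λ ≠ ∞)
    (hb : ∀ k : ℤ, BaseBd 𝓑 (3 * δ) (win T k) 1 c0 Λ 1) {d : ℕ} {p : ℝ} {N : ℝ≥0}
    {B : Set (Vec d)} {b b' : Vec d → Vec d} (h : KTower 𝓑 d p N B b)
    (hbb : ∀ v ∈ B, ‖b' v - b v‖ ≤ δ) :
    LMb δ T 1 p (cb d ^ ((d : ℝ) + 1) * cc c0 (KK 1) d * N * Λ ^ d) B b' := by
  rcases B.eq_empty_or_nonempty with hne | hne
  · rw [hne]
    intro f _ _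
    simp
  obtain ⟨hp1, hp2⟩ := h.expo h𝓑 hne
  obtain ⟨hB, hB1, hbm⟩ := h.meas h𝓑
  have hw : ∀ k : ℤ, Wb (3 * δ) (win T k) 1 p (cc c0 (KK 1) d * N * Λ ^ d) B b := by
    intro k
    have := h.bound h𝓑 (r := 3 * δ) (by linarith) (J := win T k) one_pos hΛ hΛt one_ne_zero
      one_ne_top hc0 (hb k)
    rwa [ENNReal.one_rpow, mul_one] at this
  have key := LMb_of_Wb hδ hδ1 hT le_rfl (by linarith) hB hB1 hbm hbb hw
  intro f hf hfT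
  refine (key f hf hfT).trans (mul_le_mul_left ?_ _)
  have h1 : cb d ^ ((1 : ℝ) * p) ≤ cb d ^ ((d : ℝ) + 1) := by
    apply ENNReal.rpow_le_rpow_of_exponent_le
    · unfold cb
      have h2 : (1 : ℝ≥0∞) ≤ 16 ^ d := one_le_pow₀ (by norm_num)
      calc (1 : ℝ≥0∞) = 1 * 1 := by norm_num
        _ ≤ 52 * 16 ^ d := by
            gcongr
            norm_num
    · linarith
  calc cb d ^ ((1 : ℝ) * p) * (cc c0 (KK 1) d * N * Λ ^ d)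
      ≤ cb d ^ ((d : ℝ) + 1) * (cc c0 (KK 1) d * N * Λ ^ d) := by gcongr
    _ = _ := by ring

end Pool.Agent.TH426.Kt
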