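import Pool.Agent.TH426.Kt.Bases
import Pool.Agent.Results.MP_5168f5_an.SmoothFamilies

set_option autoImplicit false

/-!
Smooth families as a further basic class, with the loss `δ^(-ε)`.
-/

open MeasureTheory Set ENNReal NNReal Metric Filter

namespace Pool.Agent.TH426.Kt

open Pool.Agent.H803R2.Kak Pool.Agent.H803R2.KakFTO Pool.Agent.H805R3.Kk
open Pool.Agent.Results.MP_5168f5_an.SmoothFamilies (TaylorClass)

/-- The rough classes and the smooth families with the Taylor constants `A k`. -/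
inductive AllB (T : Set ℝ) (A : ℕ → ℝ) :
    (d : ℕ) → ℝ → ℝ≥0 → Set (Vec d) → (Vec d → Vec d) → Prop
  | rough {d : ℕ} {p : ℝ} {N : ℝ≥0} {B : Set (Vec d)} {b : Vec d → Vec d}
      (h : Rough T d p N B b) : AllB T A d p N B b
  | smooth {d : ℕ} {B : Set (Vec d)} {b : Vec d → Vec d} (hd : 1 ≤ d)
      (hB : MeasurableSet B) (hB1 : B ⊆ closedBall 0 1) (hb : Measurable b)
      (hS : ∀ k, 1 ≤ k → TaylorClass k (A k) B b) : AllB T A d (d + 1) 1 B b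

theorem allB_reg (T : Set ℝ) (A : ℕ → ℝ) : RegBase (AllB T A) := by
  constructor
  · intro d p N B b h
    cases h with
    | rough h => exact (rough_reg T).meas h
    | smooth hd hB hB1 hb hS => exact ⟨hB, hB1, hb⟩
  · intro d p N B b h
    cases h with
    | rough h => exact (rough_reg T).expo h
    | smooth hd hB hB1 hb hS =>
      have : (0 : ℝ) ≤ d := Nat.cast_nonneg d
      constructor <;> linarith

/-- The loss `δ^(-ε)`. -/
noncomputable def Pw (ε δ : ℝ) : ℝ≥0∞ := ENNReal.ofReal (δ ^ (-ε))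

theorem Pw_ne_top (ε δ : ℝ) : Pw ε δ ≠ ∞ := ENNReal.ofReal_ne_top

theorem one_le_Pw {ε δ : ℝ} (hε : 0 < ε) (hδ : 0 < δ) (hδ1 : δ < 1) : 1 ≤ Pw ε δ := by
  unfold Pw
  rw [ENNReal.one_le_ofReal]
  exact Real.one_le_rpow_of_pos_of_le_one_of_nonpos hδ hδ1.le (by linarith)

/-- `1 + log (1/δ) ≤ (1 + 1/ε) δ^(-ε)`. -/
theorem log_le_pow {ε δ : ℝ} (hε : 0 < ε) (hδ : 0 < δ) (hδ1 : δ < 1) :
    1 + Real.log (1 / δ) ≤ (1 + 1 / ε) * δ ^ (-ε) := by
  have h1 : 1 ≤ δ ^ (-ε) := Real.one_le_rpow_of_pos_of_le_one_of_nonpos hδ hδ1.le (by linarith)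
  have h2 : Real.log (1 / δ) ≤ (1 / δ) ^ ε / ε := Real.log_le_rpow_div (by positivity) hε
  have h3 : (1 / δ) ^ ε = δ ^ (-ε) := by
    rw [one_div, Real.inv_rpow hδ.le, Real.rpow_neg hδ.le]
  rw [h3] at h2
  calc 1 + Real.log (1 / δ) ≤ δ ^ (-ε) + δ ^ (-ε) / ε := add_le_add h1 h2
    _ = _ := by ring

theorem Lg_le_Pw {ε δ : ℝ} (hε : 0 < ε) (hδ : 0 < δ) (hδ1 : δ < 1) :
    Lg δ ≤ ENNReal.ofReal (1 + 1 / ε) * Pw ε δ := by
  unfold Lg Pw
  rw [← ENNReal.ofReal_mul (by positivity)]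
  exact ENNReal.ofReal_le_ofReal (log_le_pow hε hδ hδ1)

theorem smooth_lmb (d : ℕ) (hd : 1 ≤ d) (A : ℕ → ℝ) (ε : ℝ) (hε : 0 < ε) : ∃ C : ℝ, 0 < C ∧
    ∀ (T : Set ℝ) (δ : ℝ) (B : Set (Vec d)) (b : Vec d → Vec d), 0 < δ → δ < 1 →
      MeasurableSet B → B ⊆ closedBall 0 1 → (∀ k, 1 ≤ k → TaylorClass k (A k) B b) →
      LMb δ T 1 (d + 1) (ENNReal.ofReal C * Pw ε δ ^ d) B b := by
  obtain ⟨k, hk⟩ := exists_nat_gt (2 / ε)
  have hk0 : (0 : ℝ) < k := lt_trans (by positivity) hk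
  have hk1 : 1 ≤ k := by
    have : 0 < k := by exact_mod_cast hk0
    exact this
  obtain ⟨C, hC, h⟩ := Pool.Agent.Results.MP_5168f5_an.SmoothFamilies.result d k hd hk1
  set a : ℝ := max 1 (A k) with ha
  have ha1 : 1 ≤ a := le_max_left _ _
  refine ⟨C * a ^ ((d : ℝ) / k) * (1 + 2 / ε) ^ d, by positivity, ?_⟩
  intro T δ B b hδ hδ1 hB hB1 hS
  have hT : TaylorClass k a B b := by
    intro v₀ hv₀
    obtain ⟨P, hP, hPb⟩ := hS k hk1 v₀ hv₀
    refine ⟨P, hP, fun v hv => (hPb v hv).trans ?_⟩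
    gcongr
    exact le_max_right _ _
  apply lmb_of_nat
  intro f hf _
  refine (h a B b δ f ha1 hB hB1 hT hδ hδ1 hf.aemeasurable).trans ?_
  gcongr
  unfold Pw
  rw [← ENNReal.ofReal_pow (by positivity), ← ENNReal.ofReal_mul (by positivity)]
  apply ENNReal.ofReal_le_ofReal
  have hd0 : (0 : ℝ) ≤ d := Nat.cast_nonneg d
  have e1 : (a / δ) ^ ((d:ℝ) / k) ≤ a ^ ((d : ℝ) / k) * (δ ^ (-(ε / 2))) ^ d := by
    rw [Real.div_rpow (by positivity) hδ.le, div_eq_mul_inv, ← Real.rpow_neg hδ.le]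
    gcongr
    rw [← Real.rpow_natCast, ← Real.rpow_mul hδ.le]
    apply Real.rpow_le_rpow_of_exponent_ge hδ hδ1.le
    have : (d : ℝ) / k ≤ (ε / 2) * d := by
      rw [div_le_iff₀ hk0]
      have h3 : 1 ≤ ε / 2 * k := by
        rw [div_lt_iff₀ hε] at hk
        linarith
      nlinarith
    linarith
  have e2 : (1 + Real.log (1 / δ)) ^ d ≤ ((1 + 2 / ε) * δ ^ (-(ε / 2))) ^ d := by
    have h0 : 0 ≤ Real.log (1 / δ) := Real.log_nonneg (by rw [le_div_iff₀ hδ]; linarith)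
    apply pow_le_pow_left₀ (by linarith)
    have := log_le_pow (ε := ε / 2) (by linarith) hδ hδ1
    have h4 : 1 / (ε / 2) = 2 / ε := by field_simp
    rwa [h4] at this
  have e3 : (δ ^ (-(ε / 2))) ^ d * (δ ^ (-(ε / 2))) ^ d = (δ ^ (-ε)) ^ d := by
    rw [← mul_pow, ← Real.rpow_add hδ]
    congr 2
    ring
  calc C * (a / δ) ^ ((d:ℝ) / k) * (1 + Real.log (1 / δ)) ^ d
      ≤ C * (a ^ ((d : ℝ) / k) * (δ ^ (-(ε / 2))) ^ d) * ((1 + 2 / ε) * δ ^ (-(ε / 2))) ^ d := by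
        have h0 : 0 ≤ Real.log (1 / δ) := Real.log_nonneg (by rw [le_div_iff₀ hδ]; linarith)
        gcongr
    _ = C * a ^ ((d : ℝ) / k) * (1 + 2 / ε) ^ d * ((δ ^ (-(ε / 2))) ^ d * (δ ^ (-(ε / 2))) ^ d) := by
        rw [mul_pow (1 + 2 / ε)]; ring
    _ = _ := by rw [e3]

/-- The constants of all basic classes. -/
noncomputable def cS (C : ℕ → ℝ) (ε : ℝ) (d : ℕ) : ℝ≥0∞ :=
  c0 d * ENNReal.ofReal (1 + 1 / ε) ^ d +
    (2 ^ d) ^ ((1 : ℝ) * (d + 1)) * ((3 * 8 ^ d) ^ ((1 : ℝ) * (d + 1)) * ENNReal.ofReal (C d))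

/-- The window bounds for all basic classes, with the loss `δ^(-ε)`. -/
theorem allB_bd (A : ℕ → ℝ) (ε : ℝ) (hε : 0 < ε) : ∃ c : ℕ → ℝ≥0∞, (∀ d, c d ≠ ∞) ∧
    ∀ (T : Set ℝ) (δ : ℝ) (k : ℤ), MeasurableSet T → 0 < δ → δ < 1 →
      BaseBd (AllB T A) (3 * δ) (win T k) 1 c (Pw ε δ) 1 := by
  choose! C hC h using fun (d : ℕ) (hd : 1 ≤ d) => smooth_lmb d hd A ε hε
  refine ⟨cS C ε, ?_, ?_⟩
  · intro d
    unfold cS
    have h0 : (0 : ℝ) ≤ 1 * ((d : ℝ) + 1) := by positivity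
    apply ENNReal.add_ne_top.2
    refine ⟨ENNReal.mul_ne_top (c0_ne_top d) (ENNReal.pow_ne_top ENNReal.ofReal_ne_top), ?_⟩
    apply ENNReal.mul_ne_top
    · exact ENNReal.rpow_ne_top_of_nonneg h0 (ENNReal.pow_ne_top (by simp))
    · apply ENNReal.mul_ne_top _ ENNReal.ofReal_ne_top
      exact ENNReal.rpow_ne_top_of_nonneg h0 (ENNReal.mul_ne_top (by simp) (ENNReal.pow_ne_top (by simp)))
  · intro T δ k hT hδ hδ1 d p N B b hb
    cases hb with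
    | rough hb =>
      refine (rough_bd hT hδ hδ1 k hb).mono ?_ subset_rfl
      simp only [ENNReal.one_rpow, mul_one]
      calc c0 d * N * Lg δ ^ d ≤ c0 d * N * (ENNReal.ofReal (1 + 1 / ε) * Pw ε δ) ^ d := by
            gcongr
            exact Lg_le_Pw hε hδ hδ1
        _ = (c0 d * ENNReal.ofReal (1 + 1 / ε) ^ d) * N * Pw ε δ ^ d := by
            rw [mul_pow]; ring
        _ ≤ cS C ε d * N * Pw ε δ ^ d := by
            have h9 : c0 d * ENNReal.ofReal (1 + 1 / ε) ^ d ≤ cS C ε d := le_self_add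
            gcongr
    | smooth hd hB hB1 hbm hS =>
      have h0 : (0 : ℝ) ≤ d := Nat.cast_nonneg d
      refine (wb_of_lmb hδ hδ1 hT zero_le_one (by linarith) (by linarith) hB hB1 hbm
        (h d hd T δ B b hδ hδ1 hB hB1 hS) k).mono ?_ subset_rfl
      rw [ENNReal.one_rpow, mul_one]
      calc (2 ^ d) ^ ((1 : ℝ) * (d + 1)) * ((3 * 8 ^ d) ^ ((1 : ℝ) * (d + 1)) *
            (ENNReal.ofReal (C d) * Pw ε δ ^ d))
          = ((2 ^ d) ^ ((1 : ℝ) * (d + 1)) * ((3 * 8 ^ d) ^ ((1 : ℝ) * (d + 1)) *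
            ENNReal.ofReal (C d))) * (1 : ℝ≥0) * Pw ε δ ^ d := by
            rw [ENNReal.coe_one]; ring
        _ ≤ _ := by
            gcongr
            exact le_add_self

end Pool.Agent.TH426.Kt
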