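import Pool.Agent.TH426.Kt.Back

set_option autoImplicit false

/-!
Towers of families of lines: the abstract closure theorem.
-/

open MeasureTheory Set ENNReal NNReal Metric Filter

namespace Pool.Agent.TH426.Kt

open Pool.Agent.H803R2.Kak Pool.Agent.H803R2.KakFTO

/-- Towers over a class `𝓑` of families of lines.  `KTower 𝓑 d p N B b`: the family `b` of lines of
`ℝ^{d+1}` with directions in `B` is a tower with exponent `p` and multiplicity `N`. -/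
inductive KTower (𝓑 : (d : ℕ) → ℝ → ℝ≥0 → Set (Vec d) → (Vec d → Vec d) → Prop) :
    (d : ℕ) → ℝ → ℝ≥0 → Set (Vec d) → (Vec d → Vec d) → Prop
  | base {d : ℕ} {p : ℝ} {N : ℝ≥0} {B : Set (Vec d)} {b : Vec d → Vec d} (h : 𝓑 d p N B b) :
      KTower 𝓑 d p N B b
  | union {d : ℕ} {p : ℝ} {M : ℝ≥0} (N : ℕ → ℝ≥0) (B : ℕ → Set (Vec d)) {b : Vec d → Vec d}
      (h : ∀ j, KTower 𝓑 d p (N j) (B j) b) (hM : ∑' j, (N j : ℝ≥0∞) ≤ M) :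
      KTower 𝓑 d p M (⋃ j, B j) b
  | skew {d d1 d2 : ℕ} {p1 p2 : ℝ} {N1 N2 : ℝ≥0} {B : Set (Vec d)} {B1 : Set (Vec d1)}
      {B2 : Vec d1 → Set (Vec d2)} {b : Vec d → Vec d} {b1 : Vec d1 → Vec d1}
      {b2 : Vec d1 → Vec d2 → Vec d2} (Φ : Vec d ≃ₗᵢ[ℝ] WithLp 2 (Vec d1 × Vec d2))
      (hd1 : 1 ≤ d1) (hd2 : 1 ≤ d2) (hN2 : 0 < N2)
      (h1 : KTower 𝓑 d1 p1 N1 B1 b1) (h2 : ∀ v1 ∈ B1, KTower 𝓑 d2 p2 N2 (B2 v1) (b2 v1))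
      (hB2 : MeasurableSet {z : Vec d1 × Vec d2 | z.1 ∈ B1 ∧ z.2 ∈ B2 z.1})
      (hb2 : Measurable (Function.uncurry b2)) (hB : MeasurableSet B) (hB1 : B ⊆ closedBall 0 1)
      (hb : Measurable b)
      (hbB : ∀ v ∈ B, (spl Φ v).1 ∈ B1 ∧ (spl Φ v).2 ∈ B2 (spl Φ v).1 ∧
        spl Φ (b v) = (b1 (spl Φ v).1, b2 (spl Φ v).1 (spl Φ v).2)) :
      KTower 𝓑 d (p1 + p2 - 1) (N1 * N2) B b

/-- Constants that absorb the constants of the composition theorem. -/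
noncomputable def cc (c0 : ℕ → ℝ≥0∞) (K : ℕ → ℕ → ℝ≥0∞) : ℕ → ℝ≥0∞
  | n => c0 n + 1 + ∑ i : Fin n, ∑ j : Fin n, K i j * (cc c0 K i * cc c0 K j)
termination_by n => n

theorem cc_eq (c0 : ℕ → ℝ≥0∞) (K : ℕ → ℕ → ℝ≥0∞) (n : ℕ) :
    cc c0 K n = c0 n + 1 + ∑ i : Fin n, ∑ j : Fin n, K i j * (cc c0 K i * cc c0 K j) := by
  rw [cc]

theorem le_cc (c0 : ℕ → ℝ≥0∞) (K : ℕ → ℕ → ℝ≥0∞) (n : ℕ) : c0 n ≤ cc c0 K n := by
  rw [cc_eq, add_assoc]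
  exact le_self_add

theorem one_le_cc (c0 : ℕ → ℝ≥0∞) (K : ℕ → ℕ → ℝ≥0∞) (n : ℕ) : 1 ≤ cc c0 K n := by
  rw [cc_eq, add_comm (c0 n) 1, add_assoc]
  exact le_self_add

theorem cc_mul_le (c0 : ℕ → ℝ≥0∞) (K : ℕ → ℕ → ℝ≥0∞) {i j : ℕ} (hi : 1 ≤ i) (hj : 1 ≤ j) :
    K i j * (cc c0 K i * cc c0 K j) ≤ cc c0 K (i + j) := by
  rw [cc_eq c0 K (i + j)]
  calc K i j * (cc c0 K i * cc c0 K j)
      ≤ ∑ j' : Fin (i + j), K i j' * (cc c0 K i * cc c0 K j') :=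
        Finset.single_le_sum (f := fun j' : Fin (i + j) => K i j' * (cc c0 K i * cc c0 K j'))
          (fun _ _ => zero_le) (Finset.mem_univ (⟨j, by omega⟩ : Fin (i + j)))
    _ ≤ ∑ i' : Fin (i + j), ∑ j' : Fin (i + j), K i' j' * (cc c0 K i' * cc c0 K j') :=
        Finset.single_le_sum (f := fun i' : Fin (i + j) =>
          ∑ j' : Fin (i + j), K i' j' * (cc c0 K i' * cc c0 K j'))
          (fun _ _ => zero_le) (Finset.mem_univ (⟨i, by omega⟩ : Fin (i + j)))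
    _ ≤ _ := le_add_self

theorem cc_ne_top {c0 : ℕ → ℝ≥0∞} {K : ℕ → ℕ → ℝ≥0∞} (h0 : ∀ n, c0 n ≠ ∞) (hK : ∀ i j, K i j ≠ ∞)
    (n : ℕ) : cc c0 K n ≠ ∞ := by
  induction n using Nat.strong_induction_on with
  | _ n ih =>
    rw [cc_eq]
    apply ENNReal.add_ne_top.2
    refine ⟨ENNReal.add_ne_top.2 ⟨h0 n, one_ne_top⟩, ?_⟩
    apply ENNReal.sum_ne_top.2
    intro i _
    apply ENNReal.sum_ne_top.2
    intro j _
    exact ENNReal.mul_ne_top (hK _ _) (ENNReal.mul_ne_top (ih i i.2) (ih j j.2))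

/-- The constants of the composition theorem. -/
noncomputable def KK (l : ℝ) (i j : ℕ) : ℝ≥0∞ := max 1 (kap i j) ^ (l * ((i : ℝ) + j + 1))

theorem KK_ne_top {l : ℝ} (hl : 0 ≤ l) (i j : ℕ) : KK l i j ≠ ∞ := by
  unfold KK
  apply ENNReal.rpow_ne_top_of_nonneg (by positivity)
  exact (max_lt one_lt_top (kap_ne_top i j).lt_top).ne

/-- The basic properties of a class of families of lines. -/
structure RegBase (𝓑 : (d : ℕ) → ℝ → ℝ≥0 → Set (Vec d) → (Vec d → Vec d) → Prop) : Prop where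
  meas : ∀ {d p N B b}, 𝓑 d p N B b → MeasurableSet B ∧ B ⊆ closedBall 0 1 ∧ Measurable b
  expo : ∀ {d p N B b}, 𝓑 d p N B b → 1 ≤ p ∧ p ≤ d + 1

variable {𝓑 : (d : ℕ) → ℝ → ℝ≥0 → Set (Vec d) → (Vec d → Vec d) → Prop}

theorem KTower.meas (h𝓑 : RegBase 𝓑) {d : ℕ} {p : ℝ} {N : ℝ≥0} {B : Set (Vec d)}
    {b : Vec d → Vec d} (h : KTower 𝓑 d p N B b) :
    MeasurableSet B ∧ B ⊆ closedBall 0 1 ∧ Measurable b := by
  induction h with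
  | base h => exact h𝓑.meas h
  | union N B h hM ih =>
    exact ⟨MeasurableSet.iUnion fun j => (ih j).1, iUnion_subset fun j => (ih j).2.1, (ih 0).2.2⟩
  | skew Φ hd1 hd2 hN2 h1 h2 hB2 hb2 hB hB1 hb hbB ih1 ih2 => exact ⟨hB, hB1, hb⟩

theorem KTower.expo (h𝓑 : RegBase 𝓑) {d : ℕ} {p : ℝ} {N : ℝ≥0} {B : Set (Vec d)}
    {b : Vec d → Vec d} (h : KTower 𝓑 d p N B b) (hne : B.Nonempty) : 1 ≤ p ∧ p ≤ d + 1 := by
  induction h with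
  | base h => exact h𝓑.expo h
  | union N B h hM ih =>
    obtain ⟨v, hv⟩ := hne
    obtain ⟨j, hj⟩ := mem_iUnion.1 hv
    exact ih j ⟨v, hj⟩
  | @skew d d1 d2 p1 p2 N1 N2 B B1 B2 b b1 b2 Φ hd1 hd2 hN2 h1 h2 hB2 hb2 hB hB1 hb hbB ih1 ih2 =>
    obtain ⟨v, hv⟩ := hne
    obtain ⟨hv1, hv2, _⟩ := hbB v hv
    obtain ⟨a1, a2⟩ := ih1 ⟨_, hv1⟩
    obtain ⟨a3, a4⟩ := ih2 _ hv1 ⟨_, hv2⟩
    have hd : (d : ℝ) = d1 + d2 := by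
      have := dim_eq Φ
      exact_mod_cast this
    rw [hd]
    constructor <;> linarith

/-- The class `𝓑` satisfies the window bounds with the constants `c d`. -/
def BaseBd (𝓑 : (d : ℕ) → ℝ → ℝ≥0 → Set (Vec d) → (Vec d → Vec d) → Prop) (r : ℝ) (J : Set ℝ)
    (l : ℝ) (c : ℕ → ℝ≥0∞) (Λ μ : ℝ≥0∞) : Prop :=
  ∀ {d : ℕ} {p : ℝ} {N : ℝ≥0} {B : Set (Vec d)} {b : Vec d → Vec d}, 𝓑 d p N B b →
    Wb r J l p (c d * N * Λ ^ d * μ ^ ((d : ℝ) + 1 - p)) B b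

theorem Wb_empty {d : ℕ} {r : ℝ} {J : Set ℝ} {l p : ℝ} {C : ℝ≥0∞} {b : Vec d → Vec d} :
    Wb r J l p C ∅ b := by
  intro g _
  simp

/-- **Closure theorem for towers.** -/
theorem KTower.bound (h𝓑 : RegBase 𝓑) {r : ℝ} (hr : 0 < r) {J : Set ℝ} {l : ℝ} (hl : 0 < l)
    {c0 : ℕ → ℝ≥0∞} {Λ μ : ℝ≥0∞} (hΛ : Λ ≠ 0) (hΛt : Λ ≠ ∞) (hμ : μ ≠ 0) (hμt : μ ≠ ∞)
    (hc0 : ∀ n, c0 n ≠ ∞) (hb : BaseBd 𝓑 r J l c0 Λ μ) {d : ℕ} {p : ℝ} {N : ℝ≥0}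
    {B : Set (Vec d)} {b : Vec d → Vec d} (h : KTower 𝓑 d p N B b) :
    Wb r J l p (cc c0 (KK l) d * N * Λ ^ d * μ ^ ((d : ℝ) + 1 - p)) B b := by
  induction h with
  | @base d p N B b h =>
    refine (hb h).mono ?_ subset_rfl
    gcongr
    exact le_cc c0 (KK l) d
  | @union d p M N B b h hM ih =>
    refine (Wb.iUnion ih).mono ?_ subset_rfl
    calc ∑' j, cc c0 (KK l) d * (N j : ℝ≥0∞) * Λ ^ d * μ ^ ((d : ℝ) + 1 - p)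
        = cc c0 (KK l) d * (∑' j, (N j : ℝ≥0∞)) * Λ ^ d * μ ^ ((d : ℝ) + 1 - p) := by
          rw [ENNReal.tsum_mul_right, ENNReal.tsum_mul_right, ENNReal.tsum_mul_left]
      _ ≤ _ := by gcongr
  | @skew d d1 d2 p1 p2 N1 N2 B B1 B2 b b1 b2 Φ hd1 hd2 hN2 h1 h2 hB2 hb2 hB hB1 hb hbB ih1 ih2 =>
    rcases B.eq_empty_or_nonempty with hne | hne
    · rw [hne]; exact Wb_empty
    obtain ⟨v, hv⟩ := hne
    obtain ⟨hv1, hv2, _⟩ := hbB v hv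
    obtain ⟨a1, a2⟩ := h1.expo h𝓑 ⟨_, hv1⟩
    obtain ⟨a3, a4⟩ := (h2 _ hv1).expo h𝓑 ⟨_, hv2⟩
    have hdd := dim_eq Φ
    have hC2 : cc c0 (KK l) d2 * (N2 : ℝ≥0∞) * Λ ^ d2 * μ ^ ((d2 : ℝ) + 1 - p2) ≠ 0 := by
      have e1 : cc c0 (KK l) d2 ≠ 0 := (lt_of_lt_of_le one_pos (one_le_cc c0 (KK l) d2)).ne'
      have e2 : (N2 : ℝ≥0∞) ≠ 0 := by exact_mod_cast hN2.ne'
      have e3 : μ ^ ((d2 : ℝ) + 1 - p2) ≠ 0 := by
        intro h0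
        rcases ENNReal.rpow_eq_zero_iff.1 h0 with h | h
        · exact hμ h.1
        · exact hμt h.1
      exact mul_ne_zero (mul_ne_zero (mul_ne_zero e1 e2) (pow_ne_zero _ hΛ)) e3
    have hC2' : cc c0 (KK l) d2 * (N2 : ℝ≥0∞) * Λ ^ d2 * μ ^ ((d2 : ℝ) + 1 - p2) ≠ ∞ := by
      have e1 : cc c0 (KK l) d2 ≠ ∞ := cc_ne_top hc0 (KK_ne_top hl.le) d2
      have e3 : μ ^ ((d2 : ℝ) + 1 - p2) ≠ ∞ :=
        ENNReal.rpow_ne_top_of_nonneg (by linarith) hμt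
      exact ENNReal.mul_ne_top (ENNReal.mul_ne_top (ENNReal.mul_ne_top e1 ENNReal.coe_ne_top)
        (ENNReal.pow_ne_top hΛt)) e3
    have hB1m := (h1.meas h𝓑).1
    have key := Wb.skew Φ hr hl a1 a3 hC2 hC2' hB1m hB2 hB (h1.meas h𝓑).2.2 hb2 hbB ih1 ih2
    refine key.mono ?_ subset_rfl
    have hlp : 0 ≤ l * (p1 + p2 - 1) := mul_nonneg hl.le (by linarith)
    have hkap : kap d1 d2 ^ (l * (p1 + p2 - 1)) ≤ KK l d1 d2 := by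
      unfold KK
      calc kap d1 d2 ^ (l * (p1 + p2 - 1)) ≤ max 1 (kap d1 d2) ^ (l * (p1 + p2 - 1)) := by
            gcongr
            exact le_max_right _ _
        _ ≤ max 1 (kap d1 d2) ^ (l * ((d1 : ℝ) + d2 + 1)) := by
            apply ENNReal.rpow_le_rpow_of_exponent_le (le_max_left _ _)
            gcongr
            linarith
    have hmu : μ ^ ((d1 : ℝ) + 1 - p1) * μ ^ ((d2 : ℝ) + 1 - p2) =
        μ ^ ((d : ℝ) + 1 - (p1 + p2 - 1)) := by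
      rw [← ENNReal.rpow_add _ _ hμ hμt]
      congr 1
      rw [hdd]; push_cast; ring
    calc kap d1 d2 ^ (l * (p1 + p2 - 1)) *
          (cc c0 (KK l) d1 * (N1 : ℝ≥0∞) * Λ ^ d1 * μ ^ ((d1 : ℝ) + 1 - p1) *
          (cc c0 (KK l) d2 * (N2 : ℝ≥0∞) * Λ ^ d2 * μ ^ ((d2 : ℝ) + 1 - p2)))
        ≤ KK l d1 d2 *
          (cc c0 (KK l) d1 * (N1 : ℝ≥0∞) * Λ ^ d1 * μ ^ ((d1 : ℝ) + 1 - p1) *
          (cc c0 (KK l) d2 * (N2 : ℝ≥0∞) * Λ ^ d2 * μ ^ ((d2 : ℝ) + 1 - p2))) := by gcongr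
      _ = (KK l d1 d2 * (cc c0 (KK l) d1 * cc c0 (KK l) d2)) * (N1 * N2 : ℝ≥0∞) *
          Λ ^ (d1 + d2) * (μ ^ ((d1 : ℝ) + 1 - p1) * μ ^ ((d2 : ℝ) + 1 - p2)) := by
          rw [pow_add]; ring
      _ ≤ cc c0 (KK l) (d1 + d2) * (N1 * N2 : ℝ≥0∞) *
          Λ ^ (d1 + d2) * (μ ^ ((d1 : ℝ) + 1 - p1) * μ ^ ((d2 : ℝ) + 1 - p2)) := by
          gcongr
          exact cc_mul_le c0 (KK l) hd1 hd2
      _ = _ := by
          rw [hmu, ← hdd, ENNReal.coe_mul]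

end Pool.Agent.TH426.Kt
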