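import Pool.Agent.TH426.Kt.Good

set_option autoImplicit false

/-!
Transfer between the maximal function over the tubes of length one with axis on a line of the
family and the window bounds.
-/

open MeasureTheory Set ENNReal Metric Filter

namespace Pool.Agent.TH426.Kt

open Pool.Agent.H803R2.Kak Pool.Agent.H803R2.KakFTO

variable {d : ℕ}

/-- `f` vanishes at the heights outside `T`. -/
def VanOff (T : Set ℝ) (f : Space d → ℝ) : Prop :=
  ∀ (y : Vec d) (t : ℝ), t ∉ T → f (WithLp.toLp 2 (y, t)) = 0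

/-- Kakeya maximal estimate for the family `b`, the directions in `B` and the width `δ`:
`∫_B (M f) ^ (l p) ≤ C (∫ |f| ^ p) ^ l` for the functions living at heights in `T`. -/
def LMb (δ : ℝ) (T : Set ℝ) (l p : ℝ) (C : ℝ≥0∞) (B : Set (Vec d)) (b : Vec d → Vec d) : Prop :=
  ∀ f : Space d → ℝ, Measurable f → VanOff T f →
    ∫⁻ v in B, lineMax δ b f v ^ (l * p) ≤ C * (∫⁻ y, ‖f y‖ₑ ^ p) ^ l

theorem W_moll {r : ℝ} {J : Set ℝ} (b : Vec d → Vec d) (g : Vec d × ℝ → ℝ≥0∞) (v : Vec d) :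
    W r J (lin b) g v = ∫⁻ t in J, moll r g (b v + t • v, t) := by
  unfold W lin
  simp only [moll_eq]

theorem vol_tube_le {δ : ℝ} (hδ : 0 < δ) (hδ1 : δ < 1) (b : Vec d → Vec d) {v : Vec d}
    (hv : ‖v‖ ≤ 1) (s : ℝ) :
    volume (tube δ (dir v) (linePt b v s)) ≤ 3 * volume (closedBall (0 : Vec d) (2 * δ)) := by
  have h := lintegral_tube_le hδ hδ1 b hv s (g := fun _ => 1) measurable_const
  rw [setLIntegral_one] at h
  refine h.trans ?_
  rw [mul_comm]
  gcongr
  calc ∫⁻ t in Icc (s - 3/2) (s - 3/2 + 3),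
          moll (2*δ) (fun p : (Vec d) × ℝ => (1 : ℝ≥0∞)) (b v + t • v, t)
      ≤ ∫⁻ t in Icc (s - 3/2) (s - 3/2 + 3), 1 := by
        apply lintegral_mono
        intro t
        simp only [moll_eq, lintegral_one]
        exact nb_univ d _
    _ = 3 := by
        rw [setLIntegral_one, Real.volume_Icc]
        have : s - 3 / 2 + 3 - (s - 3 / 2) = 3 := by ring
        rw [this]
        simp

theorem ball_8 {δ : ℝ} (hδ : 0 < δ) :
    volume (closedBall (0:(Vec d)) (2*δ)) = 8 ^ d * volume (closedBall (0:(Vec d)) (δ/4)) := by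
  rw [vol_ball_scale (d := d) (r := 2*δ) (by linarith),
    vol_ball_scale (d := d) (r := δ/4) (by linarith), ← mul_assoc, ← mul_pow]
  congr 2
  have : (8:ℝ≥0∞) = ENNReal.ofReal 8 := by simp
  rw [this, ← ENNReal.ofReal_mul (by norm_num)]
  congr 1
  ring

/-- Lower bound for the maximal function. -/
theorem W_le_lineMax {δ : ℝ} (hδ : 0 < δ) (hδ1 : δ < 1) (b : Vec d → Vec d) {v : Vec d}
    (hv : ‖v‖ ≤ 1) {J : Set ℝ} {s : ℝ} (hJ : J ⊆ Icc (s - 1/8) (s + 1/8))
    {f : Space d → ℝ} (hf : Measurable f) :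
    W (δ / 4) J (lin b) (fun p => ‖f (WithLp.toLp 2 p)‖ₑ) v ≤ (3 * 8 ^ d) * lineMax δ b f v := by
  have hmp := WithLp.volume_preserving_toLp (Vec d) ℝ
  have hme : MeasurableEmbedding (WithLp.toLp 2 : (Vec d) × ℝ → Space d) :=
    (MeasurableEquiv.toLp 2 ((Vec d) × ℝ)).measurableEmbedding
  have hfm : Measurable (fun p : Vec d × ℝ => ‖f (WithLp.toLp 2 p)‖ₑ) :=
    (hf.comp hmp.measurable).enorm
  set Tb := tube δ (dir v) (linePt b v s) with hTb
  set V := volume (closedBall (0:(Vec d)) (δ/4)) with hV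
  have hV0 : V ≠ 0 := (vol_pos (d := d) (r := δ / 4) (by linarith)).ne'
  have hVt : V ≠ ∞ := (vol_lt_top (d := d) (r := δ / 4)).ne
  have h1 : V * W (δ / 4) J (lin b) (fun p => ‖f (WithLp.toLp 2 p)‖ₑ) v ≤ ∫⁻ y in Tb, ‖f y‖ₑ := by
    calc V * W (δ / 4) J (lin b) (fun p => ‖f (WithLp.toLp 2 p)‖ₑ) v
        ≤ V * W (δ / 4) (Icc (s - 1/8) (s + 1/8)) (lin b) (fun p => ‖f (WithLp.toLp 2 p)‖ₑ) v := by
          unfold W
          gcongr
      _ = ∫⁻ t in Icc (s - 1/8) (s + 1/8), ∫⁻ w in closedBall (0 : Vec d) (δ / 4),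
            ‖f (WithLp.toLp 2 (b v + t • v + w, t))‖ₑ := by
          unfold W
          rw [← lintegral_const_mul' _ _ hVt]
          apply lintegral_congr
          intro t
          rw [lintegral_nb, ← mul_assoc, ENNReal.mul_inv_cancel hV0 hVt, one_mul]
          rfl
      _ = ∫⁻ p in {p : (Vec d) × ℝ | p.2 ∈ Icc (s - 1/8) (s + 1/8) ∧ ‖p.1 - (b v + p.2 • v)‖ ≤ δ/4},
            ‖f (WithLp.toLp 2 p)‖ₑ :=
          (lintegral_box hfm (fun t => b v + t • v) (measurable_line b v) _ measurableSet_Icc _).symm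
      _ ≤ ∫⁻ p in WithLp.toLp 2 ⁻¹' Tb, ‖f (WithLp.toLp 2 p)‖ₑ := by
          apply lintegral_mono_set
          rintro ⟨z, t⟩ ⟨ht, hz⟩
          exact subset_tube hδ hδ1 b hv s ht hz
      _ = ∫⁻ y in Tb, ‖f y‖ₑ :=
          hmp.setLIntegral_comp_preimage_emb hme (fun y => ‖f y‖ₑ) Tb
  have h2 : volume Tb ≤ 3 * 8 ^ d * V := by
    refine (vol_tube_le hδ hδ1 b hv s).trans (le_of_eq ?_)
    rw [ball_8 hδ, mul_assoc]
  have h3 : (volume Tb)⁻¹ * ∫⁻ y in Tb, ‖f y‖ₑ ≤ lineMax δ b f v := by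
    unfold lineMax
    exact le_iSup (fun s : ℝ => (volume (tube δ (dir v) (linePt b v s)))⁻¹ *
      ∫⁻ y in tube δ (dir v) (linePt b v s), ‖f y‖ₑ) s
  have hK0 : (3 * 8 ^ d : ℝ≥0∞) ≠ 0 := by
    apply mul_ne_zero (by norm_num) (pow_ne_zero _ (by norm_num))
  have hKt : (3 * 8 ^ d : ℝ≥0∞) ≠ ∞ := ENNReal.mul_ne_top (by simp) (ENNReal.pow_ne_top (by simp))
  calc W (δ / 4) J (lin b) (fun p => ‖f (WithLp.toLp 2 p)‖ₑ) v
      = (3 * 8 ^ d) * ((3 * 8 ^ d * V)⁻¹ * (V * W (δ / 4) J (lin b) (fun p => ‖f (WithLp.toLp 2 p)‖ₑ) v)) := by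
        rw [ENNReal.mul_inv (Or.inl hK0) (Or.inl hKt)]
        calc _ = ((3 * 8 ^ d) * (3 * 8 ^ d)⁻¹) * ((V⁻¹ * V) *
              W (δ / 4) J (lin b) (fun p => ‖f (WithLp.toLp 2 p)‖ₑ) v) := by
              rw [ENNReal.mul_inv_cancel hK0 hKt, ENNReal.inv_mul_cancel hV0 hVt, one_mul, one_mul]
          _ = _ := by ring
    _ ≤ (3 * 8 ^ d) * ((volume Tb)⁻¹ * ∫⁻ y in Tb, ‖f y‖ₑ) := by gcongr
    _ ≤ _ := by gcongr

/-- From the maximal function to windows. -/
theorem Wb_of_LMb {δ : ℝ} (hδ : 0 < δ) (hδ1 : δ < 1) {T : Set ℝ} {l p : ℝ} (hl : 0 ≤ l)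
    (hp : 0 < p) {C : ℝ≥0∞} {B : Set (Vec d)} (hB : MeasurableSet B) (hB1 : B ⊆ closedBall 0 1)
    {b : Vec d → Vec d} (hb : Measurable b) (h : LMb δ T l p C B b) {J : Set ℝ}
    (hJm : MeasurableSet J) {s : ℝ} (hJ : J ⊆ Icc (s - 1/8) (s + 1/8)) (hJT : J ⊆ T) :
    Wb (δ / 4) J l p ((3 * 8 ^ d) ^ (l * p) * C) B b := by
  have hmp := WithLp.volume_preserving_toLp (Vec d) ℝ
  have hlp : 0 ≤ l * p := mul_nonneg hl hp.le
  intro g hg
  set gn : ℕ → Vec d × ℝ → ℝ≥0∞ := fun n z => min (g z) n with hgn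
  have hgnm : ∀ n, Measurable (gn n) := fun n => hg.min measurable_const
  set fn : ℕ → Space d → ℝ := fun n y =>
    (J.indicator (fun _ => (1 : ℝ)) (WithLp.ofLp y).2) * (gn n (WithLp.ofLp y)).toReal with hfn
  have hfnm : ∀ n, Measurable (fn n) := by
    intro n
    have hof : Measurable (WithLp.ofLp : Space d → Vec d × ℝ) :=
      (WithLp.volume_preserving_ofLp (Vec d) ℝ).measurable
    apply Measurable.mul
    · exact (measurable_const.indicator hJm).comp (measurable_snd.comp hof)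
    · exact ((hgnm n).comp hof).ennreal_toReal
  have hfnv : ∀ n, VanOff T (fn n) := by
    intro n y t ht
    have : t ∉ J := fun h => ht (hJT h)
    simp [hfn, this]
  have hnt : ∀ n z, gn n z ≠ ∞ := fun n z => ne_top_of_le_ne_top (ENNReal.natCast_ne_top n) (min_le_right _ _)
  have hfe : ∀ n (x : Vec d) (t : ℝ), ‖fn n (WithLp.toLp 2 (x, t))‖ₑ =
      J.indicator (fun _ => gn n (x, t)) t := by
    intro n x t
    by_cases ht : t ∈ J
    · simp only [hfn, indicator_of_mem ht, one_mul]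
      rw [Real.enorm_eq_ofReal ENNReal.toReal_nonneg, ENNReal.ofReal_toReal (hnt n _)]
    · simp only [hfn, indicator_of_notMem ht, zero_mul]
      simp
  have hWn : ∀ n, ∀ v, W (δ / 4) J (lin b) (gn n) v =
      W (δ / 4) J (lin b) (fun p => ‖fn n (WithLp.toLp 2 p)‖ₑ) v := by
    intro n v
    unfold W
    apply setLIntegral_congr_fun hJm
    intro t ht
    simp only [hfe, indicator_of_mem ht]
  have hint : ∀ n, ∫⁻ y, ‖fn n y‖ₑ ^ p = ∫⁻ t in J, ∫⁻ x, gn n (x, t) ^ p := by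
    intro n
    have e1 : ∫⁻ y, ‖fn n y‖ₑ ^ p = ∫⁻ z : Vec d × ℝ, ‖fn n (WithLp.toLp 2 z)‖ₑ ^ p :=
      (hmp.lintegral_comp (f := fun y : Space d => ‖fn n y‖ₑ ^ p) ((hfnm n).enorm.pow_const _)).symm
    have hm : Measurable (fun z : Vec d × ℝ => ‖fn n (WithLp.toLp 2 z)‖ₑ ^ p) :=
      ((hfnm n).comp hmp.measurable).enorm.pow_const _
    rw [e1, Measure.volume_eq_prod, lintegral_prod_symm _ hm.aemeasurable, ← lintegral_indicator hJm]
    apply lintegral_congr
    intro t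
    by_cases ht : t ∈ J
    · simp only [hfe, indicator_of_mem ht]
    · simp only [hfe, indicator_of_notMem ht, ENNReal.zero_rpow_of_pos hp, lintegral_zero]
  have hstep : ∀ n, ∫⁻ v in B, W (δ / 4) J (lin b) (gn n) v ^ (l * p) ≤
      (3 * 8 ^ d) ^ (l * p) * C * (∫⁻ t in J, ∫⁻ x, g (x, t) ^ p) ^ l := by
    intro n
    calc ∫⁻ v in B, W (δ / 4) J (lin b) (gn n) v ^ (l * p)
        ≤ ∫⁻ v in B, (3 * 8 ^ d) ^ (l * p) * lineMax δ b (fn n) v ^ (l * p) := by
          apply setLIntegral_mono' hB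
          intro v hv
          rw [hWn, ← ENNReal.mul_rpow_of_nonneg _ _ hlp]
          apply ENNReal.rpow_le_rpow _ hlp
          exact W_le_lineMax hδ hδ1 b (by simpa using hB1 hv) hJ (hfnm n)
      _ = (3 * 8 ^ d) ^ (l * p) * ∫⁻ v in B, lineMax δ b (fn n) v ^ (l * p) := by
          apply lintegral_const_mul'
          exact ENNReal.rpow_ne_top_of_nonneg hlp
            (ENNReal.mul_ne_top (by simp) (ENNReal.pow_ne_top (by simp)))
      _ ≤ (3 * 8 ^ d) ^ (l * p) * (C * (∫⁻ t in J, ∫⁻ x, g (x, t) ^ p) ^ l) := by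
          gcongr
          refine (h (fn n) (hfnm n) (hfnv n)).trans ?_
          rw [hint]
          gcongr with t x
          exact min_le_left _ _
      _ = _ := by ring
  have hmono : Monotone gn := by
    intro m n hmn z
    apply min_le_min le_rfl
    exact_mod_cast hmn
  have hsup : ∀ z, ⨆ n, gn n z = g z := by
    intro z
    apply le_antisymm (iSup_le fun n => min_le_left _ _)
    apply le_of_forall_lt
    intro c hc
    obtain ⟨n, hn⟩ := ENNReal.exists_nat_gt (ne_top_of_lt hc)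
    exact lt_of_lt_of_le (lt_min hc hn) (le_iSup (fun n => gn n z) n)
  have hWsup : ∀ v, W (δ / 4) J (lin b) g v = ⨆ n, W (δ / 4) J (lin b) (gn n) v := by
    intro v
    have hlinv : Measurable (lin b v) := (measurable_lin hb).comp measurable_prodMk_left
    have e1 : ∀ t : ℝ, ∫⁻ w, g (lin b v t + w, t) ∂(nb d (δ / 4)) =
        ⨆ n, ∫⁻ w, gn n (lin b v t + w, t) ∂(nb d (δ / 4)) := by
      intro t
      rw [← lintegral_iSup]
      · apply lintegral_congr
        intro w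
        exact (hsup _).symm
      · intro n
        apply (hgnm n).comp
        fun_prop
      · intro m n hmn w
        exact hmono hmn _
    unfold W
    simp only [e1]
    rw [lintegral_iSup]
    · intro n
      exact measurable_avg hlinv (hgnm n)
    · intro m n hmn t
      apply lintegral_mono
      intro w
      exact hmono hmn _
  have hWmono : Monotone (fun n v => W (δ / 4) J (lin b) (gn n) v) := by
    intro m n hmn v
    apply lintegral_mono
    intro t
    apply lintegral_mono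
    intro w
    exact hmono hmn _
  calc ∫⁻ v in B, W (δ / 4) J (lin b) g v ^ (l * p)
      = ∫⁻ v in B, ⨆ n, W (δ / 4) J (lin b) (gn n) v ^ (l * p) := by
        apply lintegral_congr
        intro v
        rw [hWsup]
        rcases eq_or_lt_of_le hlp with h0 | h0
        · rw [← h0]; simp
        · exact (ENNReal.orderIsoRpow (l * p) h0).map_iSup _
    _ = ⨆ n, ∫⁻ v in B, W (δ / 4) J (lin b) (gn n) v ^ (l * p) := by
        apply lintegral_iSup
        · intro n
          exact (measurable_W1 _ J (measurable_lin hb) (hgnm n)).pow_const _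
        · intro m n hmn v
          exact ENNReal.rpow_le_rpow (hWmono hmn v) hlp
    _ ≤ _ := iSup_le hstep

end Pool.Agent.TH426.Kt
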